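import Pool.Agent.H410.FC.Defs

/-!
Basic facts about `α`, `β`, `p`, `x` (helper410).
-/

namespace Pool.Agent.H410.FC

open Finset

section

variable {a ε : ℤ}

theorem eps_cases (h : OK a ε) : ε = -1 ∨ ε = 1 := by
  rcases h with h | h
  · exact Or.inl h.1
  · exact Or.inr h.1

theorem eps_sq (h : OK a ε) : (ε : ℝ) ^ 2 = 1 := by
  rcases eps_cases h with h | h <;> subst h <;> norm_num

theorem eps_mul (h : OK a ε) : (ε : ℝ) * ε = 1 := by
  have := eps_sq h
  rwa [sq] at this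

theorem abs_eps (h : OK a ε) : |(ε : ℝ)| = 1 := by
  rcases eps_cases h with h | h <;> subst h <;> norm_num

theorem disc_ge (h : OK a ε) : (5 : ℝ) ≤ (a : ℝ) ^ 2 - 4 * ε := by
  rcases h with ⟨h, ha⟩ | ⟨h, ha⟩
  · subst h
    have : (1 : ℝ) ≤ a := by exact_mod_cast ha
    push_cast
    nlinarith
  · subst h
    have : (3 : ℝ) ≤ a := by exact_mod_cast ha
    push_cast
    nlinarith

theorem sD_sq (h : OK a ε) : sD a ε ^ 2 = (a : ℝ) ^ 2 - 4 * ε := by
  unfold sD
  exact Real.sq_sqrt (by linarith [disc_ge h])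

theorem sD_ge (h : OK a ε) : (11 / 5 : ℝ) ≤ sD a ε := by
  unfold sD
  apply Real.le_sqrt_of_sq_le
  linarith [disc_ge h, show ((11 / 5 : ℝ)) ^ 2 ≤ 5 by norm_num]

theorem sD_pos (h : OK a ε) : 0 < sD a ε := by linarith [sD_ge h]

theorem a_ge (h : OK a ε) : (1 : ℝ) ≤ a := by
  rcases h with ⟨_, ha⟩ | ⟨_, ha⟩
  · exact_mod_cast ha
  · have : (3 : ℝ) ≤ a := by exact_mod_cast ha
    linarith

theorem al_add_be : al a ε + be a ε = a := by unfold al be; ring

theorem al_sub_be : al a ε - be a ε = sD a ε := by unfold al be; ring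

theorem al_mul_be (h : OK a ε) : al a ε * be a ε = ε := by
  unfold al be
  have := sD_sq h
  nlinarith

theorem al_sq (h : OK a ε) : al a ε ^ 2 = a * al a ε - ε := by
  have h1 := al_mul_be h
  have h2 : be a ε = a - al a ε := by linarith [al_add_be (a := a) (ε := ε)]
  rw [h2] at h1
  linarith

theorem be_sq (h : OK a ε) : be a ε ^ 2 = a * be a ε - ε := by
  have h1 := al_mul_be h
  have h2 : al a ε = a - be a ε := by linarith [al_add_be (a := a) (ε := ε)]
  rw [h2] at h1
  linarith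

/-- `α ≥ 8/5`. -/
theorem al_ge (h : OK a ε) : (8 / 5 : ℝ) ≤ al a ε := by
  unfold al
  have := sD_ge h
  have := a_ge h
  linarith

theorem al_pos (h : OK a ε) : 0 < al a ε := by linarith [al_ge h]

theorem abs_al (h : OK a ε) : |al a ε| = al a ε := abs_of_pos (al_pos h)

theorem be_eq (h : OK a ε) : be a ε = ε / al a ε := by
  rw [eq_div_iff (al_pos h).ne', mul_comm]
  exact al_mul_be h

theorem be_ne (h : OK a ε) : be a ε ≠ 0 := by
  rw [be_eq h]
  have : (ε : ℝ) ≠ 0 := by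
    have := eps_sq h
    intro h0
    rw [h0] at this
    norm_num at this
  exact div_ne_zero this (al_pos h).ne'

theorem abs_be (h : OK a ε) : |be a ε| = (al a ε)⁻¹ := by
  rw [be_eq h, abs_div, abs_eps h, abs_al h, one_div]

theorem abs_be_mul (h : OK a ε) : |be a ε| * al a ε = 1 := by
  rw [abs_be h]
  exact inv_mul_cancel₀ (al_pos h).ne'

theorem abs_be_le (h : OK a ε) : |be a ε| ≤ 5 / 8 := by
  rw [abs_be h]
  have := al_ge h
  rw [inv_le_comm₀ (al_pos h) (by norm_num)]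
  norm_num
  linarith

/-- `|p| = α²`. -/
theorem abs_pp (h : OK a ε) : |pp a ε| = al a ε ^ 2 := by
  unfold pp
  rw [abs_mul, abs_eps h, one_mul, abs_pow, abs_al h]

theorem abs_x0 (h : OK a ε) : |x0 a ε| = al a ε := by
  unfold x0
  rw [abs_neg, abs_mul, abs_eps h, one_mul, abs_al h]

theorem Hpx_ok (h : OK a ε) : Hpx (pp a ε) (x0 a ε) := by
  refine ⟨?_, ?_, ?_⟩
  · rw [abs_pp h]
    nlinarith [al_ge h]
  · rw [abs_x0 h]
    linarith [al_ge h]
  · rw [abs_pp h, abs_x0 h]
    nlinarith [al_ge h]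

theorem pp_ne (h : OK a ε) : pp a ε ≠ 0 := by
  intro h0
  have := (Hpx_ok h).1
  rw [h0] at this
  norm_num at this

theorem x0_ne (h : OK a ε) : x0 a ε ≠ 0 := by
  intro h0
  have := (Hpx_ok h).2.1
  rw [h0] at this
  norm_num at this

/-- `p⁻¹ = ε β²`. -/
theorem pp_inv (h : OK a ε) : (pp a ε)⁻¹ = ε * be a ε ^ 2 := by
  apply inv_eq_of_mul_eq_one_left
  unfold pp
  have h1 := al_mul_be h
  have h2 := eps_mul h
  calc (ε : ℝ) * be a ε ^ 2 * (ε * al a ε ^ 2) = (ε * ε) * (al a ε * be a ε) ^ 2 := by ring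
    _ = 1 := by rw [h1, h2, eps_sq h]; ring

/-- `x² = ε p`. -/
theorem x0_sq (h : OK a ε) : x0 a ε ^ 2 = ε * pp a ε := by
  unfold x0 pp
  have h2 := eps_mul h
  nlinarith

theorem U_mul (h : OK a ε) (n : ℕ) : (U a ε n : ℝ) * sD a ε = al a ε ^ n - be a ε ^ n := by
  induction n using Nat.strong_induction_on with
  | _ n ih =>
    match n with
    | 0 => simp [U]
    | 1 => simp [U, al_sub_be]
    | (n + 2) =>
      have h0 := ih n (by omega)
      have h1 := ih (n + 1) (by omega)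
      have e : (U a ε (n + 2) : ℝ) = a * U a ε (n + 1) - ε * U a ε n := by
        simp [U]
      rw [e]
      have ha := al_sq h
      have hb := be_sq h
      calc ((a : ℝ) * U a ε (n + 1) - ε * U a ε n) * sD a ε
          = a * (U a ε (n + 1) * sD a ε) - ε * (U a ε n * sD a ε) := by ring
        _ = a * (al a ε ^ (n + 1) - be a ε ^ (n + 1)) - ε * (al a ε ^ n - be a ε ^ n) := by
            rw [h0, h1]
        _ = al a ε ^ n * (a * al a ε - ε) - be a ε ^ n * (a * be a ε - ε) := by ring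
        _ = al a ε ^ (n + 2) - be a ε ^ (n + 2) := by
            rw [← ha, ← hb]; ring

theorem U_pos (h : OK a ε) (n : ℕ) (hn : 1 ≤ n) : (0 : ℝ) < U a ε n := by
  have h1 := U_mul h n
  have h2 : be a ε ^ n < al a ε ^ n := by
    calc be a ε ^ n ≤ |be a ε ^ n| := le_abs_self _
      _ = |be a ε| ^ n := abs_pow _ _
      _ < al a ε ^ n := by
          apply pow_lt_pow_left₀ _ (abs_nonneg _) (by omega)
          linarith [abs_be_le h, al_ge h]
  by_contra h0
  push Not at h0
  have := mul_nonpos_of_nonpos_of_nonneg h0 (sD_pos h).le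
  linarith

/-- `p^l - 1 = (ε α)^l √D U_l`. -/
theorem pp_pow_sub (h : OK a ε) (l : ℕ) :
    pp a ε ^ l - 1 = (ε * al a ε) ^ l * sD a ε * U a ε l := by
  have h1 := U_mul h l
  have h2 := al_mul_be h
  have h3 := eps_mul h
  calc pp a ε ^ l - 1 = (ε * al a ε ^ 2) ^ l - (ε * ε) ^ l := by rw [h3, one_pow]; rfl
    _ = (ε * al a ε ^ 2) ^ l - (ε * (al a ε * be a ε)) ^ l := by rw [h2]
    _ = (ε * al a ε) ^ l * (al a ε ^ l - be a ε ^ l) := by
        rw [mul_sub, ← mul_pow, ← mul_pow]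
        ring
    _ = (ε * al a ε) ^ l * sD a ε * U a ε l := by rw [← h1]; ring

theorem sD_irr (h : OK a ε) : Irrational (sD a ε) := by
  have key : ∀ n : ℤ, n * n ≠ a ^ 2 - 4 * ε := by
    intro n hn
    rcases h with ⟨h, ha⟩ | ⟨h, ha⟩
    · subst h
      have h1 : |n| * |n| = a ^ 2 + 4 := by rw [abs_mul_abs_self]; linarith
      have h0 : 0 ≤ |n| := abs_nonneg n
      have h2 : a < |n| := by nlinarith
      by_cases h3 : |n| = a + 1
      · rw [h3] at h1
        have : 2 * a = 3 := by linarith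
        omega
      · have h4 : a + 2 ≤ |n| := by omega
        nlinarith
    · subst h
      have h1 : |n| * |n| = a ^ 2 - 4 := by rw [abs_mul_abs_self]; linarith
      have h0 : 0 ≤ |n| := abs_nonneg n
      have h2 : |n| < a := by nlinarith
      have h4 : |n| ≤ a - 1 := by omega
      nlinarith
  unfold sD
  have e : (a : ℝ) ^ 2 - 4 * ε = ((a ^ 2 - 4 * ε : ℤ) : ℝ) := by push_cast; ring
  rw [e]
  rw [irrational_sqrt_intCast_iff]
  refine ⟨?_, ?_⟩
  · rintro ⟨n, hn⟩
    exact key n hn.symm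
  · have := disc_ge h
    rw [e] at this
    have : (0 : ℝ) ≤ ((a ^ 2 - 4 * ε : ℤ) : ℝ) := by linarith
    exact_mod_cast this

theorem al_irr (h : OK a ε) : Irrational (al a ε) := by
  intro ⟨q, hq⟩
  apply sD_irr h
  refine ⟨2 * q - a, ?_⟩
  push_cast
  rw [hq]
  unfold al
  ring

end

end Pool.Agent.H410.FC
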