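import Mathlib
import Pool.Agent.H475.QZ.Defs

/-!
Definitions for the theorem: the sum of the reciprocals of the cubes of the Fibonacci numbers
(more generally of a Lucas sequence `U (n+2) = a U (n+1) - ε U n`, `ε = ±1`, with real roots)
is irrational (helper410). The seminorm `nu` is the one of `Pool.Agent.H475.QZ.Defs`.
-/

namespace Pool.Agent.H410.FC

open Finset
open Pool.Agent.H475.QZ (nu)

/-! ### arithmetic data -/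

/-- Admissible parameters: `ε = -1, a ≥ 1` or `ε = 1, a ≥ 3`. -/
def OK (a ε : ℤ) : Prop := (ε = -1 ∧ 1 ≤ a) ∨ (ε = 1 ∧ 3 ≤ a)

/-- The Lucas sequence `U 0 = 0, U 1 = 1, U (n+2) = a U (n+1) - ε U n`. -/
def U (a ε : ℤ) : ℕ → ℤ
  | 0 => 0
  | 1 => 1
  | (n + 2) => a * U a ε (n + 1) - ε * U a ε n

/-- `√(a² - 4 ε)`. -/
noncomputable def sD (a ε : ℤ) : ℝ := Real.sqrt ((a : ℝ) ^ 2 - 4 * ε)

/-- The larger root `α` of `X² - a X + ε`. -/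
noncomputable def al (a ε : ℤ) : ℝ := ((a : ℝ) + sD a ε) / 2

/-- The other root `β` of `X² - a X + ε`. -/
noncomputable def be (a ε : ℤ) : ℝ := ((a : ℝ) - sD a ε) / 2

/-- `p = ε α²`. -/
noncomputable def pp (a ε : ℤ) : ℝ := ε * al a ε ^ 2

/-- `x = - ε α`. -/
noncomputable def x0 (a ε : ℤ) : ℝ := -(ε * al a ε)

/-- `S = ∑_{n ≥ 1} 1/U_n^3`. -/
noncomputable def SS (a ε : ℤ) : ℝ := ∑' n : ℕ, 1 / (U a ε (n + 1) : ℝ) ^ 3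

/-! ### the numbers `c_m` and `a(K,J)` -/

/-- Hypotheses on the real numbers `p`, `x` in the analytic part. -/
def Hpx (p x : ℝ) : Prop := 2 ≤ |p| ∧ 1 ≤ |x| ∧ |x| ≤ |p|

/-- `c_m = m(m+1)/(1 + x p^m)`, `m ∈ ℤ`. -/
noncomputable def cc (p x : ℝ) (m : ℤ) : ℝ := ((m : ℝ) * (m + 1)) / (1 + x * p ^ m)

/-- `a(K,J) = ∑_{e ≥ 1} p^{-K e} c_{e+J}`, `J ∈ ℤ` (used for `K ≥ 1`). -/
noncomputable def ac (p x : ℝ) (K : ℕ) (J : ℤ) : ℝ :=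
  ∑' e : ℕ, (p ^ (K * (e + 1)))⁻¹ * cc p x ((e : ℤ) + 1 + J)

/-- The matrix `(a(K, J0 + j))`, `K = 1, …, N`, `0 ≤ j < N`. -/
noncomputable def AM (p x : ℝ) (J0 : ℤ) (N : ℕ) : Matrix (Fin N) (Fin N) ℝ :=
  Matrix.of fun k j => ac p x ((k : ℕ) + 1) (J0 + ((j : ℕ) : ℤ))

/-! ### denominators -/

/-- `D_K(y) = ∏_{2 ≤ d ≤ K} Φ_d(y)`. -/
noncomputable def DK (y : ℝ) (K : ℕ) : ℝ :=
  ∏ d ∈ Icc 2 K, (Polynomial.cyclotomic d ℝ).eval y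

/-- `η_d = ε^((d+1)/2)`. -/
noncomputable def eta (ε : ℤ) (d : ℕ) : ℝ := (ε : ℝ) ^ ((d + 1) / 2)

/-- `Δ_J(y)`: product of `Φ_d(η_d y)` over the odd `d ≤ 2J+1` and of `Φ_d(-η_d y)` over the odd
`d` with `3d ≤ 2J+1`. -/
noncomputable def Dl (ε : ℤ) (y : ℝ) (J : ℕ) : ℝ :=
  (∏ d ∈ (Icc 1 (2 * J + 1)).filter (fun d => d % 2 = 1),
    (Polynomial.cyclotomic d ℝ).eval (eta ε d * y)) *
  ∏ d ∈ (Icc 1 ((2 * J + 1) / 3)).filter (fun d => d % 2 = 1),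
    (Polynomial.cyclotomic d ℝ).eval (-(eta ε d * y))

/-- The column denominators: `Δ_J(y)` for `J ≥ 0`, `1` for `J = -1`, `Δ_{-2-J}(y')` for
`J ≤ -2`. -/
noncomputable def Dc (ε : ℤ) (y y' : ℝ) : ℤ → ℝ
  | Int.ofNat j => Dl ε y j
  | Int.negSucc 0 => 1
  | Int.negSucc (j + 1) => Dl ε y' j

/-- All denominators for the window `-n ≤ J ≤ n`, `1 ≤ K ≤ 2n+1` (`y, y'` the conjugates
`α, β` or `β, α`, `q` the number `p` resp. `1/p`). -/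
noncomputable def DD (ε : ℤ) (q y y' : ℝ) (n : ℕ) : ℝ :=
  (∏ k ∈ range (2 * n + 1), |DK q (k + 1)| ^ 3) *
    ∏ j ∈ range (2 * n + 1), |Dc ε y y' (-(n : ℤ) + j)|

/-! ### conjugate pairs and reductions -/

/-- `(z, z')` is a pair of conjugate elements of `ℤ[α]`. -/
def Cj (a ε : ℤ) (z z' : ℝ) : Prop :=
  ∃ f : Polynomial ℤ, Polynomial.aeval (al a ε) f = z ∧ Polynomial.aeval (be a ε) f = z'

/-- `f` is the reduction of the number `z ∈ ℚ(α)` under `α ↦ g`. -/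
def Rl (a ε : ℤ) {F : Type} [Field F] (g : F) (z : ℝ) (f : F) : Prop :=
  ∃ y s : Polynomial ℤ, Polynomial.aeval g s ≠ 0 ∧
    Polynomial.aeval (al a ε) s * z = Polynomial.aeval (al a ε) y ∧
    Polynomial.aeval g s * f = Polynomial.aeval g y

/-- The order `T` of `p` in the residue field: `T = 2 m0 + 1` if `ε = 1`, `T = 2 (2 m0 + 1)` if
`ε = -1`. -/
def Tt (ε : ℤ) (m0 : ℕ) : ℕ := if ε = 1 then 2 * m0 + 1 else 2 * (2 * m0 + 1)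

/-- The data of a residue field, `g` the image of `α`: `1 + x p^m0 = 0` and the order of `p` is
`Tt ε m0` (in the field). -/
structure Dat (a ε v : ℤ) (m0 : ℕ) (F : Type) [Field F] (g : F) : Prop where
  hm0 : 2 ≤ m0
  hg : g ^ 2 = (a : F) * g - (ε : F)
  hw : (ε : F) * g * ((ε : F) * g ^ 2) ^ m0 = 1
  hord : ∀ k : ℕ, 0 < k → k < Tt ε m0 → ((ε : F) * g ^ 2) ^ k ≠ 1
  hv : (v : F) ≠ 0
  h2 : (2 : F) ≠ 0
  h3 : (3 : F) ≠ 0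
  hD : (((a ^ 2 - 4 * ε : ℤ)) : F) ≠ 0
  hm : (m0 : F) ≠ 0
  hm1 : (m0 : F) + 1 ≠ 0
  h3m : 3 * (m0 : F) + 1 ≠ 0
  h3m1 : 3 * (m0 : F) + 2 ≠ 0

/-! ### analytic part (real `p` with `|p| ≥ 2`) -/

/-- `x_t = p^{-t}`. -/
noncomputable def xt (p : ℝ) (t : ℕ) : ℝ := (p ^ t)⁻¹

/-- `X_t = x_t e^h`, a power series in `h`. -/
noncomputable def XX (p : ℝ) (t : ℕ) : PowerSeries ℝ :=
  PowerSeries.C (xt p t) * PowerSeries.exp ℝ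

/-- `Q(X_t) = ∏_{K=1}^N (p^K - X_t)`. -/
noncomputable def QQ (p : ℝ) (N t : ℕ) : PowerSeries ℝ :=
  ∏ k ∈ range N, (PowerSeries.C (p ^ (k + 1)) - XX p t)

/-- The functional `Dg f = 2 f_2 + f_1` (so `Dg (e^{m h}) = m² + m`). -/
noncomputable def Dg (f : PowerSeries ℝ) : ℝ :=
  2 * PowerSeries.coeff 2 f + PowerSeries.coeff 1 f

/-- The weights `w_t = -(-x)^{-t}`: `1/(1+z) = ∑_{t≥1} -(-z)^{-t}` for `|z| > 1`. -/
noncomputable def wt (x : ℝ) (t : ℕ) : ℝ := -((-x) ^ t)⁻¹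

/-- `κ_t(F) = w_t Dg[X_t F(X_t)/Q(X_t)]`. -/
noncomputable def kap (p x : ℝ) (N t : ℕ) (F : Polynomial ℝ) : ℝ :=
  wt x t * Dg (XX p t * Polynomial.aeval (XX p t) F * (QQ p N t)⁻¹)

/-- `π_k = ∏_{l < N, l ≠ k} (p^(l+1) - p^(k+1))`. -/
noncomputable def pik (p : ℝ) (N k : ℕ) : ℝ :=
  ∏ l ∈ (range N).erase k, (p ^ (l + 1) - p ^ (k + 1))

/-- The Vandermonde product `V = ∏_{i < l < N} (p^(l+1) - p^(i+1))`. -/
noncomputable def VV (p : ℝ) (N : ℕ) : ℝ :=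
  ∏ l ∈ range N, ∏ i ∈ range l, (p ^ (l + 1) - p ^ (i + 1))

/-- `L(F,G) = ∑_k ∑_j F(p^(k+1))/π_k a(k+1,j) G_j`. -/
noncomputable def LL (p x : ℝ) (N : ℕ) (F G : Polynomial ℝ) : ℝ :=
  ∑ k ∈ range N, ∑ j ∈ range N,
    F.eval (p ^ (k + 1)) / pik p N k * ac p x (k + 1) (j : ℤ) * G.coeff j

/-- The same with the columns `J = -n0 + j`. -/
noncomputable def LW (p x : ℝ) (N n0 : ℕ) (F G : Polynomial ℝ) : ℝ :=
  ∑ k ∈ range N, ∑ j ∈ range N,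
    F.eval (p ^ (k + 1)) / pik p N k * ac p x (k + 1) (-(n0 : ℤ) + (j : ℤ)) * G.coeff j

/-- `E_a = ∏_{s=1}^a (T - x_s)`. -/
noncomputable def EE (p : ℝ) (a : ℕ) : Polynomial ℝ :=
  ∏ s ∈ Icc 1 a, (Polynomial.X - Polynomial.C (xt p s))

/-- `F_{(a,c)} = E_a^3 (T - x_{a+1})^c`. -/
noncomputable def FF (p : ℝ) (a c : ℕ) : Polynomial ℝ :=
  EE p a ^ 3 * (Polynomial.X - Polynomial.C (xt p (a + 1))) ^ c

/-- `e_a = |p|^{-a(a+1)/2}`. -/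
noncomputable def ea (p : ℝ) (a : ℕ) : ℝ := (|p| ^ (a * (a + 1) / 2))⁻¹

/-- `w = |p|^{-N(N+1)/2}`. -/
noncomputable def ww (p : ℝ) (N : ℕ) : ℝ := (|p| ^ (N * (N + 1) / 2))⁻¹

/-- An explicit constant. -/
noncomputable def C3 : ℝ := 2 * 13 ^ 6 * (7 / 2) ^ 4 * 3 ^ 12

/-- The basis: `T^i` for `i < n0`, `T^n0 F_{(⌊i'/3⌋, i' mod 3)}`, `i' = i - n0`, for `i ≥ n0`. -/
noncomputable def BF (p : ℝ) (n0 i : ℕ) : Polynomial ℝ :=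
  if i < n0 then Polynomial.X ^ i
  else Polynomial.X ^ n0 * FF p ((i - n0) / 3) ((i - n0) % 3)

/-- The sizes: `1` for `i < n0`, `e_{⌊i'/3⌋}^3` for `i ≥ n0`. -/
noncomputable def rr (p : ℝ) (n0 i : ℕ) : ℝ :=
  if i < n0 then 1 else ea p ((i - n0) / 3) ^ 3

end Pool.Agent.H410.FC
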