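import Pool.Agent.H410.FC.Stm

/-!
Closed form of `a(K,0)` (by helper720).
-/

namespace Pool.Agent.H410.FC

open Finset Polynomial

namespace P_CF

/-- `∑ m (m+1) z^m`. -/
lemma sumz {z : ℝ} (hz : ‖z‖ < 1) :
    HasSum (fun e : ℕ => ((e : ℝ) + 1) * (e + 2) * z ^ (e + 1)) (2 * z / (1 - z) ^ 3) := by
  have h1 := (hasSum_choose_mul_geometric_of_norm_lt_one 2 hz).mul_left (2 * z)
  have h4 : (fun e : ℕ => ((e : ℝ) + 1) * (e + 2) * z ^ (e + 1)) = fun e : ℕ =>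
      2 * z * ((((e + 2).choose 2 : ℕ) : ℝ) * z ^ e) := by
    funext e
    rw [Nat.cast_choose_two]
    push_cast
    ring
  have h5 : 2 * z / (1 - z) ^ 3 = 2 * z * (1 / (1 - z) ^ (2 + 1)) := by
    ring
  rw [h4, h5]
  exact h1

/-- the terms of `a(K,0)` -/
noncomputable def t (p x : ℝ) (K e : ℕ) : ℝ := (p ^ (K * (e + 1)))⁻¹ * cc p x ((e : ℤ) + 1 + 0)

lemma cc_nat (p x : ℝ) (e : ℕ) :
    cc p x ((e : ℤ) + 1 + 0) = (((e : ℝ) + 1) * (e + 2)) / (1 + x * p ^ (e + 1)) := by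
  unfold cc
  have h1 : p ^ ((e : ℤ) + 1 + 0) = p ^ (e + 1) := by
    rw [add_zero]
    exact_mod_cast zpow_natCast p (e + 1)
  rw [h1]
  push_cast
  ring_nf

lemma p_pow_ge {p x : ℝ} (h : Hpx p x) (e : ℕ) : 2 ≤ |p| ^ (e + 1) := by
  have h1 : (1 : ℝ) ≤ |p| ^ e := one_le_pow₀ (by linarith [h.1])
  have h2 : |p| ^ (e + 1) = |p| ^ e * |p| := pow_succ _ _
  have h3 := h.1
  rw [h2]
  nlinarith

lemma den_ge {p x : ℝ} (h : Hpx p x) (e : ℕ) : 1 ≤ |1 + x * p ^ (e + 1)| := by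
  have h1 := p_pow_ge h e
  have h2 : 2 ≤ |x * p ^ (e + 1)| := by
    rw [abs_mul, abs_pow]
    nlinarith [h.2.1]
  have h3 : |x * p ^ (e + 1)| ≤ |1 + x * p ^ (e + 1)| + 1 := by
    have h4 := abs_sub (1 + x * p ^ (e + 1)) 1
    rw [abs_one, add_sub_cancel_left] at h4
    exact h4
  linarith

/-- the majorant -/
noncomputable def gg (p : ℝ) (e : ℕ) : ℝ := ((e : ℝ) + 1) * (e + 2) * (|p|⁻¹) ^ (e + 1)

lemma gg_nonneg (p : ℝ) (e : ℕ) : 0 ≤ gg p e := by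
  unfold gg
  positivity

lemma norm_inv_lt {p x : ℝ} (h : Hpx p x) : ‖|p|⁻¹‖ < 1 := by
  rw [norm_inv, Real.norm_eq_abs, abs_abs]
  exact inv_lt_one_of_one_lt₀ (by linarith [h.1])

lemma gg_summable {p x : ℝ} (h : Hpx p x) : Summable (gg p) :=
  (sumz (norm_inv_lt h)).summable

lemma abs_t_le {p x : ℝ} (h : Hpx p x) {K : ℕ} (hK : 1 ≤ K) (e : ℕ) : |t p x K e| ≤ gg p e := by
  unfold t gg
  rw [cc_nat, abs_mul, abs_inv, abs_pow, abs_div]
  have h1 : |((e : ℝ) + 1) * (e + 2)| = ((e : ℝ) + 1) * (e + 2) := abs_of_nonneg (by positivity)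
  have h2 := den_ge h e
  have h3 : |((e : ℝ) + 1) * (e + 2)| / |1 + x * p ^ (e + 1)| ≤ ((e : ℝ) + 1) * (e + 2) := by
    rw [h1]
    exact div_le_self (by positivity) h2
  have h4 : (|p| ^ (K * (e + 1)))⁻¹ ≤ (|p|⁻¹) ^ (e + 1) := by
    rw [inv_pow]
    have h5 : (0 : ℝ) < |p| ^ (e + 1) := by linarith [p_pow_ge h e]
    apply inv_anti₀ h5
    exact pow_le_pow_right₀ (by linarith [h.1]) (Nat.le_mul_of_pos_left _ hK)
  calc (|p| ^ (K * (e + 1)))⁻¹ * (|((e : ℝ) + 1) * (e + 2)| / |1 + x * p ^ (e + 1)|)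
      ≤ (|p|⁻¹) ^ (e + 1) * (((e : ℝ) + 1) * (e + 2)) :=
        mul_le_mul h4 h3 (by positivity) (by positivity)
    _ = _ := by ring

lemma t_summable {p x : ℝ} (h : Hpx p x) {K : ℕ} (hK : 1 ≤ K) : Summable (t p x K) :=
  Summable.of_norm_bounded (gg_summable h) fun e => abs_t_le h hK e

lemma tsum_le {p x : ℝ} (h : Hpx p x) {K : ℕ} (hK : 1 ≤ K) :
    |∑' e, t p x K e| ≤ ∑' e, gg p e := by
  have h1 := tsum_of_norm_bounded (f := t p x K) (gg_summable h).hasSum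
    fun e => abs_t_le h hK e
  exact h1

/-- `A_K = (-x)^{-K} a(K,0)`. -/
noncomputable def AA (p x : ℝ) (K : ℕ) : ℝ := ((-x) ^ K)⁻¹ * ∑' e, t p x K e

lemma AA_step {p x : ℝ} (h : Hpx p x) {K : ℕ} (hK : 1 ≤ K) :
    AA p x (K + 1) = AA p x K + ((-x) ^ (K + 1))⁻¹ *
      (2 * (p ^ (K + 1))⁻¹ / (1 - (p ^ (K + 1))⁻¹) ^ 3) := by
  have hp : p ≠ 0 := by
    intro h0
    have := h.1
    rw [h0, abs_zero] at this
    linarith
  have hx : -x ≠ 0 := by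
    intro h0
    have := h.2.1
    rw [neg_eq_zero.1 h0, abs_zero] at this
    linarith
  have hz : ‖(p ^ (K + 1))⁻¹‖ < 1 := by
    rw [norm_inv, Real.norm_eq_abs, abs_pow]
    apply inv_lt_one_of_one_lt₀
    linarith [p_pow_ge h K]
  have h1 := sumz hz
  have h2 : ∀ e, ((-x) ^ (K + 1))⁻¹ * t p x (K + 1) e - ((-x) ^ K)⁻¹ * t p x K e =
      ((-x) ^ (K + 1))⁻¹ * (((e : ℝ) + 1) * (e + 2) * ((p ^ (K + 1))⁻¹) ^ (e + 1)) := by
    intro e
    unfold t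
    rw [cc_nat]
    have hd : 1 + x * p ^ (e + 1) ≠ 0 := by
      intro h0
      have := den_ge h e
      rw [h0, abs_zero] at this
      linarith
    have e1 : p ^ ((K + 1) * (e + 1)) = (p ^ (e + 1)) ^ (K + 1) := by
      rw [← pow_mul, mul_comm]
    have e2 : p ^ (K * (e + 1)) = (p ^ (e + 1)) ^ K := by
      rw [← pow_mul, mul_comm]
    have e3 : ((p ^ (K + 1))⁻¹) ^ (e + 1) = ((p ^ (e + 1)) ^ (K + 1))⁻¹ := by
      rw [inv_pow, ← pow_mul, ← pow_mul, mul_comm]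
    rw [e1, e2, e3]
    have hP : p ^ (e + 1) ≠ 0 := pow_ne_zero _ hp
    generalize p ^ (e + 1) = P at hd hP
    generalize ((e : ℝ) + 1) * (e + 2) = c
    rw [pow_succ, pow_succ P]
    have hxK : (-x) ^ K ≠ 0 := pow_ne_zero _ hx
    have hPK : P ^ K ≠ 0 := pow_ne_zero _ hP
    generalize (-x) ^ K = XK at hxK
    generalize P ^ K = PK at hPK
    have hx' : x ≠ 0 := neg_ne_zero.1 hx
    field_simp
    ring
  have h3 : ∑' e, (((-x) ^ (K + 1))⁻¹ * t p x (K + 1) e - ((-x) ^ K)⁻¹ * t p x K e) =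
      ((-x) ^ (K + 1))⁻¹ * (2 * (p ^ (K + 1))⁻¹ / (1 - (p ^ (K + 1))⁻¹) ^ 3) := by
    rw [tsum_congr h2, tsum_mul_left, h1.tsum_eq]
  rw [((t_summable h (Nat.le_add_left 1 K)).mul_left _).tsum_sub
    ((t_summable h hK).mul_left _), tsum_mul_left, tsum_mul_left] at h3
  unfold AA
  linarith

end P_CF

open P_CF in
theorem t_CF : S_CF := by
  intro a ε h K hK
  have hH := Hpx_ok h
  have hs := sD_pos h
  have hs0 : sD a ε ≠ 0 := hs.ne'
  have hx : -x0 a ε = ε * al a ε := by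
    unfold x0
    ring
  have hxne : (ε : ℝ) * al a ε ≠ 0 := by
    rw [← hx]
    exact neg_ne_zero.2 (x0_ne h)
  -- the step
  have hstep : ∀ l : ℕ, 1 ≤ l → ((-x0 a ε) ^ l)⁻¹ *
      (2 * (pp a ε ^ l)⁻¹ / (1 - (pp a ε ^ l)⁻¹) ^ 3) =
        2 / sD a ε ^ 3 * (1 / (U a ε l : ℝ) ^ 3) := by
    intro l hl
    have h1 := pp_pow_sub h l
    have h2 : (pp a ε ^ l) ^ 2 = ((ε * al a ε) ^ l) ^ 4 := by
      have h3 : pp a ε ^ 2 = ((ε : ℝ) * al a ε) ^ 4 := by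
        unfold pp
        have h4 := eps_sq h
        calc ((ε : ℝ) * al a ε ^ 2) ^ 2 = (ε : ℝ) ^ 2 * al a ε ^ 4 := by ring
          _ = ((ε : ℝ) ^ 2) ^ 2 * al a ε ^ 4 := by rw [h4]; ring
          _ = ((ε : ℝ) * al a ε) ^ 4 := by ring
      rw [← pow_mul, mul_comm l 2, pow_mul, h3, ← pow_mul, ← pow_mul, mul_comm 4 l]
    have hU : (U a ε l : ℝ) ≠ 0 := (U_pos h l hl).ne'
    have hE : ((ε : ℝ) * al a ε) ^ l ≠ 0 := pow_ne_zero _ hxne
    have hP : pp a ε ^ l ≠ 0 := pow_ne_zero _ (pp_ne h)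
    rw [hx]
    generalize ((ε : ℝ) * al a ε) ^ l = E at h1 h2 hE
    generalize pp a ε ^ l = P at h1 h2 hP
    have h3 : 1 - P⁻¹ = E * sD a ε * U a ε l / P := by
      rw [← h1]
      field_simp
    rw [h3, div_pow]
    field_simp
    rw [h2]
  have hA : ∀ l : ℕ, 1 ≤ l → AA (pp a ε) (x0 a ε) (l + 1) = AA (pp a ε) (x0 a ε) l +
      2 / sD a ε ^ 3 * (1 / (U a ε (l + 1) : ℝ) ^ 3) := by
    intro l hl
    rw [AA_step hH hl, hstep (l + 1) (by omega)]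
  -- partial sums
  have hpart : ∀ l : ℕ, 1 ≤ l → ∑ i ∈ Icc 1 l, 1 / (U a ε i : ℝ) ^ 3 =
      1 + sD a ε ^ 3 / 2 * (AA (pp a ε) (x0 a ε) l - AA (pp a ε) (x0 a ε) 1) := by
    intro l hl
    induction l, hl using Nat.le_induction with
    | base => simp [U]
    | succ l hl ih =>
      rw [Finset.sum_Icc_succ_top (by omega), ih, hA l hl]
      field_simp
      ring
  -- the limit
  have hlim : Filter.Tendsto (AA (pp a ε) (x0 a ε)) Filter.atTop (nhds 0) := by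
    have hb : ∀ᶠ l in Filter.atTop, ‖AA (pp a ε) (x0 a ε) l‖ ≤
        ((al a ε)⁻¹) ^ l * ∑' e, gg (pp a ε) e := by
      filter_upwards [Filter.eventually_ge_atTop 1] with l hl
      unfold AA
      rw [Real.norm_eq_abs, abs_mul, abs_inv, abs_pow, abs_neg, abs_x0 h, inv_pow]
      exact mul_le_mul_of_nonneg_left (tsum_le hH hl)
        (inv_nonneg.2 (pow_nonneg (al_pos h).le _))
    have h1 : Filter.Tendsto (fun l : ℕ => ((al a ε)⁻¹) ^ l * ∑' e, gg (pp a ε) e)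
        Filter.atTop (nhds 0) := by
      have h2 := (tendsto_pow_atTop_nhds_zero_of_lt_one (inv_nonneg.2 (al_pos h).le)
        (inv_lt_one_of_one_lt₀ (by linarith [al_ge h]))).mul_const (∑' e, gg (pp a ε) e)
      rw [zero_mul] at h2
      exact h2
    exact squeeze_zero_norm' hb h1
  have hSS : SS a ε = 1 - sD a ε ^ 3 / 2 * AA (pp a ε) (x0 a ε) 1 := by
    unfold SS
    apply HasSum.tsum_eq
    rw [hasSum_iff_tendsto_nat_of_nonneg]
    · have h1 : Filter.Tendsto (fun l : ℕ =>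
          1 + sD a ε ^ 3 / 2 * (AA (pp a ε) (x0 a ε) l - AA (pp a ε) (x0 a ε) 1))
          Filter.atTop (nhds (1 + sD a ε ^ 3 / 2 * (0 - AA (pp a ε) (x0 a ε) 1))) :=
        ((hlim.sub_const _).const_mul _).const_add _
      have h2 : 1 + sD a ε ^ 3 / 2 * (0 - AA (pp a ε) (x0 a ε) 1) =
          1 - sD a ε ^ 3 / 2 * AA (pp a ε) (x0 a ε) 1 := by ring
      rw [h2] at h1
      refine h1.congr' ?_
      filter_upwards [Filter.eventually_ge_atTop 1] with l hl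
      rw [← hpart l hl, Finset.range_eq_Ico, Finset.sum_Ico_add' (fun i => 1 / (U a ε i : ℝ) ^ 3)
        0 l 1]
      rfl
    · intro n
      have h1 := U_pos h (n + 1) (by omega)
      positivity
  have hac : ac (pp a ε) (x0 a ε) K 0 = (ε * al a ε) ^ K * AA (pp a ε) (x0 a ε) K := by
    unfold AA
    rw [hx, ← mul_assoc, mul_inv_cancel₀ (pow_ne_zero _ hxne), one_mul]
    rfl
  rw [hac, hSS, hpart K hK]
  field_simp
  ring

end Pool.Agent.H410.FC
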