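import Pool.Agent.H410.FC.Stm

/-! Rules for conjugate pairs (`S_CJ`). -/

set_option autoImplicit false

namespace Pool.Agent.H410.FC

open Finset Polynomial

namespace P_CJ

variable {a ε : ℤ}

theorem cj_int (n : ℤ) : Cj a ε n n :=
  ⟨C n, by rw [aeval_C]; rfl, by rw [aeval_C]; rfl⟩

theorem cj_add {z z' w w' : ℝ} (h1 : Cj a ε z z') (h2 : Cj a ε w w') : Cj a ε (z + w) (z' + w') := by
  obtain ⟨f, hf, hf'⟩ := h1
  obtain ⟨g, hg, hg'⟩ := h2
  exact ⟨f + g, by rw [map_add, hf, hg], by rw [map_add, hf', hg']⟩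

theorem cj_mul {z z' w w' : ℝ} (h1 : Cj a ε z z') (h2 : Cj a ε w w') : Cj a ε (z * w) (z' * w') := by
  obtain ⟨f, hf, hf'⟩ := h1
  obtain ⟨g, hg, hg'⟩ := h2
  exact ⟨f * g, by rw [map_mul, hf, hg], by rw [map_mul, hf', hg']⟩

theorem cj_neg {z z' : ℝ} (h1 : Cj a ε z z') : Cj a ε (-z) (-z') := by
  obtain ⟨f, hf, hf'⟩ := h1
  exact ⟨-f, by rw [map_neg, hf], by rw [map_neg, hf']⟩

theorem cj_swap {z z' : ℝ} (h1 : Cj a ε z z') : Cj a ε z' z := by
  obtain ⟨f, hf, hf'⟩ := h1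
  have e1 : aeval (al a ε) (C a - X : ℤ[X]) = be a ε := by
    rw [map_sub, aeval_C, aeval_X, eq_intCast]
    linarith [al_add_be (a := a) (ε := ε)]
  have e2 : aeval (be a ε) (C a - X : ℤ[X]) = al a ε := by
    rw [map_sub, aeval_C, aeval_X, eq_intCast]
    linarith [al_add_be (a := a) (ε := ε)]
  exact ⟨f.comp (C a - X), by rw [aeval_comp, e1, hf'], by rw [aeval_comp, e2, hf]⟩

theorem cj_al : Cj a ε (al a ε) (be a ε) := ⟨X, aeval_X _, aeval_X _⟩

theorem cj_pp (h : OK a ε) : Cj a ε (pp a ε) (pp a ε)⁻¹ := by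
  refine ⟨C ε * X ^ 2, ?_, ?_⟩
  · rw [map_mul, map_pow, aeval_C, aeval_X, eq_intCast]
    rfl
  · rw [map_mul, map_pow, aeval_C, aeval_X, eq_intCast, pp_inv h]

theorem cj_sD : Cj a ε (sD a ε) (-sD a ε) := by
  refine ⟨2 * X - C a, ?_, ?_⟩
  · rw [map_sub, map_mul, aeval_C, aeval_X, eq_intCast, map_ofNat, al]
    ring
  · rw [map_sub, map_mul, aeval_C, aeval_X, eq_intCast, map_ofNat, be]
    ring

theorem cj_sum (s : Finset ℕ) (f f' : ℕ → ℝ) (h : ∀ i ∈ s, Cj a ε (f i) (f' i)) :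
    Cj a ε (∑ i ∈ s, f i) (∑ i ∈ s, f' i) := by
  induction s using Finset.induction_on with
  | empty =>
    rw [sum_empty, sum_empty]
    simpa using cj_int (a := a) (ε := ε) 0
  | insert i s hi ih =>
    rw [sum_insert hi, sum_insert hi]
    exact cj_add (h i (mem_insert_self _ _)) (ih fun j hj => h j (mem_insert_of_mem hj))

theorem cj_prod (s : Finset ℕ) (f f' : ℕ → ℝ) (h : ∀ i ∈ s, Cj a ε (f i) (f' i)) :
    Cj a ε (∏ i ∈ s, f i) (∏ i ∈ s, f' i) := by
  induction s using Finset.induction_on with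
  | empty =>
    rw [prod_empty, prod_empty]
    simpa using cj_int (a := a) (ε := ε) 1
  | insert i s hi ih =>
    rw [prod_insert hi, prod_insert hi]
    exact cj_mul (h i (mem_insert_self _ _)) (ih fun j hj => h j (mem_insert_of_mem hj))

theorem cj_det (N : ℕ) (A A' : Matrix (Fin N) (Fin N) ℝ) (h : ∀ i j, Cj a ε (A i j) (A' i j)) :
    Cj a ε A.det A'.det := by
  choose F hF hF' using h
  refine ⟨(Matrix.of F).det, ?_, ?_⟩
  · rw [AlgHom.map_det]
    congr 1
    ext i j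
    exact hF i j
  · rw [AlgHom.map_det]
    congr 1
    ext i j
    exact hF' i j

theorem cj_poly (g : ℤ[X]) {z z' : ℝ} (h1 : Cj a ε z z') : Cj a ε (aeval z g) (aeval z' g) := by
  obtain ⟨f, hf, hf'⟩ := h1
  exact ⟨g.comp f, by rw [aeval_comp, hf], by rw [aeval_comp, hf']⟩

/-- linear form of the values -/
theorem exists_lin (h : OK a ε) (f : ℤ[X]) : ∃ c d : ℤ, aeval (al a ε) f = c + d * al a ε ∧
    aeval (be a ε) f = c + d * be a ε := by
  let q : ℤ[X] := X ^ 2 - C a * X + C ε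
  have hq : q.Monic := by
    have : q = X ^ 2 - (C a * X - C ε) := by ring
    rw [this]
    refine monic_X_pow_sub (n := 2) ?_
    refine lt_of_le_of_lt (degree_sub_le _ _) (max_lt ?_ ?_)
    · exact lt_of_le_of_lt (degree_C_mul_X_le a) (by norm_num)
    · exact lt_of_le_of_lt degree_C_le (by norm_num)
  have hdeg : q.degree = 2 := by
    have : q = X ^ 2 - (C a * X - C ε) := by ring
    rw [this]
    rw [degree_sub_eq_left_of_degree_lt]
    · rw [degree_X_pow]; rfl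
    · rw [degree_X_pow]
      refine lt_of_le_of_lt (degree_sub_le _ _) (max_lt ?_ ?_)
      · exact lt_of_le_of_lt (degree_C_mul_X_le a) (by norm_num)
      · exact lt_of_le_of_lt degree_C_le (by norm_num)
  have hr : (f %ₘ q).degree ≤ 1 := by
    have h1 := degree_modByMonic_lt f hq
    rw [hdeg] at h1
    exact Order.le_of_lt_succ h1
  have hlin := eq_X_add_C_of_degree_le_one hr
  have h1 := modByMonic_add_div f q
  have hqa : aeval (al a ε) q = 0 := by
    have := al_sq h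
    simp only [q, map_add, map_sub, map_mul, map_pow, aeval_C, aeval_X]
    rw [eq_intCast, eq_intCast]
    linarith
  have hqb : aeval (be a ε) q = 0 := by
    have := be_sq h
    simp only [q, map_add, map_sub, map_mul, map_pow, aeval_C, aeval_X]
    rw [eq_intCast, eq_intCast]
    linarith
  refine ⟨(f %ₘ q).coeff 0, (f %ₘ q).coeff 1, ?_, ?_⟩
  · conv_lhs => rw [← h1]
    rw [map_add, map_mul, hqa, zero_mul, add_zero]
    conv_lhs => rw [hlin]
    rw [map_add, map_mul, aeval_C, aeval_C, aeval_X, eq_intCast, eq_intCast]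
    ring
  · conv_lhs => rw [← h1]
    rw [map_add, map_mul, hqb, zero_mul, add_zero]
    conv_lhs => rw [hlin]
    rw [map_add, map_mul, aeval_C, aeval_C, aeval_X, eq_intCast, eq_intCast]
    ring

theorem lin_zero {c d : ℤ} {y : ℝ} (hy : Irrational y) (h : (c : ℝ) + d * y = 0) : c = 0 ∧ d = 0 := by
  have hd : d = 0 := by
    by_contra hd
    have hd' : (d : ℝ) ≠ 0 := by exact_mod_cast hd
    apply hy
    refine ⟨-(c : ℚ) / d, ?_⟩
    push_cast
    rw [div_eq_iff hd']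
    linarith
  subst hd
  simp at h
  exact ⟨h, rfl⟩

theorem be_irr (h : OK a ε) : Irrational (be a ε) := by
  intro ⟨q, hq⟩
  apply al_irr h
  refine ⟨a - q, ?_⟩
  push_cast
  rw [hq]
  linarith [al_add_be (a := a) (ε := ε)]

theorem cj_norm (h : OK a ε) {z z' : ℝ} (h1 : Cj a ε z z') (hz : z ≠ 0) : 1 ≤ |z * z'| := by
  obtain ⟨f, hf, hf'⟩ := h1
  obtain ⟨c, d, e1, e2⟩ := exists_lin h f
  rw [hf] at e1
  rw [hf'] at e2
  have hz' : z' ≠ 0 := by
    intro h0
    obtain ⟨hc, hd⟩ := lin_zero (be_irr h) (e2.symm.trans h0)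
    apply hz
    rw [e1, hc, hd]
    simp
  have e3 : z * z' = ((c ^ 2 + a * c * d + ε * d ^ 2 : ℤ) : ℝ) := by
    rw [e1, e2]
    push_cast
    have h3 := al_mul_be h
    have h4 := al_add_be (a := a) (ε := ε)
    calc ((c : ℝ) + d * al a ε) * (c + d * be a ε) =
        c ^ 2 + c * d * (al a ε + be a ε) + d ^ 2 * (al a ε * be a ε) := by ring
      _ = _ := by rw [h3, h4]; ring
  have h5 : z * z' ≠ 0 := mul_ne_zero hz hz'
  rw [e3] at h5 ⊢
  have h6 : (c ^ 2 + a * c * d + ε * d ^ 2 : ℤ) ≠ 0 := by exact_mod_cast h5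
  have h7 := Int.one_le_abs h6
  exact_mod_cast h7

end P_CJ

open P_CJ in
theorem t_CJ : S_CJ := by
  intro a ε h
  refine ⟨fun n => cj_int n, fun _ _ _ _ h1 h2 => cj_add h1 h2, fun _ _ _ _ h1 h2 => cj_mul h1 h2,
    fun _ _ h1 => cj_neg h1, fun _ _ h1 => cj_swap h1, cj_al, cj_pp h, cj_sD,
    fun s f f' h1 => cj_sum s f f' h1, fun s f f' h1 => cj_prod s f f' h1,
    fun N A A' h1 => cj_det N A A' h1, fun g _ _ h1 => cj_poly g h1,
    fun _ _ h1 h2 => cj_norm h h1 h2⟩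

end Pool.Agent.H410.FC
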