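import Pool.Agent.H410.FC.Stm

/-!
Degrees of the polynomials `FF` and `BF`.
-/

set_option autoImplicit false

namespace Pool.Agent.H410.FC

open Finset Polynomial

namespace P_DEG

theorem EE_monic (p : ℝ) (a : ℕ) : (EE p a).Monic :=
  monic_prod_of_monic _ _ fun _ _ => monic_X_sub_C _

theorem EE_natDegree (p : ℝ) (a : ℕ) : (EE p a).natDegree = a := by
  unfold EE
  rw [natDegree_prod_of_monic _ _ fun _ _ => monic_X_sub_C _]
  simp only [natDegree_X_sub_C, sum_const, Nat.card_Icc, smul_eq_mul, mul_one]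
  omega

theorem FF_deg (p : ℝ) (a c : ℕ) : (FF p a c).Monic ∧ (FF p a c).natDegree = 3 * a + c := by
  have h1 : (EE p a ^ 3).Monic := (EE_monic p a).pow 3
  have h2 : ((Polynomial.X - Polynomial.C (xt p (a + 1))) ^ c).Monic := (monic_X_sub_C _).pow c
  refine ⟨h1.mul h2, ?_⟩
  unfold FF
  rw [h1.natDegree_mul h2, (EE_monic p a).natDegree_pow, EE_natDegree,
    (monic_X_sub_C _).natDegree_pow, natDegree_X_sub_C, mul_one]

end P_DEG

theorem t_DEG : S_DEG := by
  intro p
  refine ⟨P_DEG.FF_deg p, ?_⟩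
  intro n0 i
  unfold BF
  split_ifs with h
  · exact ⟨monic_X_pow i, natDegree_X_pow i⟩
  · obtain ⟨h1, h2⟩ := P_DEG.FF_deg p ((i - n0) / 3) ((i - n0) % 3)
    refine ⟨(monic_X_pow n0).mul h1, ?_⟩
    rw [(monic_X_pow n0).natDegree_mul h1, natDegree_X_pow, h2]
    omega

end Pool.Agent.H410.FC
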