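import Pool.Agent.H410.FC.Stm

/-! `S_DIV` (helper643 for helper410): divided differences. -/

namespace Pool.Agent.H410.FC

open Finset Polynomial

namespace P_DIV

/-- the divided difference of the `m`-th power -/
noncomputable def T (y : ℕ → ℝ) (N m : ℕ) : ℝ :=
  ∑ k ∈ range N, y k ^ m / ∏ l ∈ (range N).erase k, (y k - y l)

theorem prod_ne {y : ℕ → ℝ} (hy : Function.Injective y) (N k : ℕ) :
    ∏ l ∈ (range N).erase k, (y k - y l) ≠ 0 := by
  refine Finset.prod_ne_zero_iff.2 fun l hl => ?_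
  have h1 : l ≠ k := (Finset.mem_erase.1 hl).1
  exact sub_ne_zero.2 fun h => h1 (hy h).symm

theorem T_rec {y : ℕ → ℝ} (hy : Function.Injective y) (N m : ℕ) :
    T y (N + 1) (m + 1) = T y N m + y N * T y (N + 1) m := by
  have h : T y (N + 1) (m + 1) - y N * T y (N + 1) m = T y N m := by
    unfold T
    rw [Finset.mul_sum, ← Finset.sum_sub_distrib, Finset.sum_range_succ]
    have h0 : y N ^ (m + 1) / ∏ l ∈ (range (N + 1)).erase N, (y N - y l) -
        y N * (y N ^ m / ∏ l ∈ (range (N + 1)).erase N, (y N - y l)) = 0 := by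
      rw [pow_succ]; ring
    rw [h0, add_zero]
    refine Finset.sum_congr rfl fun k hk => ?_
    have hkN : k < N := Finset.mem_range.1 hk
    have h1 : (range (N + 1)).erase k = insert N ((range N).erase k) := by
      ext l
      simp only [Finset.mem_erase, Finset.mem_range, Finset.mem_insert]
      omega
    have h2 : y k - y N ≠ 0 := sub_ne_zero.2 fun h => by
      have := hy h
      omega
    have h3 := prod_ne hy N k
    rw [h1, Finset.prod_insert (by simp)]
    field_simp
    ring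
  rw [← h]; ring

theorem T_one {y : ℕ → ℝ} (hy : Function.Injective y) (N : ℕ) : T y (N + 1) N = 1 := by
  have h1 := Lagrange.coeff_eq_sum (s := range (N + 1)) (v := y) (P := (X : ℝ[X]) ^ N)
    hy.injOn (by
      rw [Polynomial.degree_X_pow, Finset.card_range]
      exact_mod_cast Nat.lt_succ_self N)
  rw [Finset.card_range, Nat.add_sub_cancel, Polynomial.coeff_X_pow, if_pos rfl] at h1
  unfold T
  rw [h1]
  refine Finset.sum_congr rfl fun k _ => ?_
  rw [Polynomial.eval_pow, Polynomial.eval_X]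

theorem T_bound {y : ℕ → ℝ} (hy : Function.Injective y) (hb : ∀ k, |y k| ≤ (1 / 2) ^ (k + 1)) :
    ∀ N j : ℕ, |T y (N + 1) (N + j)| ≤ 20 * (1 - 3 / 2 * (1 / 2) ^ (N + 1)) * (2 / 3) ^ j := by
  intro N
  induction N with
  | zero =>
    intro j
    have h1 : T y (0 + 1) (0 + j) = y 0 ^ j := by
      unfold T
      simp
    rw [h1, abs_pow]
    have h2 : |y 0| ^ j ≤ (2 / 3) ^ j := by
      refine pow_le_pow_left₀ (abs_nonneg _) (le_trans (hb 0) (by norm_num)) j
    have h3 : (0 : ℝ) < (2 / 3) ^ j := by positivity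
    norm_num
    linarith
  | succ N ih =>
    intro j
    have he : (0 : ℝ) < (1 / 2) ^ (N + 1) := by positivity
    have he1 : ((1 : ℝ) / 2) ^ (N + 1) ≤ 1 / 2 := by
      calc ((1 : ℝ) / 2) ^ (N + 1) ≤ (1 / 2) ^ 1 :=
            pow_le_pow_of_le_one (by norm_num) (by norm_num) (by omega)
        _ = 1 / 2 := by norm_num
    have hs : ((1 : ℝ) / 2) ^ (N + 1 + 1) = (1 / 2) ^ (N + 1) / 2 := by rw [pow_succ]; ring
    induction j with
    | zero =>
      rw [add_zero, T_one hy, abs_one, pow_zero, mul_one, hs]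
      linarith
    | succ j ihj =>
      have h1 : T y (N + 1 + 1) (N + 1 + (j + 1)) =
          T y (N + 1) (N + (j + 1)) + y (N + 1) * T y (N + 1 + 1) (N + 1 + j) := by
        have h2 := T_rec hy (N + 1) (N + 1 + j)
        rw [show N + 1 + (j + 1) = N + 1 + j + 1 by ring, h2,
          show N + 1 + j = N + (j + 1) by ring]
      rw [h1]
      have h3 : |y (N + 1) * T y (N + 1 + 1) (N + 1 + j)| ≤
          (1 / 2) ^ (N + 1 + 1) * (20 * (1 - 3 / 2 * (1 / 2) ^ (N + 1 + 1)) * (2 / 3) ^ j) := by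
        rw [abs_mul]
        exact mul_le_mul (hb (N + 1)) ihj (abs_nonneg _) (by positivity)
      refine le_trans (abs_add_le _ _) (le_trans (add_le_add (ih (j + 1)) h3) ?_)
      rw [hs, pow_succ ((2 : ℝ) / 3) j]
      generalize ((1 : ℝ) / 2) ^ (N + 1) = e at *
      have hz : (0 : ℝ) < (2 / 3) ^ j := by positivity
      generalize ((2 : ℝ) / 3) ^ j = z at *
      have h4 : (1 - 3 / 2 * e) * (2 / 3) + e / 2 * (1 - 3 / 2 * (e / 2)) ≤
          (1 - 3 / 2 * (e / 2)) * (2 / 3) := by nlinarith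
      have h5 := mul_le_mul_of_nonneg_left h4 (by positivity : 0 ≤ 20 * z)
      linarith

theorem y_inj {p : ℝ} (hp : 2 ≤ |p|) : Function.Injective fun k : ℕ => (p ^ (k + 1))⁻¹ := by
  intro k l h
  have h1 : p ^ (k + 1) = p ^ (l + 1) := inv_injective h
  have h2 : |p| ^ (k + 1) = |p| ^ (l + 1) := by rw [← abs_pow, ← abs_pow, h1]
  have h3 := (pow_right_injective₀ (by linarith : (0:ℝ) < |p|) (by linarith : |p| ≠ 1)) h2
  omega

theorem y_bound {p : ℝ} (hp : 2 ≤ |p|) (k : ℕ) : |(p ^ (k + 1))⁻¹| ≤ (1 / 2) ^ (k + 1) := by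
  rw [abs_inv, abs_pow, one_div, inv_pow]
  exact inv_anti₀ (by positivity) (pow_le_pow_left₀ (by norm_num) hp _)

theorem w_eq (p : ℝ) (N : ℕ) : |∏ l ∈ range N, (p ^ (l + 1))⁻¹| = ww p N := by
  unfold ww
  rw [Finset.prod_inv_distrib, abs_inv, Finset.abs_prod]
  congr 1
  have h1 : ∏ l ∈ range N, |p ^ (l + 1)| = |p| ^ (∑ l ∈ range N, (l + 1)) := by
    rw [← Finset.prod_pow_eq_pow_sum]
    exact Finset.prod_congr rfl fun l _ => abs_pow _ _
  rw [h1]
  congr 1
  have h2 : ∑ l ∈ range N, (l + 1) = ∑ l ∈ range (N + 1), l := by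
    rw [Finset.sum_range_succ' (fun l => l) N, add_zero]
  rw [h2, Finset.sum_range_id, Nat.add_sub_cancel, mul_comm]

end P_DIV

open P_DIV in
theorem t_DIV : S_DIV := by
  intro p hp N hN
  have hp0 : p ≠ 0 := by
    intro h
    rw [h, abs_zero] at hp
    norm_num at hp
  have hxinj : Function.Injective fun k : ℕ => p ^ (k + 1) := by
    intro k l h
    exact y_inj hp (congrArg Inv.inv h)
  constructor
  · intro f hf
    have hdeg : f.degree < ((range N).card : WithBot ℕ) := by
      rw [Finset.card_range]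
      refine lt_of_le_of_lt Polynomial.degree_le_natDegree ?_
      exact_mod_cast (by omega : f.natDegree < N)
    have h1 := Lagrange.coeff_eq_sum (s := range N) (v := fun k : ℕ => p ^ (k + 1)) (P := f)
      hxinj.injOn hdeg
    rw [Finset.card_range, Polynomial.coeff_eq_zero_of_natDegree_lt (by omega)] at h1
    have h2 : ∀ k ∈ range N, f.eval (p ^ (k + 1)) / pik p N k = (-1) ^ (N - 1) *
        (f.eval (p ^ (k + 1)) / ∏ j ∈ (range N).erase k, (p ^ (k + 1) - p ^ (j + 1))) := by
      intro k hk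
      have h3 : pik p N k = (-1) ^ (N - 1) *
          ∏ j ∈ (range N).erase k, (p ^ (k + 1) - p ^ (j + 1)) := by
        unfold pik
        have h4 : ((range N).erase k).card = N - 1 := by
          rw [Finset.card_erase_of_mem hk, Finset.card_range]
        rw [← h4, ← Finset.prod_const, ← Finset.prod_mul_distrib]
        exact Finset.prod_congr rfl fun l _ => by ring
      rw [h3]
      have h5 : ((-1 : ℝ) ^ (N - 1)) * (-1) ^ (N - 1) = 1 := by
        rw [← mul_pow]; norm_num
      have h7 : ((-1 : ℝ) ^ (N - 1))⁻¹ = (-1) ^ (N - 1) := inv_eq_of_mul_eq_one_left h5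
      rw [div_mul_eq_div_div, div_eq_mul_inv _ ((-1 : ℝ) ^ (N - 1)), h7]
      ring
    rw [Finset.sum_congr rfl h2, ← Finset.mul_sum, ← h1, mul_zero]
  · intro f hf
    obtain ⟨g, rfl⟩ : ∃ g, f = g + 1 := ⟨f - 1, by omega⟩
    obtain ⟨M, rfl⟩ : ∃ M, N = M + 1 := ⟨N - 1, by omega⟩
    set y : ℕ → ℝ := fun k => (p ^ (k + 1))⁻¹ with hy
    have hinj : Function.Injective y := y_inj hp
    have hy0 : ∀ k, y k ≠ 0 := fun k => inv_ne_zero (pow_ne_zero _ hp0)
    have h1 : ∀ k ∈ range (M + 1), ((p ^ (k + 1)) ^ (g + 1))⁻¹ / pik p (M + 1) k =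
        (∏ l ∈ range (M + 1), y l) *
          (y k ^ (M + g) / ∏ l ∈ (range (M + 1)).erase k, (y k - y l)) := by
      intro k hk
      have h3 : pik p (M + 1) k * (y k ^ M * ∏ l ∈ (range (M + 1)).erase k, y l) =
          ∏ l ∈ (range (M + 1)).erase k, (y k - y l) := by
        unfold pik
        have h4 : ((range (M + 1)).erase k).card = M := by
          rw [Finset.card_erase_of_mem hk, Finset.card_range]; omega
        have h5 : y k ^ M = ∏ l ∈ (range (M + 1)).erase k, y k := by
          rw [Finset.prod_const, h4]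
        rw [h5, ← Finset.prod_mul_distrib, ← Finset.prod_mul_distrib]
        refine Finset.prod_congr rfl fun l _ => ?_
        have a1 : p ^ (l + 1) = (y l)⁻¹ := by rw [hy]; simp
        have a2 : p ^ (k + 1) = (y k)⁻¹ := by rw [hy]; simp
        rw [a1, a2]
        have := hy0 l
        have := hy0 k
        field_simp
      have h6 : ∏ l ∈ range (M + 1), y l = y k * ∏ l ∈ (range (M + 1)).erase k, y l :=
        (Finset.mul_prod_erase _ _ hk).symm
      have h7 : ∏ l ∈ (range (M + 1)).erase k, (y k - y l) ≠ 0 := prod_ne hinj _ _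
      have h8 : pik p (M + 1) k ≠ 0 := by
        intro h
        rw [h, zero_mul] at h3
        exact h7 h3.symm
      have h9 : ((p ^ (k + 1)) ^ (g + 1))⁻¹ = y k ^ (g + 1) := by rw [hy, inv_pow]
      have h10 : ∏ l ∈ (range (M + 1)).erase k, y l ≠ 0 :=
        Finset.prod_ne_zero_iff.2 fun l _ => hy0 l
      rw [h9, h6, ← h3]
      have := hy0 k
      field_simp
      ring
    rw [Finset.sum_congr rfl h1, ← Finset.mul_sum, abs_mul, w_eq]
    have h2 : |∑ k ∈ range (M + 1), y k ^ (M + g) / ∏ l ∈ (range (M + 1)).erase k, (y k - y l)| ≤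
        20 * (1 - 3 / 2 * (1 / 2) ^ (M + 1)) * (2 / 3) ^ g := T_bound hinj (y_bound hp) M g
    rw [Nat.add_sub_cancel]
    have h4 : (0 : ℝ) < (1 / 2) ^ (M + 1) := by positivity
    have h5 : 20 * (1 - 3 / 2 * (1 / 2) ^ (M + 1)) * (2 / 3) ^ g ≤ 20 * (2 / 3 : ℝ) ^ g := by
      have : (0 : ℝ) < (2 / 3) ^ g := by positivity
      nlinarith
    have h6 : 0 ≤ ww p (M + 1) := by unfold ww; positivity
    calc ww p (M + 1) * |∑ k ∈ range (M + 1), y k ^ (M + g) /
          ∏ l ∈ (range (M + 1)).erase k, (y k - y l)| ≤ ww p (M + 1) * (20 * (2 / 3 : ℝ) ^ g) :=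
        mul_le_mul_of_nonneg_left (h2.trans h5) h6
      _ = 20 * (2 / 3) ^ g * ww p (M + 1) := by ring

end Pool.Agent.H410.FC
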