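import Pool.Agent.H410.FC.Stm

/-!
Proof of `S_DIVC` (column denominators: `1 + x p^m` divides `Δ_J(α)`), helper183.
-/

namespace Pool.Agent.H410.FC.P_DIVC

open Finset Polynomial

variable {a ε : ℤ}

theorem eta_cases (h : OK a ε) (d : ℕ) : eta ε d = 1 ∨ eta ε d = -1 := by
  unfold eta
  rcases eps_cases h with h | h <;> subst h
  · push_cast
    exact neg_one_pow_eq_or ℝ _
  · left
    simp

/-- The product of the remaining factors. -/
noncomputable def RR (ε : ℤ) (y : ℝ) (J e : ℕ) : ℝ :=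
  (∏ d ∈ ((Icc 1 (2 * J + 1)).filter (fun d => d % 2 = 1)).filter
      (fun d => ¬ (d ∣ e ∧ eta ε d = eta ε e)),
    (cyclotomic d ℝ).eval (eta ε d * y)) *
  ∏ d ∈ ((Icc 1 ((2 * J + 1) / 3)).filter (fun d => d % 2 = 1)).filter
      (fun d => ¬ (d ∣ e ∧ ¬ eta ε d = eta ε e)),
    (cyclotomic d ℝ).eval (-(eta ε d * y))

theorem odd_dvd {m d : ℕ} (h : d ∣ 2 * m + 1) : d % 2 = 1 := by
  obtain ⟨c, hc⟩ := h
  by_contra hd
  have h2 : d % 2 = 0 := by omega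
  have : (d * c) % 2 = 0 := by rw [Nat.mul_mod, h2]; simp
  omega

theorem idx1 (J m : ℕ) (hm : m ≤ J) :
    ((Icc 1 (2 * J + 1)).filter (fun d => d % 2 = 1)).filter
      (fun d => d ∣ 2 * m + 1 ∧ eta ε d = eta ε (2 * m + 1)) =
    (Nat.divisors (2 * m + 1)).filter (fun d => eta ε d = eta ε (2 * m + 1)) := by
  ext d
  simp only [mem_filter, mem_Icc, Nat.mem_divisors]
  constructor
  · rintro ⟨_, h1, h2⟩
    exact ⟨⟨h1, by omega⟩, h2⟩
  · rintro ⟨⟨h1, _⟩, h2⟩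
    have hd := odd_dvd h1
    have hle := Nat.le_of_dvd (by omega) h1
    exact ⟨⟨⟨by omega, by omega⟩, hd⟩, h1, h2⟩

theorem idx2 (J m : ℕ) (hm : m ≤ J) :
    ((Icc 1 ((2 * J + 1) / 3)).filter (fun d => d % 2 = 1)).filter
      (fun d => d ∣ 2 * m + 1 ∧ ¬ eta ε d = eta ε (2 * m + 1)) =
    (Nat.divisors (2 * m + 1)).filter (fun d => ¬ eta ε d = eta ε (2 * m + 1)) := by
  ext d
  simp only [mem_filter, mem_Icc, Nat.mem_divisors]
  constructor
  · rintro ⟨_, h1, h2⟩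
    exact ⟨⟨h1, by omega⟩, h2⟩
  · rintro ⟨⟨h1, _⟩, h2⟩
    have hd := odd_dvd h1
    obtain ⟨c, hc⟩ := h1
    have hc' : c % 2 = 1 := odd_dvd (m := m) ⟨d, by rw [hc, mul_comm]⟩
    have hc3 : 3 ≤ c := by
      by_contra hlt
      have hc1 : c = 1 := by omega
      subst hc1
      rw [mul_one] at hc
      exact h2 (by rw [hc])
    have h3 : 3 * d ≤ 2 * m + 1 := by
      calc 3 * d ≤ c * d := Nat.mul_le_mul_right _ hc3
        _ = 2 * m + 1 := by rw [hc, mul_comm]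
    exact ⟨⟨⟨by omega, by omega⟩, hd⟩, ⟨c, hc⟩, h2⟩

theorem fact (h : OK a ε) (y : ℝ) (J m : ℕ) (hm : m ≤ J) :
    Dl ε y J = ((eta ε (2 * m + 1) * y) ^ (2 * m + 1) - 1) * RR ε y J (2 * m + 1) := by
  have h3 : (eta ε (2 * m + 1) * y) ^ (2 * m + 1) - 1 =
      ∏ d ∈ Nat.divisors (2 * m + 1), (cyclotomic d ℝ).eval (eta ε (2 * m + 1) * y) := by
    rw [← eval_prod, prod_cyclotomic_eq_X_pow_sub_one (by omega)]
    simp
  have h4 := prod_filter_mul_prod_filter_not (Nat.divisors (2 * m + 1))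
    (fun d => eta ε d = eta ε (2 * m + 1))
    (fun d => (cyclotomic d ℝ).eval (eta ε (2 * m + 1) * y))
  have h5 : ∏ d ∈ (Nat.divisors (2 * m + 1)).filter (fun d => eta ε d = eta ε (2 * m + 1)),
      (cyclotomic d ℝ).eval (eta ε (2 * m + 1) * y) =
      ∏ d ∈ (Nat.divisors (2 * m + 1)).filter (fun d => eta ε d = eta ε (2 * m + 1)),
      (cyclotomic d ℝ).eval (eta ε d * y) := by
    refine prod_congr rfl fun d hd => ?_
    rw [(mem_filter.mp hd).2]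
  have h6 : ∏ d ∈ (Nat.divisors (2 * m + 1)).filter (fun d => ¬ eta ε d = eta ε (2 * m + 1)),
      (cyclotomic d ℝ).eval (eta ε (2 * m + 1) * y) =
      ∏ d ∈ (Nat.divisors (2 * m + 1)).filter (fun d => ¬ eta ε d = eta ε (2 * m + 1)),
      (cyclotomic d ℝ).eval (-(eta ε d * y)) := by
    refine prod_congr rfl fun d hd => ?_
    have hne := (mem_filter.mp hd).2
    have e1 : eta ε (2 * m + 1) = - eta ε d := by
      rcases eta_cases h d with h1 | h1 <;> rcases eta_cases h (2 * m + 1) with h2 | h2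
      · exact absurd (h1.trans h2.symm) hne
      · rw [h1, h2]
      · rw [h1, h2]; norm_num
      · exact absurd (h1.trans h2.symm) hne
    rw [e1, neg_mul]
  have g1 := prod_filter_mul_prod_filter_not ((Icc 1 (2 * J + 1)).filter (fun d => d % 2 = 1))
    (fun d => d ∣ 2 * m + 1 ∧ eta ε d = eta ε (2 * m + 1))
    (fun d => (cyclotomic d ℝ).eval (eta ε d * y))
  have g2 := prod_filter_mul_prod_filter_not
    ((Icc 1 ((2 * J + 1) / 3)).filter (fun d => d % 2 = 1))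
    (fun d => d ∣ 2 * m + 1 ∧ ¬ eta ε d = eta ε (2 * m + 1))
    (fun d => (cyclotomic d ℝ).eval (-(eta ε d * y)))
  rw [idx1 J m hm] at g1
  rw [idx2 J m hm] at g2
  unfold Dl RR
  rw [← g1, ← g2, h3, ← h4, h5, h6]
  ring

theorem cj_eta (hCJ : S_CJ) (h : OK a ε) (d : ℕ) :
    Cj a ε (eta ε d * al a ε) (eta ε d * be a ε) := by
  obtain ⟨h1, _, h3, _, _, h6, _⟩ := hCJ a ε h
  have h7 := h1 (ε ^ ((d + 1) / 2))
  have e : ((ε ^ ((d + 1) / 2) : ℤ) : ℝ) = eta ε d := by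
    unfold eta
    push_cast
    rfl
  rw [e] at h7
  exact h3 _ _ _ _ h7 h6

theorem cj_cyc (hCJ : S_CJ) (h : OK a ε) (d : ℕ) (z z' : ℝ) (hz : Cj a ε z z') :
    Cj a ε ((cyclotomic d ℝ).eval z) ((cyclotomic d ℝ).eval z') := by
  obtain ⟨_, _, _, _, _, _, _, _, _, _, _, h12, _⟩ := hCJ a ε h
  have h7 := h12 (cyclotomic d ℤ) z z' hz
  have e : ∀ w : ℝ, aeval w (cyclotomic d ℤ) = (cyclotomic d ℝ).eval w := by
    intro w
    rw [← map_cyclotomic d (Int.castRingHom ℝ), eval_map, aeval_def]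
    rfl
  rw [e, e] at h7
  exact h7

theorem cj_RR (hCJ : S_CJ) (h : OK a ε) (J e : ℕ) :
    Cj a ε (RR ε (al a ε) J e) (RR ε (be a ε) J e) := by
  obtain ⟨_, _, h3, h4, _, _, _, _, _, h10, _, _, _⟩ := hCJ a ε h
  unfold RR
  refine h3 _ _ _ _ (h10 _ _ _ fun d _ => ?_) (h10 _ _ _ fun d _ => ?_)
  · exact cj_cyc hCJ h d _ _ (cj_eta hCJ h d)
  · exact cj_cyc hCJ h d _ _ (h4 _ _ (cj_eta hCJ h d))

theorem eta_pow (h : OK a ε) (m : ℕ) :
    eta ε (2 * m + 1) ^ (2 * m + 1) = eta ε (2 * m + 1) := by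
  rcases eta_cases h (2 * m + 1) with h1 | h1
  · rw [h1, one_pow]
  · rw [h1]
    exact Odd.neg_one_pow ⟨m, rfl⟩

theorem eta_eq (m : ℕ) : eta ε (2 * m + 1) = (ε : ℝ) ^ (m + 1) := by
  unfold eta
  congr 1
  omega

theorem den_al (h : OK a ε) (m : ℕ) :
    1 + x0 a ε * pp a ε ^ (m : ℤ) =
      -((eta ε (2 * m + 1) * al a ε) ^ (2 * m + 1) - 1) := by
  rw [mul_pow, eta_pow h, eta_eq, zpow_natCast]
  unfold x0 pp
  ring

theorem den_be (h : OK a ε) (m : ℕ) :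
    1 + x0 a ε * pp a ε ^ (-1 - (m : ℤ)) =
      -((eta ε (2 * m + 1) * be a ε) ^ (2 * m + 1) - 1) := by
  have e1 : pp a ε ^ (-1 - (m : ℤ)) = (ε * be a ε ^ 2) ^ (m + 1) := by
    rw [← pp_inv h, inv_pow, ← zpow_natCast, ← zpow_neg]
    congr 1
    push_cast
    ring
  rw [mul_pow, eta_pow h, eta_eq, e1]
  unfold x0
  have h1 := al_mul_be h
  have h2 := eps_mul h
  have e2 : -((ε : ℝ) * al a ε) * (ε * be a ε ^ 2) ^ (m + 1) =
      -(ε * (al a ε * be a ε)) * ε ^ (m + 1) * be a ε ^ (2 * m + 1) := by ring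
  rw [e2, h1, h2]
  ring

theorem eta_abs (h : OK a ε) (d : ℕ) : |eta ε d| = 1 := by
  rcases eta_cases h d with h1 | h1 <;> rw [h1] <;> norm_num

theorem ne_al (h : OK a ε) (m : ℕ) :
    (eta ε (2 * m + 1) * al a ε) ^ (2 * m + 1) - 1 ≠ 0 := by
  intro h0
  have h1 : (eta ε (2 * m + 1) * al a ε) ^ (2 * m + 1) = 1 := by linarith
  have h2 : |(eta ε (2 * m + 1) * al a ε) ^ (2 * m + 1)| = 1 := by rw [h1, abs_one]
  rw [abs_pow, abs_mul, eta_abs h, one_mul, abs_al h] at h2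
  have h3 : 1 < al a ε ^ (2 * m + 1) := one_lt_pow₀ (by linarith [al_ge h]) (by omega)
  linarith

theorem ne_be (h : OK a ε) (m : ℕ) :
    (eta ε (2 * m + 1) * be a ε) ^ (2 * m + 1) - 1 ≠ 0 := by
  intro h0
  have h1 : (eta ε (2 * m + 1) * be a ε) ^ (2 * m + 1) = 1 := by linarith
  have h2 : |(eta ε (2 * m + 1) * be a ε) ^ (2 * m + 1)| = 1 := by rw [h1, abs_one]
  rw [abs_pow, abs_mul, eta_abs h, one_mul] at h2
  have h3 : |be a ε| ^ (2 * m + 1) < 1 :=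
    pow_lt_one₀ (abs_nonneg _) (by linarith [abs_be_le h]) (by omega)
  linarith

theorem quo (P R : ℝ) (hP : P ≠ 0) : P * R / (-P) = -R := by
  rw [div_neg, mul_comm, mul_div_assoc, div_self hP, mul_one]

end Pool.Agent.H410.FC.P_DIVC

namespace Pool.Agent.H410.FC

open P_DIVC

theorem t_DIVC (hCJ : S_CJ) : S_DIVC := by
  intro a ε h J m hm
  rw [den_al h m, den_be h m, fact h (al a ε) J m hm, fact h (be a ε) J m hm,
    quo _ _ (ne_al h m), quo _ _ (ne_be h m)]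
  exact (hCJ a ε h).2.2.2.1 _ _ (cj_RR hCJ h J (2 * m + 1))

end Pool.Agent.H410.FC
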