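import Pool.Agent.H410.FC.Stm

/-!
FC, DIVR (helper199): row denominators, `U_l ∣ D_K` for `1 ≤ l ≤ K`.
-/

set_option autoImplicit false

namespace Pool.Agent.H410.FC.P_DIVR

open Finset Polynomial
open Pool.Agent.H410.FC

/-- the product of the cyclotomic values over the divisors `d ≥ 2` of `l` -/
noncomputable def PP (y : ℝ) (K l : ℕ) : ℝ :=
  ∏ d ∈ (Icc 2 K).filter (fun d => d ∣ l), (cyclotomic d ℝ).eval y

/-- the product over the other indices -/
noncomputable def RR (y : ℝ) (K l : ℕ) : ℝ :=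
  ∏ d ∈ (Icc 2 K).filter (fun d => ¬ d ∣ l), (cyclotomic d ℝ).eval y

theorem DK_eq (y : ℝ) (K l : ℕ) : DK y K = PP y K l * RR y K l := by
  unfold DK PP RR
  exact (Finset.prod_filter_mul_prod_filter_not _ _ _).symm

theorem PP_mul (y : ℝ) {K l : ℕ} (h1 : 1 ≤ l) (h2 : l ≤ K) : (y - 1) * PP y K l = y ^ l - 1 := by
  have e1 : (∏ i ∈ l.divisors, cyclotomic i ℝ).eval y = y ^ l - 1 := by
    rw [prod_cyclotomic_eq_X_pow_sub_one h1 ℝ]
    simp
  have e2 : l.divisors = insert 1 ((Icc 2 K).filter (fun d => d ∣ l)) := by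
    ext d
    simp only [Nat.mem_divisors, Finset.mem_insert, Finset.mem_filter, Finset.mem_Icc]
    constructor
    · rintro ⟨h3, h4⟩
      have h5 : 0 < d := Nat.pos_of_dvd_of_pos h3 h1
      have h6 : d ≤ l := Nat.le_of_dvd h1 h3
      by_cases h7 : d = 1
      · exact Or.inl h7
      · exact Or.inr ⟨⟨by omega, by omega⟩, h3⟩
    · rintro (h3 | h3)
      · subst h3
        exact ⟨one_dvd _, by omega⟩
      · exact ⟨h3.2, by omega⟩
  rw [e2, Finset.prod_insert, eval_mul, eval_prod, cyclotomic_one] at e1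
  · simp only [eval_sub, eval_X, eval_one] at e1
    exact e1
  · simp

end Pool.Agent.H410.FC.P_DIVR

namespace Pool.Agent.H410.FC

open Finset Polynomial

open P_DIVR in
theorem t_DIVR (hCJ : S_CJ) : S_DIVR := by
  intro a ε h K l hl1 hlK
  obtain ⟨hC, -, hmul, -, -, hal, hpp, -, -, hprod, -, haev, -⟩ := hCJ a ε h
  have hal0 : al a ε ≠ 0 := (al_pos h).ne'
  have hε0 : (ε : ℝ) ≠ 0 := by
    intro h0
    have := eps_mul h
    rw [h0] at this
    norm_num at this
  have hsD0 : sD a ε ≠ 0 := (sD_pos h).ne'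
  have hp0 := pp_ne h
  have hU0 : (U a ε l : ℝ) ≠ 0 := (U_pos h l hl1).ne'
  have hea : (ε : ℝ) * al a ε ≠ 0 := mul_ne_zero hε0 hal0
  obtain ⟨m, rfl⟩ : ∃ m, l = m + 1 := ⟨l - 1, by omega⟩
  have h1 : pp a ε - 1 = (ε * al a ε) * sD a ε := by
    have := pp_pow_sub h 1
    rw [pow_one, pow_one] at this
    rw [this]
    simp [U]
  have hl := pp_pow_sub h (m + 1)
  -- the value at `p`
  have v1 : PP (pp a ε) K (m + 1) = (ε * al a ε) ^ m * U a ε (m + 1) := by
    have e := PP_mul (pp a ε) hl1 hlK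
    rw [h1, hl] at e
    have e' : (ε * al a ε) * sD a ε * PP (pp a ε) K (m + 1) =
        (ε * al a ε) * sD a ε * ((ε * al a ε) ^ m * U a ε (m + 1)) := by
      rw [e]
      ring
    exact mul_left_cancel₀ (mul_ne_zero hea hsD0) e'
  -- the value at `1/p`
  have hdiv : (ε * al a ε) * (pp a ε)⁻¹ = ε * be a ε := by
    rw [pp_inv h]
    have e1 := eps_mul h
    have e2 := al_mul_be h
    calc (ε : ℝ) * al a ε * (ε * be a ε ^ 2) = (ε * ε) * ((al a ε * be a ε) * be a ε) := by ring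
      _ = ε * be a ε := by rw [e1, e2, one_mul]
  have v2 : PP (pp a ε)⁻¹ K (m + 1) = (ε * be a ε) ^ m * U a ε (m + 1) := by
    have e := PP_mul (pp a ε)⁻¹ hl1 hlK
    have e3 : (pp a ε)⁻¹ - 1 = -((ε * al a ε) * sD a ε * (pp a ε)⁻¹) := by
      rw [← h1]
      field_simp
      ring
    have e4 : (pp a ε)⁻¹ ^ (m + 1) - 1 =
        -((ε * al a ε) ^ (m + 1) * sD a ε * U a ε (m + 1) * (pp a ε)⁻¹ ^ (m + 1)) := by
      rw [← hl, inv_pow]
      field_simp
      ring
    rw [e3, e4] at e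
    have hk : (ε * al a ε) * sD a ε * (pp a ε)⁻¹ ≠ 0 :=
      mul_ne_zero (mul_ne_zero hea hsD0) (inv_ne_zero hp0)
    refine mul_left_cancel₀ hk ?_
    rw [← hdiv]
    have e5 := congrArg Neg.neg e
    rw [neg_mul, neg_neg, neg_neg] at e5
    rw [e5, mul_pow, pow_succ, pow_succ]
    ring
  have w1 : DK (pp a ε) K / U a ε (m + 1) = (ε * al a ε) ^ m * RR (pp a ε) K (m + 1) := by
    rw [DK_eq _ K (m + 1), v1]
    field_simp
  have w2 : DK (pp a ε)⁻¹ K / U a ε (m + 1) = (ε * be a ε) ^ m * RR (pp a ε)⁻¹ K (m + 1) := by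
    rw [DK_eq _ K (m + 1), v2]
    field_simp
  rw [w1, w2]
  refine hmul _ _ _ _ ?_ ?_
  · have e := haev (X ^ m) _ _ (hmul _ _ _ _ (hC ε) hal)
    simpa using e
  · refine hprod _ _ _ fun d _ => ?_
    have e := haev (cyclotomic d ℤ) _ _ hpp
    have e6 : ∀ y : ℝ, aeval y (cyclotomic d ℤ) = (cyclotomic d ℝ).eval y := by
      intro y
      rw [aeval_def, eval₂_eq_eval_map, map_cyclotomic]
    rwa [e6, e6] at e

end Pool.Agent.H410.FC
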