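import Pool.Agent.H410.FC.Stm

/-!
Bound for `D_K(p) D_K(p⁻¹)` (helper177)
-/

namespace Pool.Agent.H410.FC

open Finset Polynomial

/-- One factor. -/
theorem P_DKB.factor (hPHI : S_PHI) {a ε : ℤ} (h : OK a ε) (d : ℕ) (hd : 1 ≤ d) :
    |(Polynomial.cyclotomic d ℝ).eval (pp a ε)| * |(Polynomial.cyclotomic d ℝ).eval (pp a ε)⁻¹| ≤
      al a ε ^ (12 + 2 * Nat.totient d) := by
  have h1 := al_ge h
  have h0 : (0 : ℝ) < al a ε := al_pos h
  have h2 : (64 / 25 : ℝ) ≤ al a ε ^ 2 := by nlinarith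
  have h3 : |pp a ε| = al a ε ^ 2 := abs_pp h
  have h4 : |(pp a ε)⁻¹| ≤ 2 / 3 := by
    rw [abs_inv, h3]
    rw [inv_le_comm₀ (by linarith) (by norm_num)]
    linarith
  have h5 : (16 : ℝ) ≤ al a ε ^ 6 := by
    calc (16 : ℝ) ≤ (8 / 5) ^ 6 := by norm_num
      _ ≤ al a ε ^ 6 := pow_le_pow_left₀ (by norm_num) h1 6
  have h6 := (hPHI (pp a ε) d hd).1 (by rw [h3]; linarith)
  have h7 := (hPHI (pp a ε)⁻¹ d hd).2 h4
  have h8 : (0 : ℝ) ≤ |pp a ε| ^ Nat.totient d := by positivity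
  calc |(Polynomial.cyclotomic d ℝ).eval (pp a ε)| *
        |(Polynomial.cyclotomic d ℝ).eval (pp a ε)⁻¹|
      ≤ (16 * |pp a ε| ^ Nat.totient d) * 16 :=
        mul_le_mul h6 h7 (abs_nonneg _) (by positivity)
    _ ≤ (al a ε ^ 6 * |pp a ε| ^ Nat.totient d) * al a ε ^ 6 :=
        mul_le_mul (mul_le_mul_of_nonneg_right h5 h8) h5 (by norm_num) (by positivity)
    _ = al a ε ^ (12 + 2 * Nat.totient d) := by
        rw [h3, ← pow_mul, pow_add]
        ring

theorem t_DKB (hPHI : S_PHI) (hTOT : Pool.Agent.H475.QZ.S_TOT) : S_DKB := by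
  intro a ε h K
  have hal1 : 1 ≤ al a ε := by linarith [al_ge h]
  have h1 : |DK (pp a ε) K| * |DK (pp a ε)⁻¹ K| ≤
      al a ε ^ (12 * K + 2 * ∑ i ∈ Icc 1 K, Nat.totient i) := by
    unfold DK
    rw [Finset.abs_prod, Finset.abs_prod, ← Finset.prod_mul_distrib]
    calc ∏ d ∈ Icc 2 K, |(Polynomial.cyclotomic d ℝ).eval (pp a ε)| *
          |(Polynomial.cyclotomic d ℝ).eval (pp a ε)⁻¹|
        ≤ ∏ d ∈ Icc 2 K, al a ε ^ (12 + 2 * Nat.totient d) := by
          refine Finset.prod_le_prod (fun i _ => by positivity) fun i hi => ?_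
          exact P_DKB.factor hPHI h i (by have := (Finset.mem_Icc.1 hi).1; omega)
      _ = al a ε ^ (∑ d ∈ Icc 2 K, (12 + 2 * Nat.totient d)) := Finset.prod_pow_eq_pow_sum _ _ _
      _ ≤ al a ε ^ (12 * K + 2 * ∑ i ∈ Icc 1 K, Nat.totient i) := by
          refine pow_le_pow_right₀ hal1 ?_
          calc ∑ d ∈ Icc 2 K, (12 + 2 * Nat.totient d)
              ≤ ∑ d ∈ Icc 1 K, (12 + 2 * Nat.totient d) :=
                Finset.sum_le_sum_of_subset (Finset.Icc_subset_Icc_left (by norm_num))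
            _ = 12 * K + 2 * ∑ i ∈ Icc 1 K, Nat.totient i := by
                rw [Finset.sum_add_distrib, Finset.sum_const, Nat.card_Icc, Nat.add_sub_cancel,
                  ← Finset.mul_sum, smul_eq_mul]
                ring
  have h2 := hTOT K
  calc (|DK (pp a ε) K| * |DK (pp a ε)⁻¹ K|) ^ 25
      ≤ (al a ε ^ (12 * K + 2 * ∑ i ∈ Icc 1 K, Nat.totient i)) ^ 25 :=
        pow_le_pow_left₀ (by positivity) h1 25
    _ = al a ε ^ ((12 * K + 2 * ∑ i ∈ Icc 1 K, Nat.totient i) * 25) := by rw [← pow_mul]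
    _ ≤ al a ε ^ (300 * K + 16 * (K + 30) * (K + 60)) := by
        refine pow_le_pow_right₀ hal1 ?_
        calc (12 * K + 2 * ∑ i ∈ Icc 1 K, Nat.totient i) * 25
            = 300 * K + 2 * (25 * ∑ i ∈ Icc 1 K, Nat.totient i) := by ring
          _ ≤ 300 * K + 2 * (8 * (K + 30) * (K + 60)) := by omega
          _ = 300 * K + 16 * (K + 30) * (K + 60) := by ring

end Pool.Agent.H410.FC
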