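import Pool.Agent.H410.FC.Stm

namespace Pool.Agent.H410.FC

open Finset Polynomial

theorem t_DVD : S_DVD := by
  intro p a c t h1 h2
  have h : (Polynomial.X - Polynomial.C (xt p t)) ∣ EE p a :=
    Finset.dvd_prod_of_mem (fun s => Polynomial.X - Polynomial.C (xt p s)) (Finset.mem_Icc.2 ⟨h1, h2⟩)
  exact (pow_dvd_pow_of_dvd h 3).mul_right _

end Pool.Agent.H410.FC
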