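import Pool.Agent.H410.FC.Stm

/-!
The entries are conjugate pairs (statement `S_ENT`).
-/

namespace Pool.Agent.H410.FC

open Finset Polynomial

namespace P_ENT

theorem cyc_aeval (d : ℕ) (z : ℝ) : aeval z (cyclotomic d ℤ) = (cyclotomic d ℝ).eval z := by
  rw [aeval_def, eval₂_eq_eval_map, algebraMap_int_eq, map_cyclotomic_int]

section

variable {a ε : ℤ}

theorem cj_pow (hCJ : S_CJ) (h : OK a ε) {z z' : ℝ} (hz : Cj a ε z z') (n : ℕ) :
    Cj a ε (z ^ n) (z' ^ n) := by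
  obtain ⟨-, -, -, -, -, -, -, -, -, -, -, h12, -⟩ := hCJ a ε h
  have := h12 (X ^ n) z z' hz
  simpa using this

theorem cj_Dl (hCJ : S_CJ) (h : OK a ε) (J : ℕ) : Cj a ε (Dl ε (al a ε) J) (Dl ε (be a ε) J) := by
  obtain ⟨h1, -, h3, h4, -, h6, -, -, -, h10, -, h12, -⟩ := hCJ a ε h
  have heta : ∀ d : ℕ, Cj a ε (eta ε d * al a ε) (eta ε d * be a ε) := by
    intro d
    have e1 : eta ε d = ((ε ^ ((d + 1) / 2) : ℤ) : ℝ) := by
      unfold eta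
      push_cast
      rfl
    rw [e1]
    exact h3 _ _ _ _ (h1 _) h6
  unfold Dl
  refine h3 _ _ _ _ (h10 _ _ _ fun d _ => ?_) (h10 _ _ _ fun d _ => ?_)
  · rw [← cyc_aeval, ← cyc_aeval]
    exact h12 _ _ _ (heta d)
  · rw [← cyc_aeval, ← cyc_aeval]
    exact h12 _ _ _ (h4 _ _ (heta d))

theorem cj_DK (hDIVR : S_DIVR) (h : OK a ε) {K : ℕ} (hK : 1 ≤ K) :
    Cj a ε (DK (pp a ε) K) (DK (pp a ε)⁻¹ K) := by
  have h1 := hDIVR a ε h K 1 le_rfl hK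
  have e1 : (U a ε 1 : ℝ) = 1 := by simp [U]
  rwa [e1, div_one, div_one] at h1

/-- the pair of the values at `J = 0` -/
theorem base (hCF : S_CF) (hCJ : S_CJ) (hDIVR : S_DIVR) (h : OK a ε) {s v : ℤ}
    (hs : SS a ε * v = s) {K : ℕ} (hK : 1 ≤ K) :
    Cj a ε (v * sD a ε ^ 3 * DK (pp a ε) K ^ 3 * ac (pp a ε) (x0 a ε) K 0)
      (v * (-sD a ε) ^ 3 * DK (pp a ε)⁻¹ K ^ 3 *
        (-((pp a ε ^ K)⁻¹ * ac (pp a ε) (x0 a ε) K 0))) := by
  obtain ⟨h1, h2, h3, h4, h5, h6, h7, h8, h9, -, -, -, -⟩ := hCJ a ε h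
  have hD : sD a ε ≠ 0 := (sD_pos h).ne'
  have hp : pp a ε ≠ 0 := pp_ne h
  have e1 : v * sD a ε ^ 3 * DK (pp a ε) K ^ 3 * ac (pp a ε) (x0 a ε) K 0 =
      ((-2 : ℤ) : ℝ) * (((ε : ℤ) : ℝ) * al a ε) ^ K * (((s : ℤ) : ℝ) * DK (pp a ε) K ^ 3 +
        (-(((v : ℤ) : ℝ) * ∑ l ∈ Icc 1 K, (DK (pp a ε) K / U a ε l) ^ 3))) := by
    rw [hCF a ε h K hK, ← hs]
    have e2 : ∑ l ∈ Icc 1 K, (DK (pp a ε) K / U a ε l) ^ 3 =
        DK (pp a ε) K ^ 3 * ∑ l ∈ Icc 1 K, 1 / (U a ε l : ℝ) ^ 3 := by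
      rw [Finset.mul_sum]
      refine Finset.sum_congr rfl fun l _ => ?_
      rw [div_pow]
      ring
    rw [e2]
    push_cast
    field_simp
    ring
  have hb : (pp a ε ^ K)⁻¹ * (ε * al a ε) ^ K = (ε * be a ε) ^ K := by
    rw [← inv_pow, ← mul_pow, pp_inv h]
    congr 1
    have h8 := al_mul_be h
    have h9 := eps_mul h
    calc (ε : ℝ) * be a ε ^ 2 * (ε * al a ε) = (ε * ε) * (al a ε * be a ε) * be a ε := by ring
      _ = ε * be a ε := by rw [h8, h9, one_mul]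
  have e3 : v * (-sD a ε) ^ 3 * DK (pp a ε)⁻¹ K ^ 3 *
        (-((pp a ε ^ K)⁻¹ * ac (pp a ε) (x0 a ε) K 0)) =
      ((-2 : ℤ) : ℝ) * (((ε : ℤ) : ℝ) * be a ε) ^ K * (((s : ℤ) : ℝ) * DK (pp a ε)⁻¹ K ^ 3 +
        (-(((v : ℤ) : ℝ) * ∑ l ∈ Icc 1 K, (DK (pp a ε)⁻¹ K / U a ε l) ^ 3))) := by
    rw [hCF a ε h K hK, ← hs, ← hb]
    have e2 : ∑ l ∈ Icc 1 K, (DK (pp a ε)⁻¹ K / U a ε l) ^ 3 =
        DK (pp a ε)⁻¹ K ^ 3 * ∑ l ∈ Icc 1 K, 1 / (U a ε l : ℝ) ^ 3 := by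
      rw [Finset.mul_sum]
      refine Finset.sum_congr rfl fun l _ => ?_
      rw [div_pow]
      ring
    rw [e2]
    push_cast
    field_simp
    ring
  rw [e1, e3]
  have hDK := cj_DK hDIVR h hK
  have hab : Cj a ε (((ε : ℤ) : ℝ) * al a ε) (((ε : ℤ) : ℝ) * be a ε) := h3 _ _ _ _ (h1 ε) h6
  refine h3 _ _ _ _ (h3 _ _ _ _ (h1 _) (cj_pow hCJ h hab K)) (h2 _ _ _ _
    (h3 _ _ _ _ (h1 _) (cj_pow hCJ h hDK 3)) (h4 _ _ (h3 _ _ _ _ (h1 _) (h9 _ _ _ fun l hl => ?_))))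
  rw [Finset.mem_Icc] at hl
  exact cj_pow hCJ h (hDIVR a ε h K l hl.1 hl.2) 3

end

end P_ENT

open P_ENT in
theorem t_ENT (hCF : S_CF) (hREC : S_REC) (hCJ : S_CJ) (hDIVR : S_DIVR) (hDIVC : S_DIVC)
    (hDLS : S_DLS) : S_ENT := by
  intro a ε h s v _ hs K hK
  have h0 := base hCF hCJ hDIVR h hs hK
  have hDK := cj_DK hDIVR h hK
  have hpow := fun {z z' : ℝ} (hz : Cj a ε z z') (n : ℕ) => cj_pow hCJ h hz n
  have hDl := cj_Dl hCJ h
  have hR := fun J : ℤ => hREC (pp a ε) (x0 a ε) (Hpx_ok h) K hK J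
  obtain ⟨h1, h2, h3, h4, h5, h6, h7, h8, -, -, -, -, -⟩ := hCJ a ε h
  have hp : pp a ε ≠ 0 := pp_ne h
  have hc0 : cc (pp a ε) (x0 a ε) 0 = 0 := by simp [cc]
  have hc1 : cc (pp a ε) (x0 a ε) (-1) = 0 := by simp [cc]
  set α := al a ε with hα
  set β := be a ε with hβ
  set p := pp a ε with hpd
  set x := x0 a ε with hx
  set D := sD a ε with hD
  have hM : Cj a ε (v * D ^ 3 * DK p K ^ 3) (v * (-D) ^ 3 * DK p⁻¹ K ^ 3) :=
    h3 _ _ _ _ (h3 _ _ _ _ (h1 v) (hpow h8 3)) (hpow hDK 3)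
  set M : ℝ := v * D ^ 3 * DK p K ^ 3 with hMd
  set M' : ℝ := v * (-D) ^ 3 * DK p⁻¹ K ^ 3 with hMd'
  have hP : p ^ K ≠ 0 := pow_ne_zero _ hp
  have hpK : Cj a ε (p ^ K) (p ^ K)⁻¹ := by
    rw [← inv_pow]
    exact hpow h7 K
  have hpK' : Cj a ε (p ^ K)⁻¹ (p ^ K) := h5 _ _ hpK
  -- the values at `-1`, `-2`
  have r0 : ac p x K 0 = p ^ K * ac p x K (-1) := by
    have := hR (-1)
    rw [show (-1 : ℤ) + 1 = 0 from rfl, hc0, sub_zero] at this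
    exact this
  have r1 : ac p x K (-1) = p ^ K * ac p x K (-2) := by
    have := hR (-2)
    rw [show (-2 : ℤ) + 1 = -1 from rfl, hc1, sub_zero] at this
    exact this
  have g1 : ac p x K (-1) = (p ^ K)⁻¹ * ac p x K 0 := by
    rw [r0, inv_mul_cancel_left₀ hP]
  have g2 : p ^ K * ac p x K (-2) = (p ^ K)⁻¹ * ac p x K 0 := by rw [← r1, g1]
  have g3 : ac p x K (-2) = (p ^ K)⁻¹ * (p ^ K)⁻¹ * ac p x K 0 := by
    rw [mul_assoc, ← g2, inv_mul_cancel_left₀ hP]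
  -- the products `Δ c`
  have hc : ∀ j : ℕ, Cj a ε (Dl ε α (j + 1) * cc p x ((j : ℤ) + 1))
      (Dl ε β (j + 1) * cc p x (-2 - (j : ℤ))) := by
    intro j
    have k1 := hDIVC a ε h (j + 1) (j + 1) le_rfl
    have k2 := h3 _ _ _ _ (h1 (((j : ℤ) + 1) * (j + 2))) k1
    have k3 : ((((j : ℤ) + 1) * (j + 2) : ℤ) : ℝ) *
        (Dl ε (al a ε) (j + 1) / (1 + x0 a ε * pp a ε ^ ((j + 1 : ℕ) : ℤ))) =
        Dl ε α (j + 1) * cc p x ((j : ℤ) + 1) := by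
      rw [← hα, ← hx, ← hpd]
      unfold cc
      push_cast
      ring
    have k4 : ((((j : ℤ) + 1) * (j + 2) : ℤ) : ℝ) *
        (Dl ε (be a ε) (j + 1) / (1 + x0 a ε * pp a ε ^ (-1 - ((j + 1 : ℕ) : ℤ)))) =
        Dl ε β (j + 1) * cc p x (-2 - (j : ℤ)) := by
      rw [← hβ, ← hx, ← hpd]
      have e5 : (-1 - ((j + 1 : ℕ) : ℤ)) = -2 - (j : ℤ) := by
        push_cast
        ring
      rw [e5]
      unfold cc
      push_cast
      ring
    rw [k3, k4] at k2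
    exact k2
  have hq : ∀ j : ℕ, Cj a ε (Dl ε α (j + 1) / Dl ε α j) (Dl ε β (j + 1) / Dl ε β j) := fun j =>
    (hDLS a ε h j).2.2
  have hnα : ∀ j : ℕ, Dl ε α j ≠ 0 := fun j => (hDLS a ε h j).1
  have hnβ : ∀ j : ℕ, Dl ε β j ≠ 0 := fun j => (hDLS a ε h j).2.1
  -- the recursion downwards
  have rdn : ∀ j : ℕ, ac p x K (-2 - ((j : ℤ) + 1)) =
      (p ^ K)⁻¹ * (ac p x K (-2 - (j : ℤ)) + cc p x (-2 - (j : ℤ))) := by
    intro j
    have := hR (-2 - ((j : ℤ) + 1))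
    rw [show (-2 - ((j : ℤ) + 1)) + 1 = -2 - (j : ℤ) by ring] at this
    rw [this, sub_add_cancel, inv_mul_cancel_left₀ hP]
  have P1 : ∀ j : ℕ, Cj a ε (M * Dl ε α j * ac p x K (j : ℤ))
      (M' * Dl ε β j * (-(p ^ K * ac p x K (-2 - (j : ℤ))))) := by
    intro j
    induction j with
    | zero =>
      have k := h3 _ _ _ _ (hDl 0) h0
      have e1 : Dl ε α 0 * (M * ac p x K 0) = M * Dl ε α 0 * ac p x K ((0 : ℕ) : ℤ) := by
        rw [Nat.cast_zero]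
        ring
      have e2 : Dl ε β 0 * (M' * (-((p ^ K)⁻¹ * ac p x K 0))) =
          M' * Dl ε β 0 * (-(p ^ K * ac p x K (-2 - ((0 : ℕ) : ℤ)))) := by
        rw [Nat.cast_zero, sub_zero, g2]
        ring
      rw [← e1, ← e2]
      exact k
    | succ j ih =>
      have k := h2 _ _ _ _ (h3 _ _ _ _ (h3 _ _ _ _ (hq j) hpK) ih)
        (h4 _ _ (h3 _ _ _ _ hM (hc j)))
      have e1 : Dl ε α (j + 1) / Dl ε α j * p ^ K * (M * Dl ε α j * ac p x K (j : ℤ)) +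
          -(M * (Dl ε α (j + 1) * cc p x ((j : ℤ) + 1))) =
          M * Dl ε α (j + 1) * ac p x K ((j + 1 : ℕ) : ℤ) := by
        rw [Nat.cast_add, Nat.cast_one, hR (j : ℤ)]
        have := hnα j
        field_simp
        ring
      have e2 : Dl ε β (j + 1) / Dl ε β j * (p ^ K)⁻¹ *
          (M' * Dl ε β j * (-(p ^ K * ac p x K (-2 - (j : ℤ))))) +
          -(M' * (Dl ε β (j + 1) * cc p x (-2 - (j : ℤ)))) =
          M' * Dl ε β (j + 1) * (-(p ^ K * ac p x K (-2 - ((j + 1 : ℕ) : ℤ)))) := by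
        rw [Nat.cast_add, Nat.cast_one, rdn j]
        have := hnβ j
        field_simp
        ring
      rw [← e1, ← e2]
      exact k
  have P3 : ∀ j : ℕ, Cj a ε (M * Dl ε β j * ac p x K (-2 - (j : ℤ)))
      (M' * Dl ε α j * (-(p ^ K * ac p x K (j : ℤ)))) := by
    intro j
    induction j with
    | zero =>
      have k := h3 _ _ _ _ (h3 _ _ _ _ (h3 _ _ _ _ (h5 _ _ (hDl 0)) hpK') hpK') h0
      have e1 : Dl ε β 0 * (p ^ K)⁻¹ * (p ^ K)⁻¹ * (M * ac p x K 0) =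
          M * Dl ε β 0 * ac p x K (-2 - ((0 : ℕ) : ℤ)) := by
        rw [Nat.cast_zero, sub_zero, g3]
        ring
      have e2 : Dl ε α 0 * p ^ K * p ^ K * (M' * (-((p ^ K)⁻¹ * ac p x K 0))) =
          M' * Dl ε α 0 * (-(p ^ K * ac p x K ((0 : ℕ) : ℤ))) := by
        rw [Nat.cast_zero]
        field_simp
      rw [← e1, ← e2]
      exact k
    | succ j ih =>
      have k := h3 _ _ _ _ hpK' (h2 _ _ _ _ (h3 _ _ _ _ (h5 _ _ (hq j)) ih)
        (h3 _ _ _ _ hM (h5 _ _ (hc j))))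
      have e1 : (p ^ K)⁻¹ * (Dl ε β (j + 1) / Dl ε β j *
          (M * Dl ε β j * ac p x K (-2 - (j : ℤ))) +
          M * (Dl ε β (j + 1) * cc p x (-2 - (j : ℤ)))) =
          M * Dl ε β (j + 1) * ac p x K (-2 - ((j + 1 : ℕ) : ℤ)) := by
        rw [Nat.cast_add, Nat.cast_one, rdn j]
        have := hnβ j
        field_simp
      have e2 : p ^ K * (Dl ε α (j + 1) / Dl ε α j *
          (M' * Dl ε α j * (-(p ^ K * ac p x K (j : ℤ)))) +
          M' * (Dl ε α (j + 1) * cc p x ((j : ℤ) + 1))) =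
          M' * Dl ε α (j + 1) * (-(p ^ K * ac p x K ((j + 1 : ℕ) : ℤ))) := by
        rw [Nat.cast_add, Nat.cast_one, hR (j : ℤ)]
        have := hnα j
        field_simp
        ring
      rw [← e1, ← e2]
      exact k
  intro J
  match J with
  | Int.ofNat j => exact P1 j
  | Int.negSucc 0 =>
    have k := h3 _ _ _ _ hpK' h0
    have e1 : (p ^ K)⁻¹ * (M * ac p x K 0) = M * Dc ε α β (Int.negSucc 0) *
        ac p x K (Int.negSucc 0) := by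
      have e3 : ac p x K (Int.negSucc 0) = (p ^ K)⁻¹ * ac p x K 0 := g1
      have e4 : Dc ε α β (Int.negSucc 0) = 1 := rfl
      rw [e3, e4]
      ring
    have e2 : p ^ K * (M' * (-((p ^ K)⁻¹ * ac p x K 0))) = M' * Dc ε β α (Int.negSucc 0) *
        (-(p ^ K * ac p x K (-2 - Int.negSucc 0))) := by
      have e3 : ac p x K (-2 - Int.negSucc 0) = (p ^ K)⁻¹ * ac p x K 0 := g1
      have e4 : Dc ε β α (Int.negSucc 0) = 1 := rfl
      rw [e3, e4]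
      ring
    rw [← e1, ← e2]
    exact k
  | Int.negSucc (j + 1) =>
    have k := P3 j
    have e0 : Int.negSucc (j + 1) = -2 - (j : ℤ) := by
      rw [Int.negSucc_eq]
      push_cast
      ring
    have e1 : ac p x K (Int.negSucc (j + 1)) = ac p x K (-2 - (j : ℤ)) := by rw [e0]
    have e2 : ac p x K (-2 - Int.negSucc (j + 1)) = ac p x K (j : ℤ) := by
      rw [e0]
      congr 1
      ring
    have e3 : Dc ε α β (Int.negSucc (j + 1)) = Dl ε β j := rfl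
    have e4 : Dc ε β α (Int.negSucc (j + 1)) = Dl ε α j := rfl
    rw [e1, e2, e3, e4]
    exact k

end Pool.Agent.H410.FC
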