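import Pool.Agent.H410.FC.Stm

/-!
Proof of `S_EX2` (helper863): existence of the residue field for `ε = 1`.
-/

namespace Pool.Agent.H410.FC

namespace P_EX2

/-- Positivity of the Lucas sequence, `ε = 1`, `a ≥ 3` (`a ≥ 2` would be enough). -/
theorem U_incr (a : ℤ) (ha : 3 ≤ a) (n : ℕ) : 0 ≤ U a 1 n ∧ U a 1 n < U a 1 (n + 1) := by
  induction n with
  | zero => exact ⟨le_refl _, by simp [U]⟩
  | succ n ih =>
    obtain ⟨h0, h1⟩ := ih
    refine ⟨by linarith, ?_⟩
    have e : U a 1 (n + 1 + 1) = a * U a 1 (n + 1) - 1 * U a 1 n := rfl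
    rw [e]
    nlinarith

/-- Binet in a field. -/
theorem binet {F : Type} [Field F] (a : ℤ) (g g' : F) (hs : g + g' = (a : F))
    (hm : g * g' = 1) (n : ℕ) : (g - g') * (U a 1 n : F) = g ^ n - g' ^ n := by
  have hg : g ^ 2 = (a : F) * g - 1 := by rw [← hs, ← hm]; ring
  have hg' : g' ^ 2 = (a : F) * g' - 1 := by rw [← hs, ← hm]; ring
  induction n using Nat.strong_induction_on with
  | _ n ih =>
    match n with
    | 0 => simp [U]
    | 1 => simp [U]
    | (n + 2) =>
      have h0 := ih n (by omega)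
      have h1 := ih (n + 1) (by omega)
      have e : U a 1 (n + 2) = a * U a 1 (n + 1) - 1 * U a 1 n := rfl
      rw [e]
      push_cast
      calc (g - g') * ((a : F) * (U a 1 (n + 1) : F) - 1 * (U a 1 n : F))
          = (a : F) * ((g - g') * (U a 1 (n + 1) : F)) - (g - g') * (U a 1 n : F) := by ring
        _ = (a : F) * (g ^ (n + 1) - g' ^ (n + 1)) - (g ^ n - g' ^ n) := by rw [h0, h1]
        _ = g ^ n * ((a : F) * g - 1) - g' ^ n * ((a : F) * g' - 1) := by ring
        _ = g ^ (n + 2) - g' ^ (n + 2) := by rw [← hg, ← hg']; ring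

/-- `W_n` if `a = -2` in the field. -/
theorem W_neg {F : Type} [Field F] (a : ℤ) (h : (a : F) = -2) (n : ℕ) :
    ((U a 1 (n + 1) + U a 1 n : ℤ) : F) = (-1) ^ n := by
  induction n with
  | zero => simp [U]
  | succ n ih =>
    have e : U a 1 (n + 1 + 1) = a * U a 1 (n + 1) - 1 * U a 1 n := rfl
    rw [e]
    push_cast at ih ⊢
    rw [pow_succ, ← ih, h]
    ring

/-- `U_n` if `a = 2` in the field. -/
theorem U_two {F : Type} [Field F] (a : ℤ) (h : (a : F) = 2) (n : ℕ) :
    ((U a 1 n : ℤ) : F) = n ∧ ((U a 1 (n + 1) : ℤ) : F) = n + 1 := by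
  induction n with
  | zero => simp [U]
  | succ n ih =>
    obtain ⟨h0, h1⟩ := ih
    refine ⟨by rw [h1]; push_cast; ring, ?_⟩
    have e : U a 1 (n + 1 + 1) = a * U a 1 (n + 1) - 1 * U a 1 n := rfl
    rw [e]
    push_cast
    rw [h0, h1, h]
    ring

/-- a nonzero integer of absolute value less than the characteristic is not zero. -/
theorem cast_ne {F : Type} [Field F] (r : ℕ) [CharP F r] (z : ℤ) (h0 : z ≠ 0)
    (h1 : z.natAbs < r) : (z : F) ≠ 0 := by
  intro h
  rw [CharP.intCast_eq_zero_iff F r] at h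
  have h2 : r ∣ z.natAbs := Int.natCast_dvd.mp h
  have h3 := Nat.le_of_dvd (Int.natAbs_pos.mpr h0) h2
  omega

/-- The main step. -/
theorem main {F : Type} [Field F] [IsAlgClosed F] (a : ℤ) (ha : 3 ≤ a) (v : ℤ) (hv : v ≠ 0)
    (l m r : ℕ) [Fact r.Prime] [Fact l.Prime] [CharP F r]
    (hm : l = 2 * m + 1) (hl : a.natAbs + v.natAbs + 10 ≤ l)
    (hWF : ((U a 1 (m + 1) + U a 1 m : ℤ) : F) = 0) :
    ∃ g : F, Dat a 1 v m F g := by
  have hlp : l.Prime := Fact.out
  have hrp : r.Prime := Fact.out
  obtain ⟨W, hW⟩ : ∃ W : ℤ, W = U a 1 (m + 1) + U a 1 m := ⟨_, rfl⟩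
  rw [← hW] at hWF
  -- the root
  obtain ⟨g, hg⟩ : ∃ g : F, g ^ 2 = (a : F) * g - 1 := by
    have hd : (Polynomial.X ^ 2 - Polynomial.C (a : F) * Polynomial.X + 1 :
        Polynomial F).degree ≠ 0 := by
      have : (Polynomial.X ^ 2 - Polynomial.C (a : F) * Polynomial.X + 1 :
        Polynomial F).degree = 2 := by compute_degree!
      rw [this]
      norm_num
    obtain ⟨g, hg⟩ := IsAlgClosed.exists_root _ hd
    refine ⟨g, ?_⟩
    simp only [Polynomial.IsRoot, Polynomial.eval_add, Polynomial.eval_sub, Polynomial.eval_pow,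
      Polynomial.eval_X, Polynomial.eval_mul, Polynomial.eval_C, Polynomial.eval_one] at hg
    linear_combination hg
  have hg0 : g ≠ 0 := by
    intro h
    rw [h] at hg
    simp at hg
  set g' : F := (a : F) - g with hg'
  have hs : g + g' = (a : F) := by rw [hg']; ring
  have hmul : g * g' = 1 := by rw [hg']; linear_combination (-1 : F) * hg
  have hkey : (g + 1) * (g ^ l - 1) = 0 := by
    have b1 := binet a g g' hs hmul (m + 1)
    have b0 := binet a g g' hs hmul m
    have h1 : (g - g') * (W : F) = g ^ (m + 1) - g' ^ (m + 1) + (g ^ m - g' ^ m) := by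
      rw [← b1, ← b0, hW]; push_cast; ring
    rw [hWF, mul_zero] at h1
    have e1 : g ^ (m + 1) * g' ^ (m + 1) = 1 := by rw [← mul_pow, hmul, one_pow]
    have e0 : g ^ m * g' ^ m = 1 := by rw [← mul_pow, hmul, one_pow]
    have h2 : g ^ (m + 1) * (g ^ (m + 1) - g' ^ (m + 1) + (g ^ m - g' ^ m)) = 0 := by
      rw [← h1, mul_zero]
    have h3 : g ^ (m + 1) * (g ^ (m + 1) - g' ^ (m + 1) + (g ^ m - g' ^ m))
        = g ^ (m + 1) * g ^ (m + 1) - g ^ (m + 1) * g' ^ (m + 1)
          + g ^ (m + 1) * g ^ m - g * (g ^ m * g' ^ m) := by ring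
    rw [h3, e1, e0] at h2
    rw [hm]
    linear_combination h2
  have hgm1 : g + 1 ≠ 0 := by
    intro h
    have h1 : g = -1 := by linear_combination h
    have h2 : (a : F) = -2 := by
      rw [h1] at hg
      linear_combination hg
    have h3 := W_neg a h2 m
    rw [← hW, hWF] at h3
    exact (pow_ne_zero m (neg_ne_zero.mpr one_ne_zero)) h3.symm
  have hgl : g ^ l = 1 := by
    rcases mul_eq_zero.mp hkey with h | h
    · exact absurd h hgm1
    · linear_combination h
  have hg1 : g ≠ 1 := by
    intro h1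
    have h2 : (a : F) = 2 := by
      rw [h1] at hg
      linear_combination (-1 : F) * hg
    have h3 := U_two a h2 m
    have h4 : (l : F) = 0 := by
      have : ((W : ℤ) : F) = (m : F) + 1 + m := by
        rw [hW]; push_cast; rw [h3.1, h3.2]
      rw [hWF] at this
      rw [hm]
      push_cast
      linear_combination (-1 : F) * this
    rw [CharP.cast_eq_zero_iff F r] at h4
    have h5 : r = l := (Nat.prime_dvd_prime_iff_eq hrp hlp).mp h4
    have h6 : ((a - 2 : ℤ) : F) = 0 := by push_cast; rw [h2]; ring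
    rw [CharP.intCast_eq_zero_iff F r] at h6
    have h7 : r ∣ (a - 2).natAbs := Int.natCast_dvd.mp h6
    have h8 := Nat.le_of_dvd (by omega) h7
    omega
  have hord : orderOf g = l := orderOf_eq_prime hgl hg1
  -- the size of `r`
  have hfrob : g ^ r = g ∨ g ^ r = g' := by
    have h1 : (g ^ r) ^ 2 = (a : F) * g ^ r - 1 := by
      have h2 : (frobenius F r) (g ^ 2) = (frobenius F r) ((a : F) * g - 1) := by rw [hg]
      rw [map_sub, map_mul, map_one, map_pow, map_intCast] at h2
      simpa [frobenius_def] using h2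
    have h3 : (g ^ r - g) * (g ^ r - g') = 0 := by
      rw [hg']
      linear_combination h1 - hg
    rcases mul_eq_zero.mp h3 with h | h
    · left; linear_combination h
    · right; linear_combination h
  have hr2 : 2 ≤ r := hrp.two_le
  have hdiv : l ∣ r - 1 ∨ l ∣ r + 1 := by
    rcases hfrob with h | h
    · left
      rw [← hord]
      apply orderOf_dvd_of_pow_eq_one
      have : g ^ (r - 1) * g = 1 * g := by
        rw [← pow_succ, Nat.sub_add_cancel (by omega), h, one_mul]
      exact mul_right_cancel₀ hg0 this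
    · right
      rw [← hord]
      apply orderOf_dvd_of_pow_eq_one
      rw [pow_succ, h, mul_comm]
      exact hmul
  have hrbig : 2 * l ≤ r + 1 := by
    have h1 : l ≤ r + 1 := by
      rcases hdiv with h | h
      · have := Nat.le_of_dvd (by omega) h
        omega
      · exact Nat.le_of_dvd (by omega) h
    have hrodd : r % 2 = 1 := by
      rcases hrp.eq_two_or_odd with h | h
      · omega
      · exact h
    rcases hdiv with ⟨c, hc⟩ | ⟨c, hc⟩
    · rcases Nat.lt_or_ge c 2 with h | h
      · interval_cases c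
        · omega
        · omega
      · have : l * 2 ≤ l * c := Nat.mul_le_mul_left l h
        omega
    · rcases Nat.lt_or_ge c 2 with h | h
      · interval_cases c
        · omega
        · omega
      · have : l * 2 ≤ l * c := Nat.mul_le_mul_left l h
        omega
  refine ⟨g, ?_⟩
  have hgne : g ^ 2 ≠ 1 := by
    intro h
    have := orderOf_dvd_of_pow_eq_one h
    rw [hord] at this
    have := Nat.le_of_dvd (by omega) this
    omega
  refine ⟨by omega, ?_, ?_, ?_, ?_, ?_, ?_, ?_, ?_, ?_, ?_, ?_⟩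
  · rw [hg]; push_cast; ring
  · push_cast
    rw [one_mul, one_mul, ← pow_mul, ← pow_succ', ← hm, hgl]
  · intro k hk hk'
    push_cast
    rw [one_mul, ← pow_mul]
    intro h
    have h1 := orderOf_dvd_of_pow_eq_one h
    rw [hord] at h1
    have h2 : k < l := by
      simp only [Tt, if_true] at hk'
      omega
    rcases (Nat.Prime.dvd_mul hlp).mp h1 with h3 | h3
    · have := Nat.le_of_dvd (by omega) h3
      omega
    · have := Nat.le_of_dvd hk h3
      omega
  · exact cast_ne r v hv (by omega)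
  · have := cast_ne (F := F) r 2 (by norm_num) (by norm_num; omega)
    exact_mod_cast this
  · have := cast_ne (F := F) r 3 (by norm_num) (by norm_num; omega)
    exact_mod_cast this
  · intro h
    push_cast at h
    have h1 : (g - g') ^ 2 = 0 := by
      rw [hg']
      linear_combination h + 4 * hg
    have h2 : g - g' = 0 := pow_eq_zero_iff (two_ne_zero) |>.mp h1
    have h3 : g' = g := by linear_combination (-1 : F) * h2
    rw [h3] at hmul
    exact hgne (by rw [sq, hmul])
  · have := cast_ne (F := F) r (m : ℤ) (by omega) (by omega)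
    exact_mod_cast this
  · have := cast_ne (F := F) r ((m : ℤ) + 1) (by omega) (by omega)
    exact_mod_cast this
  · have := cast_ne (F := F) r (3 * (m : ℤ) + 1) (by omega) (by omega)
    exact_mod_cast this
  · have := cast_ne (F := F) r (3 * (m : ℤ) + 2) (by omega) (by omega)
    exact_mod_cast this

end P_EX2

open P_EX2 in
theorem t_EX2 : S_EX2 := by
  intro a ha v hv B
  obtain ⟨l, hl, hlp⟩ := Nat.exists_infinite_primes (a.natAbs + v.natAbs + 2 * B + 10)
  have hlodd : l % 2 = 1 := by
    rcases hlp.eq_two_or_odd with h | h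
    · omega
    · exact h
  obtain ⟨m, hm⟩ : ∃ m, l = 2 * m + 1 := ⟨l / 2, by omega⟩
  -- the prime factor
  obtain ⟨W, hW⟩ : ∃ W : ℤ, W = U a 1 (m + 1) + U a 1 m := ⟨_, rfl⟩
  have hWpos : 2 ≤ W.natAbs := by
    have h1 := U_incr a ha m
    obtain ⟨m', rfl⟩ : ∃ m', m = m' + 1 := ⟨m - 1, by omega⟩
    have h2 := U_incr a ha m'
    omega
  obtain ⟨r, hrp, hrW⟩ := Nat.exists_prime_and_dvd (n := W.natAbs) (by omega)
  have : Fact r.Prime := ⟨hrp⟩
  have : Fact l.Prime := ⟨hlp⟩
  have : CharP (AlgebraicClosure (ZMod r)) r :=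
    charP_of_injective_algebraMap (algebraMap (ZMod r) (AlgebraicClosure (ZMod r))).injective r
  have hWF : ((U a 1 (m + 1) + U a 1 m : ℤ) : AlgebraicClosure (ZMod r)) = 0 := by
    rw [← hW, CharP.intCast_eq_zero_iff (AlgebraicClosure (ZMod r)) r]
    exact Int.natCast_dvd.mpr hrW
  obtain ⟨g, hg⟩ := main (F := AlgebraicClosure (ZMod r)) a ha v hv l m r hm (by omega) hWF
  exact ⟨m, by omega, AlgebraicClosure (ZMod r), inferInstance, g, hg⟩

end Pool.Agent.H410.FC
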