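import Pool.Agent.H410.FC.Stm

/-!
The Fibonacci numbers `F_{k n}`.
-/

set_option autoImplicit false

namespace Pool.Agent.H410.FC

namespace P_FIB

/-- d'Ocagne's identity -/
theorem ocagne (m j : ℕ) :
    (Nat.fib (m + j) : ℤ) * Nat.fib (j + 1) - Nat.fib (m + j + 1) * Nat.fib j =
      (-1) ^ j * Nat.fib m := by
  induction j with
  | zero => simp
  | succ j ih =>
    have h1 : (Nat.fib (j + 1 + 1) : ℤ) = Nat.fib j + Nat.fib (j + 1) := by
      exact_mod_cast Nat.fib_add_two (n := j)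
    have h2 : (Nat.fib (m + (j + 1) + 1) : ℤ) = Nat.fib (m + j) + Nat.fib (m + j + 1) := by
      exact_mod_cast Nat.fib_add_two (n := m + j)
    have h3 : (Nat.fib (m + (j + 1)) : ℤ) = Nat.fib (m + j + 1) := rfl
    rw [h1, h2, h3, pow_succ]
    linear_combination (-1 : ℤ) * ih

theorem rec (m j : ℕ) :
    (Nat.fib (m + (j + 1) + (j + 1)) : ℤ) =
      ((Nat.fib j : ℤ) + Nat.fib (j + 2)) * Nat.fib (m + (j + 1)) -
        (-1) ^ (j + 1) * Nat.fib m := by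
  have h1 : (Nat.fib (m + j + (j + 1) + 1) : ℤ) =
      Nat.fib (m + j) * Nat.fib (j + 1) + Nat.fib (m + j + 1) * Nat.fib (j + 1 + 1) := by
    exact_mod_cast Nat.fib_add (m + j) (j + 1)
  have h2 : m + (j + 1) + (j + 1) = m + j + (j + 1) + 1 := by ring
  have h3 := ocagne m j
  have h4 : (Nat.fib (m + (j + 1)) : ℤ) = Nat.fib (m + j + 1) := rfl
  rw [h2, h1, h4, pow_succ]
  have h5 : (Nat.fib (j + 2) : ℤ) = Nat.fib (j + 1 + 1) := rfl
  rw [h5]
  linear_combination h3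

theorem fib_eq (j n : ℕ) :
    (Nat.fib ((j + 1) * n) : ℤ) =
      Nat.fib (j + 1) * U ((Nat.fib j : ℤ) + Nat.fib (j + 2)) ((-1) ^ (j + 1)) n := by
  induction n using Nat.strong_induction_on with
  | _ n ih =>
    match n with
    | 0 => simp [U]
    | 1 => simp [U]
    | (n + 2) =>
      have h1 := ih n (by omega)
      have h2 := ih (n + 1) (by omega)
      have h3 := rec ((j + 1) * n) j
      have h4 : (j + 1) * (n + 2) = (j + 1) * n + (j + 1) + (j + 1) := by ring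
      have h5 : (j + 1) * n + (j + 1) = (j + 1) * (n + 1) := by ring
      rw [h4, h3, h5, h2, h1]
      have h6 : U ((Nat.fib j : ℤ) + Nat.fib (j + 2)) ((-1) ^ (j + 1)) (n + 2) =
          ((Nat.fib j : ℤ) + Nat.fib (j + 2)) *
            U ((Nat.fib j : ℤ) + Nat.fib (j + 2)) ((-1) ^ (j + 1)) (n + 1) -
          (-1) ^ (j + 1) * U ((Nat.fib j : ℤ) + Nat.fib (j + 2)) ((-1) ^ (j + 1)) n := rfl
      rw [h6]
      ring

theorem ok (j : ℕ) : OK ((Nat.fib j : ℤ) + Nat.fib (j + 2)) ((-1) ^ (j + 1)) := by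
  rcases Nat.even_or_odd (j + 1) with h | h
  · right
    refine ⟨h.neg_one_pow, ?_⟩
    have hj : 1 ≤ j := by
      rcases h with ⟨r, hr⟩
      omega
    have h1 : Nat.fib 1 ≤ Nat.fib j := Nat.fib_mono hj
    have h2 : Nat.fib 3 ≤ Nat.fib (j + 2) := Nat.fib_mono (by omega)
    have h3 : Nat.fib 1 = 1 := rfl
    have h4 : Nat.fib 3 = 2 := rfl
    have h5 : 3 ≤ Nat.fib j + Nat.fib (j + 2) := by omega
    exact_mod_cast h5
  · left
    refine ⟨h.neg_one_pow, ?_⟩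
    have h2 : 0 < Nat.fib (j + 2) := Nat.fib_pos.2 (by omega)
    have h5 : 1 ≤ Nat.fib j + Nat.fib (j + 2) := by omega
    exact_mod_cast h5

end P_FIB

theorem t_FIB (hFIN : S_FIN) : S_FIB := by
  intro k hk
  obtain ⟨j, rfl⟩ : ∃ j, k = j + 1 := ⟨k - 1, by omega⟩
  have h1 := hFIN _ _ (P_FIB.ok j)
  have hf : Nat.fib (j + 1) ≠ 0 := (Nat.fib_pos.2 (by omega)).ne'
  have hfq : (1 / (Nat.fib (j + 1) : ℚ) ^ 3) ≠ 0 := by
    apply div_ne_zero one_ne_zero
    apply pow_ne_zero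
    exact_mod_cast hf
  have h2 := h1.ratCast_mul hfq
  have h3 : (∑' n : ℕ, 1 / (Nat.fib ((j + 1) * (n + 1)) : ℝ) ^ 3) =
      ((1 / (Nat.fib (j + 1) : ℚ) ^ 3 : ℚ) : ℝ) *
        SS ((Nat.fib j : ℤ) + Nat.fib (j + 2)) ((-1) ^ (j + 1)) := by
    unfold SS
    rw [← tsum_mul_left]
    refine tsum_congr fun n => ?_
    have h4 : (Nat.fib ((j + 1) * (n + 1)) : ℝ) = (Nat.fib (j + 1) : ℝ) *
        (U ((Nat.fib j : ℤ) + Nat.fib (j + 2)) ((-1) ^ (j + 1)) (n + 1) : ℝ) := by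
      exact_mod_cast P_FIB.fib_eq j (n + 1)
    rw [h4, mul_pow]
    push_cast
    rw [one_div_mul_one_div]
  rw [h3]
  exact h2

end Pool.Agent.H410.FC
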