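import Pool.Agent.H410.FC.Stm

/-!
Conclusion: the final inequality (statement `S_FIN`).
-/

namespace Pool.Agent.H410.FC

open Finset Polynomial

namespace P_FIN

theorem expo (n c C C' : ℕ) (hn : 1 ≤ n)
    (hB : 24300 * c + 2 * C + 48600 + 8100 * C' + 1 ≤ n)
    (h : 2 * (225 * ((3 * (2 * n + 1) ^ 3 + 2 * (n + 1) ^ 3) +
        (3 * (2 * n + 1) ^ 3 + 2 * (n - 1) ^ 3))) ≤
      c * (8100 * (2 * n + 1)) + 2 * (11648 * n ^ 3 + C * n ^ 2) +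
        2 * (4050 * ((2 * n + 1) * (n + 1))) +
        2 * (225 * (2 * (C' * (2 * n + 1) ^ 2)))) : False := by
  obtain ⟨m, rfl⟩ : ∃ m, n = m + 1 := ⟨n - 1, by omega⟩
  rw [Nat.add_sub_cancel] at h
  have h1 : 2 * (m + 1) + 1 ≤ 3 * (m + 1) ^ 2 := by nlinarith
  have h2 : (2 * (m + 1) + 1) * (m + 1 + 1) ≤ 6 * (m + 1) ^ 2 := by nlinarith
  have h3 : (2 * (m + 1) + 1) ^ 2 ≤ 9 * (m + 1) ^ 2 := by nlinarith
  have h4 : 52 * (m + 1) ^ 3 ≤ (3 * (2 * (m + 1) + 1) ^ 3 + 2 * (m + 1 + 1) ^ 3) +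
        (3 * (2 * (m + 1) + 1) ^ 3 + 2 * m ^ 3) := by nlinarith
  have h5 : c * (8100 * (2 * (m + 1) + 1)) ≤ 24300 * c * (m + 1) ^ 2 := by
    calc c * (8100 * (2 * (m + 1) + 1)) ≤ c * (8100 * (3 * (m + 1) ^ 2)) := by gcongr
      _ = _ := by ring
  have h6 : 2 * (4050 * ((2 * (m + 1) + 1) * (m + 1 + 1))) ≤ 48600 * (m + 1) ^ 2 := by
    calc 2 * (4050 * ((2 * (m + 1) + 1) * (m + 1 + 1))) ≤ 2 * (4050 * (6 * (m + 1) ^ 2)) := by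
          gcongr
      _ = _ := by ring
  have h7 : 2 * (225 * (2 * (C' * (2 * (m + 1) + 1) ^ 2))) ≤ 8100 * C' * (m + 1) ^ 2 := by
    calc 2 * (225 * (2 * (C' * (2 * (m + 1) + 1) ^ 2))) ≤
          2 * (225 * (2 * (C' * (9 * (m + 1) ^ 2)))) := by gcongr
      _ = _ := by ring
  have h8 : 104 * (m + 1) ^ 3 ≤ (24300 * c + 2 * C + 48600 + 8100 * C') * (m + 1) ^ 2 := by
    have h9 : 2 * (225 * (52 * (m + 1) ^ 3)) ≤ 24300 * c * (m + 1) ^ 2 +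
        2 * (11648 * (m + 1) ^ 3 + C * (m + 1) ^ 2) + 48600 * (m + 1) ^ 2 +
        8100 * C' * (m + 1) ^ 2 := by
      calc 2 * (225 * (52 * (m + 1) ^ 3)) ≤
          2 * (225 * ((3 * (2 * (m + 1) + 1) ^ 3 + 2 * (m + 1 + 1) ^ 3) +
            (3 * (2 * (m + 1) + 1) ^ 3 + 2 * m ^ 3))) := by gcongr
        _ ≤ _ := h
        _ ≤ _ := by gcongr
    nlinarith
  have h9 : (24300 * c + 2 * C + 48600 + 8100 * C') * (m + 1) ^ 2 ≤ m * (m + 1) ^ 2 :=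
    Nat.mul_le_mul_right _ (Nat.le_of_succ_le_succ hB)
  have h10 : m * (m + 1) ^ 2 < 104 * (m + 1) ^ 3 := by
    have : 0 < (m + 1) ^ 2 := by positivity
    nlinarith
  omega

end P_FIN

open P_FIN in
theorem t_FIN (hNV : S_NV) (hNRM : S_NRM) (hDDB : S_DDB) (hUP : S_UP) : S_FIN := by
  intro a ε hok hrat
  obtain ⟨z, hz⟩ := hrat
  have hv : (z.den : ℤ) ≠ 0 := by exact_mod_cast z.den_nz
  have hs : SS a ε * ((z.den : ℤ) : ℝ) = ((z.num : ℤ) : ℝ) := by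
    rw [← hz]
    have h1 : z * (z.den : ℚ) = (z.num : ℚ) := Rat.mul_den_eq_num z
    exact_mod_cast h1
  have hal1 : (1 : ℝ) < al a ε := by linarith [al_ge hok]
  have hal0 : (0 : ℝ) < al a ε := al_pos hok
  obtain ⟨C, hC⟩ := hDDB a ε hok
  obtain ⟨C', hC'⟩ := hUP (pp a ε) (x0 a ε) (Hpx_ok hok)
  obtain ⟨c, hc⟩ := pow_unbounded_of_one_lt (|((z.den : ℤ) : ℝ)| * sD a ε ^ 3) hal1
  obtain ⟨n, hn, hdet⟩ := hNV a ε hok z.num z.den hv hs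
    (24300 * c + 2 * C + 48600 + 8100 * C' + 1)
  have hn1 : 1 ≤ n := by omega
  have hnrm := hNRM a ε hok z.num z.den hv hs n hdet
  have hdd := hC n hn1
  have hup1 := hC' n (n + 1) (by omega)
  have hup2 := hC' (n + 2) (n - 1) (by omega)
  rw [show n + (n + 1) = 2 * n + 1 by ring] at hup1
  rw [show n + 2 + (n - 1) = 2 * n + 1 by omega] at hup2
  obtain ⟨d1, hd1⟩ : ∃ d, d = |(AM (pp a ε) (x0 a ε) (-(n : ℤ)) (2 * n + 1)).det| := ⟨_, rfl⟩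
  obtain ⟨d2, hd2⟩ : ∃ d, d = |(AM (pp a ε) (x0 a ε) (-((n + 2 : ℕ) : ℤ)) (2 * n + 1)).det| :=
    ⟨_, rfl⟩
  rw [← hd1] at hup1 hnrm
  rw [← hd2] at hup2 hnrm
  have hd1' : 0 ≤ d1 := by rw [hd1]; exact abs_nonneg _
  have hd2' : 0 ≤ d2 := by rw [hd2]; exact abs_nonneg _
  obtain ⟨D, hD⟩ : ∃ D, D = DD ε (pp a ε) (al a ε) (be a ε) n *
    DD ε (pp a ε)⁻¹ (be a ε) (al a ε) n := ⟨_, rfl⟩
  rw [← hD] at hdd hnrm
  have hD' : 0 ≤ D := by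
    rw [hD]
    unfold DD
    positivity
  obtain ⟨w, hw⟩ : ∃ w, w = |((z.den : ℤ) : ℝ)| * sD a ε ^ 3 := ⟨_, rfl⟩
  rw [← hw] at hnrm hc
  have hw0 : 0 ≤ w := by
    rw [hw]
    have := sD_pos hok
    positivity
  rw [abs_pp hok] at hnrm hup1 hup2
  clear hd1 hd2 hD hw hz hs
  obtain ⟨α, hα⟩ : ∃ α, α = al a ε := ⟨_, rfl⟩
  rw [← hα] at hal1 hal0 hc hnrm hdd hup1 hup2
  have hprod : (d1 * d2) ^ 18 * (α ^ 2) ^ ((3 * (2 * n + 1) ^ 3 + 2 * (n + 1) ^ 3) +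
        (3 * (2 * n + 1) ^ 3 + 2 * (n - 1) ^ 3)) ≤ (α ^ 2) ^ (2 * (C' * (2 * n + 1) ^ 2)) := by
    calc (d1 * d2) ^ 18 * (α ^ 2) ^ ((3 * (2 * n + 1) ^ 3 + 2 * (n + 1) ^ 3) +
        (3 * (2 * n + 1) ^ 3 + 2 * (n - 1) ^ 3)) =
        (d1 ^ 18 * (α ^ 2) ^ (3 * (2 * n + 1) ^ 3 + 2 * (n + 1) ^ 3)) *
          (d2 ^ 18 * (α ^ 2) ^ (3 * (2 * n + 1) ^ 3 + 2 * (n - 1) ^ 3)) := by
          rw [pow_add]; ring
      _ ≤ (α ^ 2) ^ (C' * (2 * n + 1) ^ 2) * (α ^ 2) ^ (C' * (2 * n + 1) ^ 2) := by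
          gcongr
      _ = _ := by rw [← pow_add]; congr 1; ring
  apply expo n c C C' hn1 (by omega)
  obtain ⟨E, hE⟩ : ∃ E, E = (3 * (2 * n + 1) ^ 3 + 2 * (n + 1) ^ 3) +
        (3 * (2 * n + 1) ^ 3 + 2 * (n - 1) ^ 3) := ⟨_, rfl⟩
  rw [← hE] at hprod ⊢
  rw [← pow_le_pow_iff_right₀ hal1]
  obtain ⟨X, hX⟩ : ∃ X, X = (w ^ (2 * (2 * n + 1)) * D * (α ^ 2) ^ ((2 * n + 1) * (n + 1)) *
    (d1 * d2)) ^ 4050 := ⟨_, rfl⟩
  have hX1 : 1 ≤ X := by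
    rw [hX]
    exact one_le_pow₀ hnrm
  calc α ^ (2 * (225 * E)) = 1 * ((α ^ 2) ^ E) ^ 225 := by
        rw [one_mul, ← pow_mul, ← pow_mul]
        congr 1; ring
    _ ≤ X * ((α ^ 2) ^ E) ^ 225 :=
        mul_le_mul_of_nonneg_right hX1 (by positivity)
    _ = (w ^ (2 * (2 * n + 1)) * D * (α ^ 2) ^ ((2 * n + 1) * (n + 1)) * (d1 * d2)) ^ 4050 *
        ((α ^ 2) ^ E) ^ 225 := by rw [hX]
    _ = w ^ (8100 * (2 * n + 1)) * (D ^ 2025) ^ 2 *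
        (α ^ 2) ^ (4050 * ((2 * n + 1) * (n + 1))) * ((d1 * d2) ^ 18 * (α ^ 2) ^ E) ^ 225 := by
        rw [mul_pow, mul_pow, mul_pow, mul_pow ((d1 * d2) ^ 18)]
        rw [← pow_mul, ← pow_mul D, ← pow_mul (α ^ 2), ← pow_mul (d1 * d2) 18]
        rw [show 2 * (2 * n + 1) * 4050 = 8100 * (2 * n + 1) by ring,
          show (2 * n + 1) * (n + 1) * 4050 = 4050 * ((2 * n + 1) * (n + 1)) by ring]
        norm_num
        ring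
    _ ≤ (α ^ c) ^ (8100 * (2 * n + 1)) * (α ^ (11648 * n ^ 3 + C * n ^ 2)) ^ 2 *
        (α ^ 2) ^ (4050 * ((2 * n + 1) * (n + 1))) *
        ((α ^ 2) ^ (2 * (C' * (2 * n + 1) ^ 2))) ^ 225 := by
        have e1 := pow_le_pow_left₀ hw0 hc.le (8100 * (2 * n + 1))
        have hD2 : 0 ≤ D ^ 2025 := pow_nonneg hD' _
        have e2 := pow_le_pow_left₀ hD2 hdd 2
        have e3 := pow_le_pow_left₀ (by positivity) hprod 225
        have hα0 := hal0.le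
        exact mul_le_mul (mul_le_mul_of_nonneg_right (mul_le_mul e1 e2 (pow_nonneg hD2 _)
          (pow_nonneg (pow_nonneg hα0 _) _)) (pow_nonneg (pow_nonneg hα0 _) _)) e3
          (pow_nonneg (mul_nonneg (pow_nonneg (mul_nonneg hd1' hd2') _)
            (pow_nonneg (pow_nonneg hα0 _) _)) _)
          (mul_nonneg (mul_nonneg (pow_nonneg (pow_nonneg hα0 _) _)
            (pow_nonneg (pow_nonneg hα0 _) _)) (pow_nonneg (pow_nonneg hα0 _) _))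
    _ = _ := by
        rw [← pow_mul, ← pow_mul, ← pow_mul, ← pow_mul, ← pow_mul, ← pow_add, ← pow_add,
          ← pow_add]
        exact congrArg (fun e => α ^ e) (by ring)

end Pool.Agent.H410.FC
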