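import Pool.Agent.H410.FC.Stm

/-! Task FC KB (helper390), adapted from `Pool/Agent/H475/QZ/P_KB.lean`. -/

namespace Pool.Agent.H410.FC

open Finset Polynomial
open Pool.Agent.H475.QZ (nu)

namespace P_KB

theorem abs_xt_le {p : ℝ} (hp : 2 ≤ |p|) (t : ℕ) : |xt p t| ≤ 1 := by
  unfold xt
  rw [abs_inv, abs_pow]
  exact inv_le_one_of_one_le₀ (one_le_pow₀ (by linarith))

theorem abs_wt_le {x : ℝ} (hx : 1 ≤ |x|) (t : ℕ) : |wt x t| ≤ 1 := by
  unfold wt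
  rw [abs_neg, abs_inv, abs_pow, abs_neg]
  exact inv_le_one_of_one_le₀ (one_le_pow₀ hx)

theorem abs_Dg_le (f : PowerSeries ℝ) : |Dg f| ≤ 2 * nu f := by
  unfold Dg nu
  have h0 := abs_nonneg (PowerSeries.coeff 0 f)
  have h1 := abs_nonneg (PowerSeries.coeff 1 f)
  have h2 := abs_add_le (2 * PowerSeries.coeff 2 f) (PowerSeries.coeff 1 f)
  rw [abs_mul, abs_two] at h2
  linarith

theorem nuF (hNU : Pool.Agent.H475.QZ.S_NU) (hNUX : S_NUX) (hNUE : S_NUE) {p : ℝ} (hp : 2 ≤ |p|)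
    {a c t : ℕ} (ha : a < t) (hc : c ≤ 2) :
    nu (Polynomial.aeval (XX p t) (FF p a c)) ≤ 13 ^ 3 * (7 / 2) ^ 2 * ea p a ^ 3 := by
  obtain ⟨n0, n1, nm, n2, np, npow, nC⟩ := hNU
  have e0 : (0 : ℝ) ≤ ea p a := by unfold ea; positivity
  have hF : Polynomial.aeval (XX p t) (FF p a c) =
      (Polynomial.aeval (XX p t) (EE p a)) ^ 3 *
        (XX p t - PowerSeries.C (xt p (a + 1))) ^ c := by
    unfold FF
    rw [map_mul, map_pow, map_pow, map_sub, Polynomial.aeval_X, Polynomial.aeval_C]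
    rfl
  have h1 : nu ((Polynomial.aeval (XX p t) (EE p a)) ^ 3) ≤ (13 * ea p a) ^ 3 :=
    (npow _ 3).trans (pow_le_pow_left₀ (n0 _) (hNUE p hp a t ha) 3)
  have h2 : nu (XX p t - PowerSeries.C (xt p (a + 1))) ≤ 7 / 2 := by
    refine ((hNUX p hp).1 (a + 1) t (by omega)).trans ?_
    have h5 : ((1 : ℝ) / 2) ^ (t - (a + 1)) ≤ 1 := pow_le_one₀ (by norm_num) (by norm_num)
    have h6 : (0 : ℝ) ≤ ((1 : ℝ) / 2) ^ (t - (a + 1)) := by positivity
    calc |xt p (a + 1)| * (1 + 5 / 2 * (1 / 2) ^ (t - (a + 1)))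
        ≤ 1 * (1 + 5 / 2 * (1 / 2) ^ (t - (a + 1))) :=
          mul_le_mul_of_nonneg_right (abs_xt_le hp _) (by positivity)
      _ ≤ 7 / 2 := by linarith
  have h3 : nu ((XX p t - PowerSeries.C (xt p (a + 1))) ^ c) ≤ (7 / 2) ^ 2 :=
    (npow _ c).trans ((pow_le_pow_left₀ (n0 _) h2 c).trans
      (pow_le_pow_right₀ (by norm_num) hc))
  rw [hF]
  calc nu ((Polynomial.aeval (XX p t) (EE p a)) ^ 3 *
        (XX p t - PowerSeries.C (xt p (a + 1))) ^ c)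
      ≤ nu ((Polynomial.aeval (XX p t) (EE p a)) ^ 3) *
        nu ((XX p t - PowerSeries.C (xt p (a + 1))) ^ c) := nm _ _
    _ ≤ (13 * ea p a) ^ 3 * (7 / 2) ^ 2 := mul_le_mul h1 h3 (n0 _) (by positivity)
    _ = _ := by ring

end P_KB

theorem t_KB (hNU : Pool.Agent.H475.QZ.S_NU) (hNUX : S_NUX) (hNUQ : S_NUQ) (hNUE : S_NUE) :
    S_KB := by
  intro p x hpx N t a a' c c' j ha ha' hc hc'
  obtain ⟨hp, hx, -⟩ := hpx
  have hNU' := hNU
  obtain ⟨n0, n1, nm, n2, np, npow, nC⟩ := hNU'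
  have e0 : (0 : ℝ) ≤ ea p a := by unfold ea; positivity
  have e0' : (0 : ℝ) ≤ ea p a' := by unfold ea; positivity
  have w0 : (0 : ℝ) ≤ ww p N := by unfold ww; positivity
  have f1 := P_KB.nuF hNU hNUX hNUE hp ha hc
  have f2 := P_KB.nuF hNU hNUX hNUE hp ha' hc'
  have x1 : nu (XX p t ^ (j + 1)) ≤ |xt p t| * ((j : ℝ) + 2) ^ 2 := by
    have h1 := (hNUX p hp).2 t (j + 1)
    have e : ((j + 1 : ℕ) : ℝ) + 1 = (j : ℝ) + 2 := by push_cast; ring
    rw [e] at h1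
    refine h1.trans (mul_le_mul_of_nonneg_right ?_ (by positivity))
    rw [pow_succ]
    exact mul_le_of_le_one_left (abs_nonneg _)
      (pow_le_one₀ (abs_nonneg _) (P_KB.abs_xt_le hp t))
  have q1 := hNUQ p hp N t (by omega)
  have hfac : XX p t * Polynomial.aeval (XX p t) (X ^ j * (FF p a c * FF p a' c')) *
      (QQ p N t)⁻¹ = XX p t ^ (j + 1) * (Polynomial.aeval (XX p t) (FF p a c) *
        Polynomial.aeval (XX p t) (FF p a' c')) * (QQ p N t)⁻¹ := by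
    rw [map_mul, map_mul, map_pow, Polynomial.aeval_X, pow_succ]
    ring
  have hmain : nu (XX p t ^ (j + 1) * (Polynomial.aeval (XX p t) (FF p a c) *
        Polynomial.aeval (XX p t) (FF p a' c')) * (QQ p N t)⁻¹) ≤
      (|xt p t| * ((j : ℝ) + 2) ^ 2) *
        ((13 ^ 3 * (7 / 2) ^ 2 * ea p a ^ 3) *
        (13 ^ 3 * (7 / 2) ^ 2 * ea p a' ^ 3)) * (3 ^ 12 * ww p N) := by
    refine (nm _ _).trans (mul_le_mul ?_ q1 (n0 _) (by positivity))
    refine (nm _ _).trans (mul_le_mul x1 ?_ (n0 _) (by positivity))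
    exact (nm _ _).trans (mul_le_mul f1 f2 (n0 _) (by positivity))
  unfold kap
  rw [hfac, abs_mul]
  calc |wt x t| * |Dg (XX p t ^ (j + 1) * (Polynomial.aeval (XX p t) (FF p a c) *
        Polynomial.aeval (XX p t) (FF p a' c')) * (QQ p N t)⁻¹)|
      ≤ 1 * (2 * ((|xt p t| * ((j : ℝ) + 2) ^ 2) *
        ((13 ^ 3 * (7 / 2) ^ 2 * ea p a ^ 3) *
        (13 ^ 3 * (7 / 2) ^ 2 * ea p a' ^ 3)) * (3 ^ 12 * ww p N))) :=
        mul_le_mul (P_KB.abs_wt_le hx t)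
          ((P_KB.abs_Dg_le _).trans (mul_le_mul_of_nonneg_left hmain (by norm_num)))
          (abs_nonneg _) (by norm_num)
    _ = _ := by unfold C3; ring

end Pool.Agent.H410.FC
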