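import Pool.Agent.H410.FC.Stm

/-!
The norm inequality (task NRM, helper253).
-/

namespace Pool.Agent.H410.FC

open Finset Polynomial

namespace P_NRM

variable {a ε : ℤ}

theorem cyc_ne {y : ℝ} (hy : 1 < |y|) (d : ℕ) (hd : 1 ≤ d) :
    (Polynomial.cyclotomic d ℝ).eval y ≠ 0 := by
  intro h
  obtain ⟨g, hg⟩ := Polynomial.cyclotomic.dvd_X_pow_sub_one d ℝ
  have h2 : y ^ d - 1 = 0 := by
    have h3 := congrArg (Polynomial.eval y) hg
    rw [eval_mul, h, zero_mul, eval_sub, eval_pow, eval_X, eval_one] at h3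
    exact h3
  have h3 : |y| ^ d = 1 := by
    rw [← abs_pow]
    have h4 : y ^ d = 1 := by linarith
    rw [h4, abs_one]
  have h4 : 1 < |y| ^ d := one_lt_pow₀ hy (by omega)
  linarith

theorem DK_ne (h : OK a ε) (K : ℕ) : DK (pp a ε) K ≠ 0 := by
  unfold DK
  rw [Finset.prod_ne_zero_iff]
  intro d hd
  rw [mem_Icc] at hd
  apply cyc_ne _ d (by omega)
  have := (Hpx_ok h).1
  linarith

theorem Dc_ne (hDLS : S_DLS) (h : OK a ε) (J : ℤ) : Dc ε (al a ε) (be a ε) J ≠ 0 := by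
  match J with
  | Int.ofNat j => exact (hDLS a ε h j).1
  | Int.negSucc 0 => exact one_ne_zero
  | Int.negSucc (j + 1) => exact (hDLS a ε h j).2.1

/-- scaling the rows and columns -/
theorem det_scale (N : ℕ) (r c : Fin N → ℝ) (M : Matrix (Fin N) (Fin N) ℝ) :
    (Matrix.of fun k j => r k * (c j * M k j)).det = (∏ k, r k) * ((∏ j, c j) * M.det) := by
  have h1 := Matrix.det_mul_column r (Matrix.of fun k j => c j * M k j)
  have h2 := Matrix.det_mul_row c M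
  simp only [Matrix.of_apply] at h1
  rw [h1, h2]

theorem sum_succ (n : ℕ) : ∑ k ∈ range (2 * n + 1), (k + 1) = (2 * n + 1) * (n + 1) := by
  induction n with
  | zero => rfl
  | succ n ih =>
    have e : 2 * (n + 1) + 1 = 2 * n + 1 + 1 + 1 := by ring
    rw [e, Finset.sum_range_succ, Finset.sum_range_succ, ih]
    ring

theorem det_rev (p x : ℝ) (n : ℕ) :
    |(Matrix.of fun k j : Fin (2 * n + 1) =>
      ac p x ((k : ℕ) + 1) (-2 - (-(n : ℤ) + ((j : ℕ) : ℤ)))).det| =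
      |(AM p x (-((n + 2 : ℕ) : ℤ)) (2 * n + 1)).det| := by
  have h : (Matrix.of fun k j : Fin (2 * n + 1) =>
      ac p x ((k : ℕ) + 1) (-2 - (-(n : ℤ) + ((j : ℕ) : ℤ)))) =
      (AM p x (-((n + 2 : ℕ) : ℤ)) (2 * n + 1)).submatrix id Fin.revPerm := by
    ext k j
    simp only [AM, Matrix.of_apply, Matrix.submatrix_apply, id, Fin.revPerm_apply, Fin.val_rev]
    congr 1
    have := j.2
    push_cast
    omega
  rw [h, Matrix.det_permute', abs_mul]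
  have h1 : |(((Equiv.Perm.sign (Fin.revPerm : Equiv.Perm (Fin (2 * n + 1))) : ℤˣ) : ℤ) : ℝ)| = 1 := by
    rcases Int.units_eq_one_or (Equiv.Perm.sign (Fin.revPerm : Equiv.Perm (Fin (2 * n + 1))))
      with h2 | h2
    · rw [h2]
      norm_num
    · rw [h2]
      norm_num
  rw [h1, one_mul]

theorem abs_row (n : ℕ) (w : ℝ) (f : ℕ → ℝ) (q : ℕ → ℝ) (hw : ∀ k, |f k| = w * |q k| ^ 3) :
    |∏ k : Fin (2 * n + 1), f k| = w ^ (2 * n + 1) * ∏ k ∈ range (2 * n + 1), |q k| ^ 3 := by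
  rw [Finset.abs_prod, ← Finset.prod_range (fun k => |f k|)]
  rw [Finset.prod_congr rfl fun k _ => hw k, Finset.prod_mul_distrib, Finset.prod_const,
    Finset.card_range]

end P_NRM

open P_NRM in
theorem t_NRM (hENT : S_ENT) (hCJ : S_CJ) (hDLS : S_DLS) : S_NRM := by
  intro a ε hOK s v hv hs n hdet
  obtain ⟨-, -, -, -, -, -, -, -, -, -, hCdet, -, hCnorm⟩ := hCJ a ε hOK
  have hvr : (v : ℝ) ≠ 0 := by exact_mod_cast hv
  have hsD := sD_pos hOK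
  obtain ⟨r, hr⟩ : ∃ r : ℕ → ℝ, ∀ k, r k = v * sD a ε ^ 3 * DK (pp a ε) (k + 1) ^ 3 :=
    ⟨_, fun _ => rfl⟩
  obtain ⟨r', hr'⟩ : ∃ r' : ℕ → ℝ, ∀ k, r' k = v * (-sD a ε) ^ 3 * DK (pp a ε)⁻¹ (k + 1) ^ 3 :=
    ⟨_, fun _ => rfl⟩
  obtain ⟨c, hc⟩ : ∃ c : ℕ → ℝ, ∀ j : ℕ, c j = Dc ε (al a ε) (be a ε) (-(n : ℤ) + j) :=
    ⟨_, fun _ => rfl⟩
  obtain ⟨c', hc'⟩ : ∃ c' : ℕ → ℝ, ∀ j : ℕ, c' j = Dc ε (be a ε) (al a ε) (-(n : ℤ) + j) :=
    ⟨_, fun _ => rfl⟩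
  obtain ⟨p, hp⟩ : ∃ p, p = pp a ε := ⟨_, rfl⟩
  have key := hCdet (2 * n + 1)
    (Matrix.of fun k j => r k * (c j * AM (pp a ε) (x0 a ε) (-(n : ℤ)) (2 * n + 1) k j))
    (Matrix.of fun k j => (r' k * (-(pp a ε ^ ((k : ℕ) + 1)))) * (c' j *
      (Matrix.of fun k j : Fin (2 * n + 1) =>
        ac (pp a ε) (x0 a ε) ((k : ℕ) + 1) (-2 - (-(n : ℤ) + ((j : ℕ) : ℤ)))) k j)) (by
      intro k j
      have h1 := hENT a ε hOK s v hv hs ((k : ℕ) + 1) (by omega) (-(n : ℤ) + ((j : ℕ) : ℤ))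
      simp only [Matrix.of_apply, AM]
      rw [hr, hr', hc, hc']
      have e1 : v * sD a ε ^ 3 * DK (pp a ε) ((k : ℕ) + 1) ^ 3 *
          (Dc ε (al a ε) (be a ε) (-(n : ℤ) + ((j : ℕ) : ℤ)) *
            ac (pp a ε) (x0 a ε) ((k : ℕ) + 1) (-(n : ℤ) + ((j : ℕ) : ℤ))) =
          v * sD a ε ^ 3 * DK (pp a ε) ((k : ℕ) + 1) ^ 3 *
          Dc ε (al a ε) (be a ε) (-(n : ℤ) + ((j : ℕ) : ℤ)) *
            ac (pp a ε) (x0 a ε) ((k : ℕ) + 1) (-(n : ℤ) + ((j : ℕ) : ℤ)) := by ring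
      have e2 : v * (-sD a ε) ^ 3 * DK (pp a ε)⁻¹ ((k : ℕ) + 1) ^ 3 *
          (-(pp a ε ^ ((k : ℕ) + 1))) *
          (Dc ε (be a ε) (al a ε) (-(n : ℤ) + ((j : ℕ) : ℤ)) *
            ac (pp a ε) (x0 a ε) ((k : ℕ) + 1) (-2 - (-(n : ℤ) + ((j : ℕ) : ℤ)))) =
          v * (-sD a ε) ^ 3 * DK (pp a ε)⁻¹ ((k : ℕ) + 1) ^ 3 *
          Dc ε (be a ε) (al a ε) (-(n : ℤ) + ((j : ℕ) : ℤ)) *
            (-(pp a ε ^ ((k : ℕ) + 1) * ac (pp a ε) (x0 a ε) ((k : ℕ) + 1)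
              (-2 - (-(n : ℤ) + ((j : ℕ) : ℤ))))) := by ring
      rw [e1, e2]
      exact h1)
  have hrn : ∀ k, r k ≠ 0 := by
    intro k
    rw [hr]
    exact mul_ne_zero (mul_ne_zero hvr (pow_ne_zero _ hsD.ne')) (pow_ne_zero _ (DK_ne hOK _))
  have hcn : ∀ j, c j ≠ 0 := by
    intro j
    rw [hc]
    exact Dc_ne hDLS hOK _
  rw [det_scale (2 * n + 1) (fun k => r k) (fun j => c j)] at key
  rw [det_scale (2 * n + 1) (fun k => r' k * (-(pp a ε ^ ((k : ℕ) + 1)))) (fun j => c' j)] at key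
  have h1 := hCnorm _ _ key (mul_ne_zero (Finset.prod_ne_zero_iff.2 fun k _ => hrn k)
    (mul_ne_zero (Finset.prod_ne_zero_iff.2 fun j _ => hcn j) hdet))
  have hrow : |∏ k : Fin (2 * n + 1), r k| = (|(v : ℝ)| * sD a ε ^ 3) ^ (2 * n + 1) *
      ∏ k ∈ range (2 * n + 1), |DK (pp a ε) (k + 1)| ^ 3 := by
    apply abs_row n _ r (fun k => DK (pp a ε) (k + 1))
    intro k
    rw [hr, abs_mul, abs_mul, abs_pow, abs_pow, abs_of_pos hsD]
  have hrow' : |∏ k : Fin (2 * n + 1), r' k| = (|(v : ℝ)| * sD a ε ^ 3) ^ (2 * n + 1) *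
      ∏ k ∈ range (2 * n + 1), |DK (pp a ε)⁻¹ (k + 1)| ^ 3 := by
    apply abs_row n _ r' (fun k => DK (pp a ε)⁻¹ (k + 1))
    intro k
    rw [hr', abs_mul, abs_mul, abs_pow, abs_pow, abs_neg, abs_of_pos hsD]
  have hcol : |∏ j : Fin (2 * n + 1), c j| =
      ∏ j ∈ range (2 * n + 1), |Dc ε (al a ε) (be a ε) (-(n : ℤ) + j)| := by
    rw [Finset.abs_prod, ← Finset.prod_range (fun k => |c k|)]
    exact Finset.prod_congr rfl fun k _ => by rw [hc]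
  have hcol' : |∏ j : Fin (2 * n + 1), c' j| =
      ∏ j ∈ range (2 * n + 1), |Dc ε (be a ε) (al a ε) (-(n : ℤ) + j)| := by
    rw [Finset.abs_prod, ← Finset.prod_range (fun k => |c' k|)]
    exact Finset.prod_congr rfl fun k _ => by rw [hc']
  have hpp : |∏ k : Fin (2 * n + 1), (-(pp a ε ^ ((k : ℕ) + 1)))| =
      |pp a ε| ^ ((2 * n + 1) * (n + 1)) := by
    rw [Finset.abs_prod, ← Finset.prod_range (fun k => |-(pp a ε ^ (k + 1))|)]
    rw [Finset.prod_congr rfl fun k _ => by rw [abs_neg, abs_pow], Finset.prod_pow_eq_pow_sum,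
      sum_succ]
  rw [Finset.prod_mul_distrib, abs_mul, abs_mul, abs_mul, abs_mul, abs_mul, abs_mul, hrow, hrow',
    hcol, hcol', hpp, det_rev] at h1
  unfold DD
  refine h1.trans (le_of_eq ?_)
  have e : (|(v : ℝ)| * sD a ε ^ 3) ^ (2 * (2 * n + 1)) =
      (|(v : ℝ)| * sD a ε ^ 3) ^ (2 * n + 1) * (|(v : ℝ)| * sD a ε ^ 3) ^ (2 * n + 1) := by
    rw [← pow_add]
    congr 1
    ring
  rw [e]
  ring

end Pool.Agent.H410.FC
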