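import Pool.Agent.H410.FC.Stm
import Pool.Agent.H475.QZ.P_NUQ

/-!
Bound for `Q(X_t)⁻¹` (helper807, after the model of helper475).
-/

namespace Pool.Agent.H410.FC

open Finset
open Pool.Agent.H475.QZ (nu)

theorem t_NUQ (hNU : Pool.Agent.H475.QZ.S_NU) : S_NUQ := by
  intro p hpR N t ht
  obtain ⟨hnn, -, -, -, hprod, -, -⟩ := hNU
  have hpos : (0 : ℝ) < |p| := by linarith
  have hp0 : p ≠ 0 := abs_pos.1 hpos
  have hQ : (QQ p N t)⁻¹ = ∏ k ∈ range N,
      (Pool.Agent.H475.QZ.P_NUQ.fac (p ^ (k + 1)) (xt p t))⁻¹ := by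
    unfold QQ XX
    rw [Pool.Agent.H475.QZ.P_NUQ.prod_inv]
    rfl
  rw [hQ]
  refine (hprod _ _).trans ?_
  have hfac : ∀ k ∈ range N, nu (Pool.Agent.H475.QZ.P_NUQ.fac (p ^ (k + 1)) (xt p t))⁻¹ ≤
      (|p| ^ (k + 1))⁻¹ * (1 + 12 * (1 / 2) ^ (k + 1)) := by
    intro k _
    have hPk : (p ^ (k + 1)) ≠ 0 := pow_ne_zero _ hp0
    set u : ℝ := (|p| ^ (t + (k + 1)))⁻¹ with hu
    have hu1 : u ≤ (1 / 2) ^ (k + 1) := by
      rw [hu, one_div, inv_pow]
      refine inv_anti₀ (by positivity) ?_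
      calc (2 : ℝ) ^ (k + 1) ≤ |p| ^ (k + 1) := pow_le_pow_left₀ (by norm_num) hpR _
        _ ≤ |p| ^ (t + (k + 1)) := pow_le_pow_right₀ (by linarith) (by omega)
    have hu2 : u ≤ 1 / 2 := by
      refine hu1.trans ?_
      rw [pow_succ]
      have : (1 / 2 : ℝ) ^ k ≤ 1 := pow_le_one₀ (by norm_num) (by norm_num)
      linarith
    have h := Pool.Agent.H475.QZ.P_NUQ.nu_fac_inv (p ^ (k + 1)) (xt p t) u hPk (by
      unfold xt
      rw [hu, abs_inv, abs_pow, abs_pow, pow_add, mul_inv, mul_assoc,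
        inv_mul_cancel₀ (pow_ne_zero _ hpos.ne'), mul_one]) hu2
    refine h.trans ?_
    rw [abs_pow]
    refine mul_le_mul_of_nonneg_left ?_ (by positivity)
    linarith
  refine (Finset.prod_le_prod (fun k _ => hnn _) hfac).trans ?_
  rw [Finset.prod_mul_distrib]
  have hw : ∏ k ∈ range N, (|p| ^ (k + 1))⁻¹ = ww p N := by
    unfold ww
    rw [Finset.prod_inv_distrib, Finset.prod_pow_eq_pow_sum]
    congr 2
    have h1 : ∑ k ∈ range N, (k + 1) = ∑ k ∈ range (N + 1), k := by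
      rw [Finset.sum_range_succ']
      simp
    rw [h1, Finset.sum_range_id, Nat.add_sub_cancel, mul_comm]
  rw [hw, mul_comm]
  refine mul_le_mul_of_nonneg_right ?_ (by unfold ww; positivity)
  refine (Pool.Agent.H475.QZ.P_NUQ.prod_one_add_le N (fun k => 12 * (1 / 2) ^ (k + 1))
    (fun k => by positivity)).trans ?_
  rw [← Finset.mul_sum]
  have h12 : Real.exp (12 * ∑ k ∈ range N, (1 / 2 : ℝ) ^ (k + 1)) ≤ Real.exp (12 * 1) :=
    Real.exp_le_exp.2 (mul_le_mul_of_nonneg_left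
      (Pool.Agent.H475.QZ.P_NUQ.geom_bound N) (by norm_num))
  refine h12.trans ?_
  have h3 : Real.exp 1 ≤ 3 := by
    have := Real.exp_one_lt_d9
    linarith
  calc Real.exp (12 * 1) = Real.exp 1 ^ 12 := by
        rw [← Real.exp_nat_mul]
        norm_num
    _ ≤ 3 ^ 12 := pow_le_pow_left₀ (Real.exp_pos _).le h3 _

end Pool.Agent.H410.FC
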