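import Pool.Agent.H410.FC.Stm

/-!
Nonvanishing of infinitely many determinants (assembly of part E).
-/

namespace Pool.Agent.H410.FC

open Finset Polynomial

namespace P_NV

theorem m0_lt_Tt (ε : ℤ) (m0 : ℕ) : m0 < Tt ε m0 := by
  unfold Tt
  split_ifs <;> omega

/-- The conclusion from the data of one residue field. -/
theorem of_dat (hNV1 : S_NV1) (hNV3 : S_NV3) (hNV4 : S_NV4) {a ε : ℤ} (h : OK a ε) {s v : ℤ}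
    (hs : SS a ε * v = s) {m0 : ℕ} (F : Type) (hF : Field F) (g : F) (hd : Dat a ε v m0 F g) :
    (AM (pp a ε) (x0 a ε) (-((Tt ε m0 - 1 : ℕ) : ℤ)) (2 * (Tt ε m0 - 1) + 1)).det ≠ 0 := by
  obtain ⟨hu, -, -, -, hPT, -, -, -, -⟩ := hNV1 a ε v h m0 F hF g hd
  obtain ⟨h1, ⟨ρ, hρ, h2⟩, ⟨ρ', hρ', h3⟩, h4⟩ := hNV3 a ε s v h hs m0 F hF g hd
  have h1' : ∀ (K : ℕ) (J : ℤ), ∃ f : F, 1 ≤ K → K < Tt ε m0 → (m0 : ℤ) - Tt ε m0 ≤ J → J < m0 →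
      Rl a ε g (ac (pp a ε) (x0 a ε) K J) f := by
    intro K J
    by_cases hc : 1 ≤ K ∧ K < Tt ε m0 ∧ (m0 : ℤ) - Tt ε m0 ≤ J ∧ J < m0
    · obtain ⟨f, hf⟩ := h1 K hc.1 hc.2.1 J hc.2.2.1 hc.2.2.2
      exact ⟨f, fun _ _ _ _ => hf⟩
    · exact ⟨0, fun c1 c2 c3 c4 => absurd ⟨c1, c2, c3, c4⟩ hc⟩
  have h4' : ∀ K : ℕ, ∃ b : F, Tt ε m0 ≤ K → K < 2 * Tt ε m0 → b ≠ 0 ∧ ∀ J : ℤ,
      -(Tt ε m0 : ℤ) < J → J < Tt ε m0 →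
      Rl a ε g ((1 + x0 a ε * pp a ε ^ m0) ^ 3 * ac (pp a ε) (x0 a ε) K J)
        (((ε : F) * g ^ 2) ^ ((K : ℤ) * J) * b) := by
    intro K
    by_cases hc : Tt ε m0 ≤ K ∧ K < 2 * Tt ε m0
    · obtain ⟨b, hb⟩ := h4 K hc.1 hc.2
      exact ⟨b, fun _ _ => hb⟩
    · exact ⟨0, fun c1 c2 => absurd ⟨c1, c2⟩ hc⟩
  choose f hf using h1'
  choose b hb using h4'
  have key := hNV4 a ε h F hF g hd.hg (Tt ε m0) m0 (1 + x0 a ε * pp a ε ^ m0)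
    ((ε : F) * g ^ 2) (fun K J => ac (pp a ε) (x0 a ε) K J) ρ ρ' b f
    (by have := hd.hm0; omega) (m0_lt_Tt ε m0) hu hPT hd.hord hρ hρ'
    (fun K hK hK' => (hb K hK hK').1)
    (fun K hK hK' J hJ hJ' => hf K J hK hK' hJ hJ')
    (fun K hK hK' J hJ hJ' => h2 K hK hK' J hJ hJ')
    (fun K hK hK' J hJ hJ' => h3 K hK hK' J hJ hJ')
    (fun K hK hK' J hJ hJ' => (hb K hK hK').2 J hJ hJ')
  exact key

end P_NV

theorem t_NV (hEX1 : S_EX1) (hEX2 : S_EX2) (hNV1 : S_NV1) (hNV3 : S_NV3) (hNV4 : S_NV4) :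
    S_NV := by
  intro a ε h s v hv hs B
  have key : ∃ m0 : ℕ, B ≤ m0 ∧ ∃ (F : Type) (_ : Field F) (g : F), Dat a ε v m0 F g := by
    rcases h with ⟨he, ha⟩ | ⟨he, ha⟩
    · subst he
      exact hEX1 a ha v hv B
    · subst he
      exact hEX2 a ha v hv B
  obtain ⟨m0, hB, F, hF, g, hd⟩ := key
  have hT := P_NV.m0_lt_Tt ε m0
  exact ⟨Tt ε m0 - 1, by omega, P_NV.of_dat hNV1 hNV3 hNV4 h hs F hF g hd⟩

end Pool.Agent.H410.FC
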