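import Pool.Agent.H410.FC.Stm

/-!
Reductions of the `c_m` (proof of `S_NV1` from `S_RL`), helper685 for helper410.
-/

namespace Pool.Agent.H410.FC

namespace P_NV1

open Finset

/-- The order argument: `P^m = P^m0`, `-T < m < T`, forces `m = m0` or `m = m0 - T`. -/
theorem ord_arg {F : Type} [Field F] (P : F) (T m0 : ℕ) (hT : 0 < T) (hP : P ≠ 0)
    (hPT : P ^ T = 1) (hord : ∀ k : ℕ, 0 < k → k < T → P ^ k ≠ 1) (hm0T : m0 < T)
    (m : ℤ) (h1 : -(T : ℤ) < m) (h2 : m < T) (h3 : m ≠ m0) (h4 : m ≠ m0 - T) :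
    P ^ m ≠ P ^ (m0 : ℤ) := by
  intro h
  have hTz : (0 : ℤ) < T := by exact_mod_cast hT
  have h5 : P ^ (m - m0) = 1 := by
    rw [zpow_sub₀ hP, h, div_self (zpow_ne_zero _ hP)]
  have hmod0 := Int.emod_nonneg (m - m0) hTz.ne'
  have hmodT := Int.emod_lt_of_pos (m - m0) hTz
  have hdiv := Int.emod_add_mul_ediv (m - m0) T
  obtain ⟨k, hk⟩ := Int.eq_ofNat_of_zero_le hmod0
  have h6 : P ^ (k : ℤ) = 1 := by
    have e : P ^ (m - m0) = P ^ (k : ℤ) * (P ^ (T : ℤ)) ^ ((m - m0) / T) := by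
      rw [← zpow_mul, ← zpow_add₀ hP, ← hk, hdiv]
    rw [zpow_natCast P T, hPT, one_zpow, mul_one, h5] at e
    exact e.symm
  rw [zpow_natCast] at h6
  rcases Nat.eq_zero_or_pos k with hk0 | hk0
  · subst hk0
    have h7 : (T : ℤ) * ((m - m0) / T) = m - m0 := by
      rw [hk] at hdiv
      simpa using hdiv
    generalize (m - (m0 : ℤ)) / (T : ℤ) = q at h7
    have hm0' : (m0 : ℤ) < T := by exact_mod_cast hm0T
    have hm0n : (0 : ℤ) ≤ m0 := Int.natCast_nonneg m0
    have hq1 : q < 1 := by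
      by_contra hc
      have : 1 ≤ q := by omega
      nlinarith
    have hq2 : -2 < q := by
      by_contra hc
      have : q ≤ -2 := by omega
      nlinarith
    have hq : q = 0 ∨ q = -1 := by omega
    rcases hq with hq | hq
    · rw [hq] at h7
      apply h3
      linarith
    · rw [hq] at h7
      apply h4
      linarith
  · refine hord k hk0 ?_ h6
    have : (k : ℤ) < T := by rw [hk] at hmodT; exact_mod_cast hmodT
    exact_mod_cast this

end P_NV1

open P_NV1 in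
theorem t_NV1 (hRL : S_RL) : S_NV1 := by
  intro a ε v hOK m0 F inst g D
  obtain ⟨hint, hal, hadd, hmul, hneg, hinv, hzpow, -, -, -⟩ := hRL a ε hOK F inst g D.hg
  have hone : Rl a ε g (1 : ℝ) (1 : F) := by
    have := hint 1
    simpa using this
  have hpow : ∀ (z : ℝ) (f : F), Rl a ε g z f → ∀ n : ℕ, Rl a ε g (z ^ n) (f ^ n) := by
    intro z f hz n
    induction n with
    | zero => simpa using hone
    | succ n ih =>
      rw [pow_succ, pow_succ]
      exact hmul _ _ _ _ ih hz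
  have hnat : ∀ n : ℕ, Rl a ε g (n : ℝ) (n : F) := by
    intro n
    have := hint (n : ℤ)
    simpa using this
  -- reductions of `p` and `x`
  have hp : Rl a ε g (pp a ε) ((ε : F) * g ^ 2) := by
    unfold pp
    exact hmul _ _ _ _ (hint ε) (hpow _ _ hal 2)
  have hx : Rl a ε g (x0 a ε) (-((ε : F) * g)) := by
    unfold x0
    exact hneg _ _ (hmul _ _ _ _ (hint ε) hal)
  have hp0 : pp a ε ≠ 0 := pp_ne hOK
  have hx0 : x0 a ε ≠ 0 := x0_ne hOK
  have hm0 := D.hm0
  have hw := D.hw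
  have hord := D.hord
  -- the number `w`
  obtain ⟨w, hwdef⟩ : ∃ w : ℝ, w = x0 a ε * pp a ε ^ m0 := ⟨_, rfl⟩
  have hwR : Rl a ε g w (-1) := by
    have h1 := hmul _ _ _ _ hx (hpow _ _ hp m0)
    rw [neg_mul, hw] at h1
    rw [hwdef]
    exact h1
  have huR : Rl a ε g (1 + w) 0 := by
    have h1 := hadd _ _ _ _ hone hwR
    rwa [add_neg_cancel] at h1
  have hw0 : w ≠ 0 := by
    rw [hwdef]
    exact mul_ne_zero hx0 (pow_ne_zero _ hp0)
  have hwabs : 1 < |w| := by
    rw [hwdef, abs_mul, abs_pow, abs_x0 hOK]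
    have h1 := al_ge hOK
    have h2 := (Hpx_ok hOK).1
    have h3 : (1 : ℝ) ≤ |pp a ε| ^ m0 := one_le_pow₀ (by linarith)
    nlinarith
  have hu0 : 1 + w ≠ 0 := by
    intro h
    have h1 : w = -1 := by linarith
    rw [h1] at hwabs
    norm_num at hwabs
  have hw2 : w ^ 2 = ε * pp a ε ^ (2 * m0 + 1) := by
    rw [hwdef, mul_pow, x0_sq hOK]
    ring
  -- the field element `P`
  have hεF : (ε : F) * ε = 1 := by
    rcases eps_cases hOK with h | h <;> subst h <;> simp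
  have hPodd : ((ε : F) * g ^ 2) ^ (2 * m0 + 1) = ε := by
    have h1 : ((ε : F) * g * ((ε : F) * g ^ 2) ^ m0) ^ 2 = 1 := by rw [hw, one_pow]
    have h2 : ((ε : F) * g * ((ε : F) * g ^ 2) ^ m0) ^ 2 =
        ε * ((ε : F) * g ^ 2) ^ (2 * m0 + 1) := by ring
    rw [h2] at h1
    calc ((ε : F) * g ^ 2) ^ (2 * m0 + 1)
        = ((ε : F) * ε) * ((ε : F) * g ^ 2) ^ (2 * m0 + 1) := by rw [hεF, one_mul]
      _ = ε * (ε * ((ε : F) * g ^ 2) ^ (2 * m0 + 1)) := by ring
      _ = ε := by rw [h1, mul_one]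
  have hPT : ((ε : F) * g ^ 2) ^ Tt ε m0 = 1 := by
    unfold Tt
    split_ifs with h
    · rw [hPodd, h]
      simp
    · rw [Nat.mul_comm, pow_mul, hPodd, sq, hεF]
  have hTlt : m0 < Tt ε m0 := by
    unfold Tt
    split_ifs <;> omega
  have hTpos : 0 < Tt ε m0 := by omega
  have hP0 : ((ε : F) * g ^ 2) ≠ 0 := by
    intro h
    rw [h, zero_pow hTpos.ne'] at hPT
    exact zero_ne_one hPT
  have hcast : (1 + x0 a ε * pp a ε ^ m0) = 1 + w := by rw [hwdef]
  rw [hcast]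
  -- `1 + x p^m`
  have hzp : ∀ m : ℤ, Rl a ε g (pp a ε ^ m) (((ε : F) * g ^ 2) ^ m) :=
    fun m => hzpow _ _ hp hP0 m
  have hden : ∀ m : ℤ, Rl a ε g (1 + x0 a ε * pp a ε ^ m)
      (1 + -((ε : F) * g) * ((ε : F) * g ^ 2) ^ m) :=
    fun m => hadd _ _ _ _ hone (hmul _ _ _ _ hx (hzp m))
  have hεg : (ε : F) * g ≠ 0 := by
    intro h
    rw [h, zero_mul] at hw
    exact zero_ne_one hw
  refine ⟨huR, hu0, hp, hP0, hPT, ?_, ?_, ?_, ?_⟩
  · -- (i)
    intro m h1 h2 h3 h4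
    have h5 := ord_arg ((ε : F) * g ^ 2) (Tt ε m0) m0 hTpos hP0 hPT hord hTlt m h1 h2 h3 h4
    have h6 : 1 + -((ε : F) * g) * ((ε : F) * g ^ 2) ^ m ≠ 0 := by
      intro h
      apply h5
      have h7 : (ε : F) * g * ((ε : F) * g ^ 2) ^ m = 1 := by
        have : (ε : F) * g * ((ε : F) * g ^ 2) ^ m =
          1 - (1 + -((ε : F) * g) * ((ε : F) * g ^ 2) ^ m) := by ring
        rw [this, h, sub_zero]
      have h8 : (ε : F) * g * ((ε : F) * g ^ 2) ^ (m0 : ℤ) = 1 := by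
        rw [zpow_natCast]
        exact hw
      exact mul_left_cancel₀ hεg (h7.trans h8.symm)
    obtain ⟨h7, h8⟩ := hinv _ _ (hden m) h6
    refine ⟨((m : F) * ((m : F) + 1)) * (1 + -((ε : F) * g) * ((ε : F) * g ^ 2) ^ m)⁻¹, ?_⟩
    unfold cc
    rw [div_eq_mul_inv]
    exact hmul _ _ _ _ (hmul _ _ _ _ (hint m) (hadd _ _ _ _ (hint m) hone)) h8
  · -- (ii)
    refine ⟨(m0 : F) * ((m0 : F) + 1), mul_ne_zero D.hm D.hm1, ?_⟩
    have e : (1 + w) * cc (pp a ε) (x0 a ε) (m0 : ℤ) = (m0 : ℝ) * ((m0 : ℝ) + 1) := by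
      unfold cc
      rw [zpow_natCast, hcast, Int.cast_natCast]
      field_simp
    rw [e]
    exact hmul _ _ _ _ (hnat m0) (hadd _ _ _ _ (hnat m0) hone)
  · -- (iii)
    have e0 : ∀ W : ℝ, pp a ε ^ Tt ε m0 = W → x0 a ε * pp a ε ^ ((m0 : ℤ) - Tt ε m0) = w / W := by
      intro W hW
      rw [zpow_sub₀ hp0, zpow_natCast, zpow_natCast, hW, hwdef]
      ring
    rcases eps_cases hOK with h | h
    · -- `ε = -1`
      have hT : Tt ε m0 = 2 * (2 * m0 + 1) := by
        unfold Tt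
        rw [if_neg (by omega)]
      have hpodd : pp a ε ^ (2 * m0 + 1) = - w ^ 2 := by
        rw [hw2, h]
        push_cast
        ring
      have hpT : pp a ε ^ Tt ε m0 = w ^ 4 := by
        rw [hT, Nat.mul_comm, pow_mul, hpodd]
        ring
      have hq : w ^ 2 - w + 1 ≠ 0 := by nlinarith [sq_nonneg (w - 1), sq_nonneg w, sq_nonneg (2 * w - 1)]
      have e1 : (((m0 : ℤ) - (Tt ε m0 : ℤ) : ℤ) : ℝ) = -(3 * (m0 : ℝ) + 2) := by
        rw [hT]
        push_cast
        ring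
      have e : (1 + w) * cc (pp a ε) (x0 a ε) ((m0 : ℤ) - Tt ε m0) =
          (3 * (m0 : ℝ) + 2) * (3 * (m0 : ℝ) + 1) * (w ^ 3 * (w ^ 2 - w + 1)⁻¹) := by
        unfold cc
        rw [e0 _ hpT, e1]
        have e2 : 1 + w / w ^ 4 = (1 + w) * (w ^ 2 - w + 1) / w ^ 3 := by
          field_simp
          ring
        rw [e2]
        field_simp
        ring
      rw [e]
      have r3 : ∀ n : ℕ, Rl a ε g (3 * (m0 : ℝ) + (n : ℝ)) (3 * (m0 : F) + (n : F)) := by
        intro n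
        have h3 := hnat 3
        push_cast at h3
        exact hadd _ _ _ _ (hmul _ _ _ _ h3 (hnat m0)) (hnat n)
      have r1 := r3 1
      have r2 := r3 2
      push_cast at r1 r2
      have rq : Rl a ε g (w ^ 2 - w + 1) 3 := by
        have h1 := hadd _ _ _ _ (hadd _ _ _ _ (hpow _ _ hwR 2) (hneg _ _ hwR)) hone
        have e3 : w ^ 2 + -w + 1 = w ^ 2 - w + 1 := by ring
        have e4 : ((-1 : F)) ^ 2 + - -1 + 1 = 3 := by ring
        rw [e3, e4] at h1
        exact h1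
      refine ⟨(3 * (m0 : F) + 2) * (3 * (m0 : F) + 1) * ((-1) ^ 3 * (3 : F)⁻¹), ?_, ?_⟩
      · refine mul_ne_zero (mul_ne_zero D.h3m1 D.h3m) (mul_ne_zero ?_ (inv_ne_zero D.h3))
        exact pow_ne_zero _ (neg_ne_zero.mpr one_ne_zero)
      · exact hmul _ _ _ _ (hmul _ _ _ _ r2 r1)
          (hmul _ _ _ _ (hpow _ _ hwR 3) (hinv _ _ rq D.h3).2)
    · -- `ε = 1`
      have hT : Tt ε m0 = 2 * m0 + 1 := by
        unfold Tt
        rw [if_pos h]
      have hpT : pp a ε ^ Tt ε m0 = w ^ 2 := by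
        rw [hT, hw2, h]
        push_cast
        ring
      have e1 : (((m0 : ℤ) - (Tt ε m0 : ℤ) : ℤ) : ℝ) = -((m0 : ℝ) + 1) := by
        rw [hT]
        push_cast
        ring
      have e : (1 + w) * cc (pp a ε) (x0 a ε) ((m0 : ℤ) - Tt ε m0) =
          ((m0 : ℝ) + 1) * (m0 : ℝ) * w := by
        unfold cc
        rw [e0 _ hpT, e1]
        have e2 : 1 + w / w ^ 2 = (1 + w) / w := by
          field_simp
          ring
        rw [e2]
        field_simp
        ring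
      rw [e]
      refine ⟨((m0 : F) + 1) * (m0 : F) * (-1), ?_, ?_⟩
      · exact mul_ne_zero (mul_ne_zero D.hm1 D.hm) (neg_ne_zero.mpr one_ne_zero)
      · exact hmul _ _ _ _ (hmul _ _ _ _ (hadd _ _ _ _ (hnat m0) hone) (hnat m0)) hwR
  · -- (iv)
    have rm : Rl a ε g (w - 1) (-2) := by
      have h1 := hadd _ _ _ _ hwR (hneg _ _ hone)
      have e3 : w + -1 = w - 1 := by ring
      have e4 : ((-1 : F)) + -1 = -2 := by ring
      rw [e3, e4] at h1
      exact h1
    rcases eps_cases hOK with h | h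
    · have hT : Tt ε m0 = 2 * (2 * m0 + 1) := by
        unfold Tt
        rw [if_neg (by omega)]
      have hpodd : pp a ε ^ (2 * m0 + 1) = - w ^ 2 := by
        rw [hw2, h]
        push_cast
        ring
      have hpT : pp a ε ^ Tt ε m0 = w ^ 4 := by
        rw [hT, Nat.mul_comm, pow_mul, hpodd]
        ring
      have e : (pp a ε ^ Tt ε m0 - 1) / (1 + w) = (w - 1) * (w ^ 2 + 1) := by
        rw [hpT, div_eq_iff hu0]
        ring
      rw [e]
      have rp : Rl a ε g (w ^ 2 + 1) 2 := by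
        have h1 := hadd _ _ _ _ (hpow _ _ hwR 2) hone
        have e4 : ((-1 : F)) ^ 2 + 1 = 2 := by ring
        rw [e4] at h1
        exact h1
      exact ⟨-2 * 2, mul_ne_zero (neg_ne_zero.mpr D.h2) D.h2, hmul _ _ _ _ rm rp⟩
    · have hT : Tt ε m0 = 2 * m0 + 1 := by
        unfold Tt
        rw [if_pos h]
      have hpT : pp a ε ^ Tt ε m0 = w ^ 2 := by
        rw [hT, hw2, h]
        push_cast
        ring
      have e : (pp a ε ^ Tt ε m0 - 1) / (1 + w) = w - 1 := by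
        rw [hpT, div_eq_iff hu0]
        ring
      rw [e]
      exact ⟨-2, neg_ne_zero.mpr D.h2, rm⟩

end Pool.Agent.H410.FC
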