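import Pool.Agent.H410.FC.Stm

/-!
# Reductions of the numbers a(K,0) (task NV2)
-/

namespace Pool.Agent.H410.FC

open Finset

namespace P_NV2

theorem T_pos {ε : ℤ} {m0 : ℕ} (hm0 : 2 ≤ m0) : 1 ≤ Tt ε m0 := by
  unfold Tt
  split_ifs <;> omega

end P_NV2

open P_NV2

theorem t_NV2 (hRL : S_RL) (hCF : S_CF) (hNV1 : S_NV1) : S_NV2 := by
  intro a ε s v h hS m0 F _ g D
  obtain ⟨rI, rA, rAdd, rMul, rNeg, rInv, rZ, rSum, rProd, rDet⟩ := hRL a ε h F _ g D.hg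
  obtain ⟨n1, n2, n3, n4, n5, n6, n7, n8, n9⟩ := hNV1 a ε v h m0 F _ g D
  have hT : 1 ≤ Tt ε m0 := T_pos D.hm0
  -- elementary rules
  have r1 : Rl a ε g 1 1 := by
    have := rI 1
    simpa using this
  have rPow : ∀ z f, Rl a ε g z f → ∀ n : ℕ, Rl a ε g (z ^ n) (f ^ n) := by
    intro z f hz n
    induction n with
    | zero => simpa using r1
    | succ n ih =>
      rw [pow_succ, pow_succ]
      exact rMul _ _ _ _ ih hz
  have rSub : ∀ z w f k, Rl a ε g z f → Rl a ε g w k → Rl a ε g (z - w) (f - k) := by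
    intro z w f k hz hw
    rw [sub_eq_add_neg, sub_eq_add_neg]
    exact rAdd _ _ _ _ hz (rNeg _ _ hw)
  have rZero : ∀ f, Rl a ε g 0 f → f = 0 := by
    intro f hf
    by_contra hne
    exact (rInv _ _ hf hne).1 rfl
  -- constants of the field
  have hg0 : g ≠ 0 := by
    intro h0
    have := D.hw
    rw [h0] at this
    simp at this
  have he0 : (ε : F) ≠ 0 := by
    intro h0
    have := D.hw
    rw [h0] at this
    simp at this
  have hv0 : (v : ℝ) ≠ 0 := by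
    intro h0
    have h1 : v = 0 := by exact_mod_cast h0
    apply D.hv
    rw [h1]
    simp
  -- the value of the series
  have hSS : Rl a ε g (SS a ε) ((s : F) * (v : F)⁻¹) := by
    have h1 : SS a ε = (s : ℝ) * (v : ℝ)⁻¹ := by
      rw [← hS, mul_assoc, mul_inv_cancel₀ hv0, mul_one]
    rw [h1]
    exact rMul _ _ _ _ (rI s) (rInv _ _ (rI v) D.hv).2
  -- the square root
  have hsD : Rl a ε g (sD a ε) (2 * g - a) := by
    have h1 : sD a ε = ((2 : ℤ) : ℝ) * al a ε - (a : ℝ) := by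
      unfold al
      push_cast
      ring
    rw [h1]
    have h2 := rSub _ _ _ _ (rMul _ _ _ _ (rI 2) rA) (rI a)
    simpa using h2
  have hd0 : (2 * g - (a : F)) ≠ 0 := by
    intro h0
    apply D.hD
    have h1 : (2 * g - (a : F)) ^ 2 = ((a ^ 2 - 4 * ε : ℤ) : F) := by
      push_cast
      have := D.hg
      linear_combination 4 * this
    rw [← h1, h0]
    simp
  have hea : Rl a ε g ((ε : ℝ) * al a ε) ((ε : F) * g) := rMul _ _ _ _ (rI ε) rA
  have hea0 : (ε : F) * g ≠ 0 := mul_ne_zero he0 hg0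
  -- the numbers `U_l`
  have hU : ∀ l : ℕ, ((ε : F) * g ^ 2) ^ l - 1 =
      ((ε : F) * g) ^ l * (2 * g - (a : F)) * ((U a ε l : ℤ) : F) := by
    intro l
    have h1 : Rl a ε g (pp a ε ^ l - 1) (((ε : F) * g ^ 2) ^ l - 1) :=
      rSub _ _ _ _ (rPow _ _ n3 l) r1
    have h2 : Rl a ε g ((ε * al a ε) ^ l * sD a ε * U a ε l)
        (((ε : F) * g) ^ l * (2 * g - (a : F)) * ((U a ε l : ℤ) : F)) :=
      rMul _ _ _ _ (rMul _ _ _ _ (rPow _ _ hea l) hsD) (rI _)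
    have h3 := rSub _ _ _ _ h1 h2
    rw [← pp_pow_sub h l, sub_self] at h3
    exact sub_eq_zero.1 (rZero _ h3)
  have hP : ∀ l : ℕ, 1 ≤ l → l < 2 * Tt ε m0 → l ≠ Tt ε m0 → ((ε : F) * g ^ 2) ^ l ≠ 1 := by
    intro l h1 h2 h3
    rcases Nat.lt_or_gt_of_ne h3 with h4 | h4
    · exact D.hord l h1 h4
    · have h5 : l = Tt ε m0 + (l - Tt ε m0) := by omega
      rw [h5, pow_add, n5, one_mul]
      exact D.hord _ (by omega) (by omega)
  have hUl : ∀ l : ℕ, 1 ≤ l → l < 2 * Tt ε m0 → l ≠ Tt ε m0 →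
      Rl a ε g (1 / (U a ε l : ℝ) ^ 3) ((((U a ε l : ℤ) : F)⁻¹) ^ 3) := by
    intro l h1 h2 h3
    have h4 : ((U a ε l : ℤ) : F) ≠ 0 := by
      intro h0
      have h5 := hU l
      rw [h0, mul_zero] at h5
      exact hP l h1 h2 h3 (sub_eq_zero.1 h5)
    have h6 := rPow _ _ (rInv _ _ (rI (U a ε l)) h4).2 3
    have h7 : (1 : ℝ) / (U a ε l : ℝ) ^ 3 = ((U a ε l : ℝ)⁻¹) ^ 3 := by
      rw [inv_pow, one_div]
    rw [h7]
    exact h6
  -- the prefactor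
  have hpre : ∀ K : ℕ, Rl a ε g ((ε * al a ε) ^ K * (-2 / sD a ε ^ 3))
      (((ε : F) * g) ^ K * (-2 * ((2 * g - (a : F))⁻¹) ^ 3)) := by
    intro K
    refine rMul _ _ _ _ (rPow _ _ hea K) ?_
    have h1 : (-2 : ℝ) / sD a ε ^ 3 = ((-2 : ℤ) : ℝ) * ((sD a ε)⁻¹) ^ 3 := by
      rw [inv_pow]
      push_cast
      rfl
    rw [h1]
    have h2 := rMul _ _ _ _ (rI (-2)) (rPow _ _ (rInv _ _ hsD hd0).2 3)
    simpa using h2
  constructor
  · intro K hK1 hK2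
    rw [hCF a ε h K hK1]
    have h1 : Rl a ε g (∑ l ∈ Icc 1 K, 1 / (U a ε l : ℝ) ^ 3)
        (∑ l ∈ Icc 1 K, (((U a ε l : ℤ) : F)⁻¹) ^ 3) := by
      refine rSum ℕ _ _ _ fun l hl => ?_
      rw [mem_Icc] at hl
      exact hUl l hl.1 (by omega) (by omega)
    exact ⟨_, rMul _ _ _ _ (hpre K) (rSub _ _ _ _ hSS h1)⟩
  · intro K hK1 hK2
    rw [hCF a ε h K (by omega)]
    obtain ⟨f, hf0, hf⟩ := n9
    -- `u / U_T`
    have hUT0 : (U a ε (Tt ε m0) : ℝ) ≠ 0 := (U_pos h _ hT).ne'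
    have hsD0 : sD a ε ≠ 0 := (sD_pos h).ne'
    have hal0 : (ε : ℝ) * al a ε ≠ 0 := by
      refine mul_ne_zero ?_ (al_pos h).ne'
      intro h0
      have := eps_mul h
      rw [h0] at this
      norm_num at this
    have hpT : pp a ε ^ Tt ε m0 - 1 ≠ 0 := by
      rw [pp_pow_sub h]
      exact mul_ne_zero (mul_ne_zero (pow_ne_zero _ hal0) hsD0) hUT0
    set u : ℝ := 1 + x0 a ε * pp a ε ^ m0 with hu
    set c : F := ((ε : F) * g) ^ Tt ε m0 * (2 * g - (a : F)) * f⁻¹ with hc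
    have hc0 : c ≠ 0 := mul_ne_zero (mul_ne_zero (pow_ne_zero _ hea0) hd0) (inv_ne_zero hf0)
    have huU : Rl a ε g (u / U a ε (Tt ε m0)) c := by
      have h1 : u / (U a ε (Tt ε m0) : ℝ) =
          (ε * al a ε) ^ Tt ε m0 * sD a ε * ((pp a ε ^ Tt ε m0 - 1) / u)⁻¹ := by
        rw [inv_div, ← mul_div_assoc, div_eq_div_iff hUT0 hpT, pp_pow_sub h]
        ring
      rw [h1]
      exact rMul _ _ _ _ (rMul _ _ _ _ (rPow _ _ hea _) hsD) (rInv _ _ hf hf0).2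
    -- the sum
    have h1 : Rl a ε g (∑ l ∈ Icc 1 K, u ^ 3 * (1 / (U a ε l : ℝ) ^ 3))
        (∑ l ∈ Icc 1 K, if l = Tt ε m0 then c ^ 3 else 0) := by
      refine rSum ℕ _ _ _ fun l hl => ?_
      rw [mem_Icc] at hl
      by_cases hlT : l = Tt ε m0
      · rw [if_pos hlT, hlT]
        have h2 := rPow _ _ huU 3
        have h3 : u ^ 3 * (1 / (U a ε (Tt ε m0) : ℝ) ^ 3) = (u / U a ε (Tt ε m0)) ^ 3 := by
          rw [div_pow]
          ring
        rw [h3]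
        exact h2
      · rw [if_neg hlT]
        have h2 := rMul _ _ _ _ (rPow _ _ n1 3) (hUl l hl.1 (by omega) hlT)
        simpa using h2
    rw [sum_ite_eq' (Icc 1 K) (Tt ε m0) (fun _ => c ^ 3),
      if_pos (mem_Icc.2 ⟨hT, hK1⟩)] at h1
    have h2 : Rl a ε g (u ^ 3 * SS a ε) 0 := by
      have h3 := rMul _ _ _ _ (rPow _ _ n1 3) hSS
      simpa using h3
    have h4 := rMul _ _ _ _ (hpre K) (rSub _ _ _ _ h2 h1)
    refine ⟨((ε : F) * g) ^ K * (-2 * ((2 * g - (a : F))⁻¹) ^ 3) * (0 - c ^ 3), ?_, ?_⟩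
    rotate_left
    · have h5 : u ^ 3 * ((ε * al a ε) ^ K * (-2 / sD a ε ^ 3) *
          (SS a ε - ∑ l ∈ Icc 1 K, 1 / (U a ε l : ℝ) ^ 3)) =
          (ε * al a ε) ^ K * (-2 / sD a ε ^ 3) *
          (u ^ 3 * SS a ε - ∑ l ∈ Icc 1 K, u ^ 3 * (1 / (U a ε l : ℝ) ^ 3)) := by
        rw [← mul_sum]
        ring
      rw [h5]
      exact h4
    · refine mul_ne_zero (mul_ne_zero (pow_ne_zero _ hea0) (mul_ne_zero (neg_ne_zero.2 D.h2)
        (pow_ne_zero _ (inv_ne_zero hd0)))) ?_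
      rw [zero_sub]
      exact neg_ne_zero.2 (pow_ne_zero _ hc0)

end Pool.Agent.H410.FC
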