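import Pool.Agent.H410.FC.Stm

/-!
Reductions of the `a(K,J)`.
-/

namespace Pool.Agent.H410.FC

open Finset Polynomial

theorem t_NV3 (hRL : S_RL) (hREC : S_REC) (hNV1 : S_NV1) (hNV2 : S_NV2) : S_NV3 := by
  intro a ε s v hOK hS m0 F iF g hD
  obtain ⟨r_int, r_al, r_add, r_mul, r_neg, r_inv, r_zpow, -, -, -⟩ := hRL a ε hOK F iF g hD.hg
  obtain ⟨hu0, hune, hp, hPne, hPT, hc, ⟨r1, hr1, hcm0⟩, ⟨r2, hr2, hcm1⟩, -⟩ :=
    hNV1 a ε v hOK m0 F iF g hD
  obtain ⟨h21, h22⟩ := hNV2 a ε s v hOK hS m0 F iF g hD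
  have hm0 := hD.hm0
  have hT : m0 + 1 < Tt ε m0 := by
    unfold Tt
    split_ifs <;> omega
  have hp0 : pp a ε ≠ 0 := pp_ne hOK
  have hrec : ∀ K : ℕ, 1 ≤ K → ∀ J : ℤ, ac (pp a ε) (x0 a ε) K (J + 1) =
      pp a ε ^ (K : ℤ) * ac (pp a ε) (x0 a ε) K J + -cc (pp a ε) (x0 a ε) (J + 1) := by
    intro K hK J
    rw [hREC (pp a ε) (x0 a ε) (Hpx_ok hOK) K hK J, zpow_natCast]
    ring
  have hrec' : ∀ K : ℕ, 1 ≤ K → ∀ J : ℤ, ac (pp a ε) (x0 a ε) K (J - 1) =
      pp a ε ^ (-(K : ℤ)) * (ac (pp a ε) (x0 a ε) K J + cc (pp a ε) (x0 a ε) J) := by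
    intro K hK J
    have h1 := hrec K hK (J - 1)
    rw [sub_add_cancel] at h1
    rw [h1, zpow_neg, neg_add_cancel_right, ← mul_assoc, inv_mul_cancel₀ (zpow_ne_zero _ hp0),
      one_mul]
  generalize Tt ε m0 = T at *
  generalize (1 : ℝ) + x0 a ε * pp a ε ^ m0 = u at *
  generalize hPd : (ε : F) * g ^ 2 = P at *
  generalize pp a ε = p at *
  generalize x0 a ε = x at *
  have hpz : ∀ n : ℤ, Rl a ε g (p ^ n) (P ^ n) := fun n => r_zpow p P hp hPne n
  -- part 1
  have part1 : ∀ K : ℕ, 1 ≤ K → K < T → ∀ J : ℤ, (m0 : ℤ) - T ≤ J → J < m0 →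
      ∃ f : F, Rl a ε g (ac p x K J) f := by
    intro K hK1 hKT
    have up : ∀ n : ℕ, (n : ℤ) < m0 → ∃ f : F, Rl a ε g (ac p x K n) f := by
      intro n
      induction n with
      | zero =>
        intro _
        exact_mod_cast h21 K hK1 hKT
      | succ n ih =>
        intro hn
        push_cast at hn
        obtain ⟨f, hf⟩ := ih (by omega)
        obtain ⟨f', hf'⟩ := hc ((n : ℤ) + 1) (by omega) (by omega) (by omega) (by omega)
        push_cast
        rw [hrec K hK1]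
        exact ⟨_, r_add _ _ _ _ (r_mul _ _ _ _ (hpz K) hf) (r_neg _ _ hf')⟩
    have down : ∀ n : ℕ, (m0 : ℤ) - T ≤ -(n : ℤ) → ∃ f : F, Rl a ε g (ac p x K (-(n : ℤ))) f := by
      intro n
      induction n with
      | zero =>
        intro _
        have := h21 K hK1 hKT
        simpa using this
      | succ n ih =>
        intro hn
        push_cast at hn
        obtain ⟨f, hf⟩ := ih (by omega)
        obtain ⟨f', hf'⟩ := hc (-(n : ℤ)) (by omega) (by omega) (by omega) (by omega)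
        have e : (-((n + 1 : ℕ) : ℤ)) = -(n : ℤ) - 1 := by push_cast; ring
        rw [e, hrec' K hK1]
        exact ⟨_, r_mul _ _ _ _ (hpz _) (r_add _ _ _ _ hf hf')⟩
    intro J h1 h2
    rcases le_or_gt 0 J with h | h
    · obtain ⟨n, rfl⟩ := Int.eq_ofNat_of_zero_le h
      exact up n h2
    · obtain ⟨n, hn⟩ := Int.eq_ofNat_of_zero_le (show 0 ≤ -J by omega)
      have e : J = -(n : ℤ) := by omega
      rw [e]
      exact down n (by omega)
  refine ⟨part1, ⟨-r1, neg_ne_zero.2 hr1, ?_⟩, ⟨r2, hr2, ?_⟩, ?_⟩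
  · intro K hK1 hKT
    have key : ∀ n : ℕ, (m0 : ℤ) + n < T →
        Rl a ε g (u * ac p x K ((m0 : ℤ) + n)) (P ^ ((K : ℤ) * n) * -r1) := by
      intro n
      induction n with
      | zero =>
        intro _
        obtain ⟨f, hf⟩ := part1 K hK1 hKT ((m0 : ℤ) - 1) (by omega) (by omega)
        have e := hrec K hK1 ((m0 : ℤ) - 1)
        rw [sub_add_cancel] at e
        have e2 : u * ac p x K ((m0 : ℤ) + (0 : ℕ)) =
            p ^ (K : ℤ) * (u * ac p x K ((m0 : ℤ) - 1)) + -(u * cc p x m0) := by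
          rw [Nat.cast_zero, add_zero, e]
          ring
        have e3 : P ^ ((K : ℤ) * ((0 : ℕ) : ℤ)) * -r1 = P ^ (K : ℤ) * (0 * f) + -r1 := by
          rw [Nat.cast_zero, mul_zero, zpow_zero]
          ring
        rw [e2, e3]
        exact r_add _ _ _ _ (r_mul _ _ _ _ (hpz K) (r_mul _ _ _ _ hu0 hf)) (r_neg _ _ hcm0)
      | succ n ih =>
        intro hn
        push_cast at hn
        have h1 := ih (by omega)
        obtain ⟨f', hf'⟩ := hc ((m0 : ℤ) + n + 1) (by omega) (by omega) (by omega) (by omega)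
        have e := hrec K hK1 ((m0 : ℤ) + n)
        have e2 : u * ac p x K ((m0 : ℤ) + ((n + 1 : ℕ) : ℤ)) =
            p ^ (K : ℤ) * (u * ac p x K ((m0 : ℤ) + n)) + -(u * cc p x ((m0 : ℤ) + n + 1)) := by
          rw [Nat.cast_add, Nat.cast_one, ← add_assoc, e]
          ring
        have e3 : P ^ ((K : ℤ) * ((n + 1 : ℕ) : ℤ)) * -r1 =
            P ^ (K : ℤ) * (P ^ ((K : ℤ) * n) * -r1) + -(0 * f') := by
          rw [Nat.cast_add, Nat.cast_one, mul_add, mul_one, zpow_add₀ hPne]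
          ring
        rw [e2, e3]
        exact r_add _ _ _ _ (r_mul _ _ _ _ (hpz K) h1) (r_neg _ _ (r_mul _ _ _ _ hu0 hf'))
    intro J h1 h2
    obtain ⟨n, hn⟩ := Int.eq_ofNat_of_zero_le (show 0 ≤ J - m0 by omega)
    have e : J = (m0 : ℤ) + n := by omega
    rw [hn, e]
    exact key n (by omega)
  · intro K hK1 hKT
    have key : ∀ n : ℕ, -(T : ℤ) < (m0 : ℤ) - T - 1 - n →
        Rl a ε g (u * ac p x K ((m0 : ℤ) - T - 1 - n)) (P ^ ((K : ℤ) * (-1 - n)) * r2) := by
      intro n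
      induction n with
      | zero =>
        intro _
        obtain ⟨f, hf⟩ := part1 K hK1 hKT ((m0 : ℤ) - T) (by omega) (by omega)
        have e := hrec' K hK1 ((m0 : ℤ) - T)
        have e2 : u * ac p x K ((m0 : ℤ) - T - 1 - (0 : ℕ)) =
            p ^ (-(K : ℤ)) * (u * ac p x K ((m0 : ℤ) - T) + u * cc p x ((m0 : ℤ) - T)) := by
          rw [Nat.cast_zero, sub_zero, e]
          ring
        have e3 : P ^ ((K : ℤ) * (-1 - ((0 : ℕ) : ℤ))) * r2 = P ^ (-(K : ℤ)) * (0 * f + r2) := by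
          have : (K : ℤ) * (-1 - ((0 : ℕ) : ℤ)) = -(K : ℤ) := by push_cast; ring
          rw [this]
          ring
        rw [e2, e3]
        exact r_mul _ _ _ _ (hpz _) (r_add _ _ _ _ (r_mul _ _ _ _ hu0 hf) hcm1)
      | succ n ih =>
        intro hn
        push_cast at hn
        have h1 := ih (by omega)
        obtain ⟨f', hf'⟩ := hc ((m0 : ℤ) - T - 1 - n) (by omega) (by omega) (by omega) (by omega)
        have e := hrec' K hK1 ((m0 : ℤ) - T - 1 - n)
        have e2 : u * ac p x K ((m0 : ℤ) - T - 1 - ((n + 1 : ℕ) : ℤ)) =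
            p ^ (-(K : ℤ)) * (u * ac p x K ((m0 : ℤ) - T - 1 - n) +
              u * cc p x ((m0 : ℤ) - T - 1 - n)) := by
          have : (m0 : ℤ) - T - 1 - ((n + 1 : ℕ) : ℤ) = (m0 : ℤ) - T - 1 - n - 1 := by
            push_cast
            ring
          rw [this, e]
          ring
        have e3 : P ^ ((K : ℤ) * (-1 - ((n + 1 : ℕ) : ℤ))) * r2 =
            P ^ (-(K : ℤ)) * (P ^ ((K : ℤ) * (-1 - n)) * r2 + 0 * f') := by
          have : (K : ℤ) * (-1 - ((n + 1 : ℕ) : ℤ)) = -(K : ℤ) + (K : ℤ) * (-1 - n) := by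
            push_cast
            ring
          rw [this, zpow_add₀ hPne]
          ring
        rw [e2, e3]
        exact r_mul _ _ _ _ (hpz _) (r_add _ _ _ _ h1 (r_mul _ _ _ _ hu0 hf'))
    intro J h1 h2
    obtain ⟨n, hn⟩ := Int.eq_ofNat_of_zero_le (show 0 ≤ (m0 : ℤ) - T - 1 - J by omega)
    have e : J = (m0 : ℤ) - T - 1 - n := by omega
    have e' : (m0 : ℤ) - T - 1 - n - m0 + T = -1 - n := by ring
    rw [e, e']
    exact key n (by omega)
  · intro K hK1 hKT
    obtain ⟨b, hb, hb0⟩ := h22 K hK1 hKT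
    have hK0 : 1 ≤ K := by omega
    have hu3 : ∀ m : ℤ, -(T : ℤ) < m → m < T → Rl a ε g (u ^ 3 * cc p x m) 0 := by
      intro m h1 h2
      have hsplit : u ^ 3 * cc p x m = u * (u * (u * cc p x m)) := by ring
      have hfin : ∀ f : F, Rl a ε g (u * cc p x m) f → Rl a ε g (u ^ 3 * cc p x m) 0 := by
        intro f hf
        have := r_mul _ _ _ _ hu0 (r_mul _ _ _ _ hu0 hf)
        rwa [zero_mul, ← hsplit] at this
      by_cases e1 : m = m0
      · subst e1
        exact hfin _ hcm0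
      · by_cases e2 : m = (m0 : ℤ) - T
        · subst e2
          exact hfin _ hcm1
        · obtain ⟨f, hf⟩ := hc m h1 h2 e1 e2
          exact hfin _ (r_mul _ _ _ _ hu0 hf)
    have up : ∀ n : ℕ, n < T → Rl a ε g (u ^ 3 * ac p x K n) (P ^ ((K : ℤ) * n) * b) := by
      intro n
      induction n with
      | zero =>
        intro _
        simpa using hb0
      | succ n ih =>
        intro hn
        have h1 := ih (by omega)
        have h2 := hu3 ((n : ℤ) + 1) (by omega) (by omega)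
        have e2 : u ^ 3 * ac p x K ((n + 1 : ℕ) : ℤ) =
            p ^ (K : ℤ) * (u ^ 3 * ac p x K n) + -(u ^ 3 * cc p x ((n : ℤ) + 1)) := by
          rw [Nat.cast_add, Nat.cast_one, hrec K hK0]
          ring
        have e3 : P ^ ((K : ℤ) * ((n + 1 : ℕ) : ℤ)) * b =
            P ^ (K : ℤ) * (P ^ ((K : ℤ) * n) * b) + -0 := by
          rw [Nat.cast_add, Nat.cast_one, mul_add, mul_one, zpow_add₀ hPne]
          ring
        rw [e2, e3]
        exact r_add _ _ _ _ (r_mul _ _ _ _ (hpz K) h1) (r_neg _ _ h2)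
    have down : ∀ n : ℕ, n < T →
        Rl a ε g (u ^ 3 * ac p x K (-(n : ℤ))) (P ^ ((K : ℤ) * -(n : ℤ)) * b) := by
      intro n
      induction n with
      | zero =>
        intro _
        simpa using hb0
      | succ n ih =>
        intro hn
        have h1 := ih (by omega)
        have h2 := hu3 (-(n : ℤ)) (by omega) (by omega)
        have e2 : u ^ 3 * ac p x K (-((n + 1 : ℕ) : ℤ)) =
            p ^ (-(K : ℤ)) * (u ^ 3 * ac p x K (-(n : ℤ)) + u ^ 3 * cc p x (-(n : ℤ))) := by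
          have : (-((n + 1 : ℕ) : ℤ)) = -(n : ℤ) - 1 := by push_cast; ring
          rw [this, hrec' K hK0]
          ring
        have e3 : P ^ ((K : ℤ) * -((n + 1 : ℕ) : ℤ)) * b =
            P ^ (-(K : ℤ)) * (P ^ ((K : ℤ) * -(n : ℤ)) * b + 0) := by
          have : (K : ℤ) * -((n + 1 : ℕ) : ℤ) = -(K : ℤ) + (K : ℤ) * -(n : ℤ) := by
            push_cast
            ring
          rw [this, zpow_add₀ hPne]
          ring
        rw [e2, e3]
        exact r_mul _ _ _ _ (hpz _) (r_add _ _ _ _ h1 h2)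
    refine ⟨b, hb, fun J h1 h2 => ?_⟩
    rcases le_or_gt 0 J with h | h
    · obtain ⟨n, rfl⟩ := Int.eq_ofNat_of_zero_le h
      exact up n (by omega)
    · obtain ⟨n, hn⟩ := Int.eq_ofNat_of_zero_le (show 0 ≤ -J by omega)
      have e : J = -(n : ℤ) := by omega
      rw [e]
      exact down n (by omega)

end Pool.Agent.H410.FC
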