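import Pool.Agent.H410.FC.Stm

/-!
Proof of `S_NV4` (helper898).
-/

namespace Pool.Agent.H410.FC

open Finset Polynomial

namespace P_NV4

theorem ne_zero_of_pow {F : Type} [Field F] {P : F} {T : ℕ} (hP : P ^ T = 1) (hT : 0 < T) :
    P ≠ 0 := by
  intro h
  rw [h, zero_pow hT.ne'] at hP
  exact zero_ne_one hP

theorem inj_pow {F : Type} [Field F] {P : F} {T : ℕ} (hP : P ^ T = 1) (hT : 0 < T)
    (hord : ∀ k : ℕ, 0 < k → k < T → P ^ k ≠ 1) (c n : ℕ) (hn : n ≤ T) :
    Function.Injective (fun i : Fin n => P ^ (c + (i : ℕ))) := by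
  have hP0 : P ≠ 0 := ne_zero_of_pow hP hT
  have key : ∀ i j : ℕ, i < j → j < T → P ^ (c + i) = P ^ (c + j) → False := by
    intro i j hij hj h
    apply hord (j - i) (by omega) (by omega)
    have h1 : P ^ (c + i) * P ^ (j - i) = P ^ (c + i) * 1 := by
      rw [← pow_add, mul_one, h]
      congr 1
      omega
    exact mul_left_cancel₀ (pow_ne_zero _ hP0) h1
  intro i j h
  have hi := i.isLt
  have hj := j.isLt
  rcases lt_trichotomy (i : ℕ) j with h1 | h1 | h1
  · exact (key i j h1 (by omega) h).elim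
  · exact Fin.ext h1
  · exact (key j i h1 (by omega) h.symm).elim

theorem det_block {F : Type} [Field F] {P : F} {T : ℕ} (hP : P ^ T = 1) (hT : 0 < T)
    (hord : ∀ k : ℕ, 0 < k → k < T → P ^ k ≠ 1) (c n : ℕ) (hn : n ≤ T) (z : ℤ)
    (r s : Fin n → F) (hr : ∀ i, r i ≠ 0) (hs : ∀ i, s i ≠ 0) :
    (Matrix.of fun i j : Fin n =>
      r i * (s j * P ^ (((c + (i : ℕ) : ℕ) : ℤ) * (z + ((j : ℕ) : ℤ))))).det ≠ 0 := by
  have hP0 : P ≠ 0 := ne_zero_of_pow hP hT
  have e : (Matrix.of fun i j : Fin n =>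
      r i * (s j * P ^ (((c + (i : ℕ) : ℕ) : ℤ) * (z + ((j : ℕ) : ℤ))))) =
      Matrix.of fun i j : Fin n => (r i * P ^ (((c + (i : ℕ) : ℕ) : ℤ) * z)) *
        (Matrix.of (fun i j : Fin n =>
          s j * Matrix.vandermonde (fun i : Fin n => P ^ (c + (i : ℕ))) i j)) i j := by
    ext i j
    simp only [Matrix.of_apply, Matrix.vandermonde_apply]
    have h1 : P ^ (((c + (i : ℕ) : ℕ) : ℤ) * ((j : ℕ) : ℤ)) =
        (P ^ (c + (i : ℕ))) ^ (j : ℕ) := by
      rw [← pow_mul, ← Int.natCast_mul, zpow_natCast]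
    rw [mul_add, zpow_add₀ hP0, h1]
    ring
  rw [e, Matrix.det_mul_column, Matrix.det_mul_row]
  refine mul_ne_zero (Finset.prod_ne_zero_iff.2 fun i _ =>
    mul_ne_zero (hr i) (zpow_ne_zero _ hP0))
    (mul_ne_zero (Finset.prod_ne_zero_iff.2 fun i _ => hs i) ?_)
  rw [Matrix.det_vandermonde_ne_zero_iff]
  exact inj_pow hP hT hord c n hn

end P_NV4

theorem t_NV4 (hRL : S_RL) : S_NV4 := by
  intro a ε hOK F instF g hg T m0 u P A ρ ρ' b f hm1 hmT hu hPT hord hρ hρ' hb h1 h2 h3 h4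
  obtain ⟨rInt, -, rAdd, rMul, rNeg, rInv, -, -, -, rDet⟩ := hRL a ε hOK F instF g hg
  have hT0 : 0 < T := by omega
  have hP0 : P ≠ 0 := P_NV4.ne_zero_of_pow hPT hT0
  have rSub : ∀ z w f h, Rl a ε g z f → Rl a ε g w h → Rl a ε g (z - w) (f - h) := by
    intro z w f h hz hw
    rw [sub_eq_add_neg, sub_eq_add_neg]
    exact rAdd _ _ _ _ hz (rNeg _ _ hw)
  -- `u ≠ 0`
  have hu0 : u ≠ 0 := by
    have e := h2 1 le_rfl (by omega) m0 le_rfl (by exact_mod_cast hmT)
    have e0 : P ^ (((1 : ℕ) : ℤ) * ((m0 : ℤ) - m0)) * ρ ≠ 0 :=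
      mul_ne_zero (zpow_ne_zero _ hP0) hρ
    exact left_ne_zero_of_mul (rInv _ _ e e0).1
  intro hdet
  obtain ⟨w, hw0, hw⟩ := Matrix.exists_vecMul_eq_zero_iff.2 hdet
  -- the relations
  have hrel : ∀ J : ℤ, -(T : ℤ) < J → J < T →
      ∑ k : Fin (2 * (T - 1) + 1), w k * A ((k : ℕ) + 1) J = 0 := by
    intro J hJ1 hJ2
    have hj : (J + ((T - 1 : ℕ) : ℤ)).toNat < 2 * (T - 1) + 1 := by omega
    have := congrFun hw ⟨(J + ((T - 1 : ℕ) : ℤ)).toNat, hj⟩
    simp only [Matrix.vecMul, dotProduct, Matrix.of_apply, Pi.zero_apply] at this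
    have e : -((T - 1 : ℕ) : ℤ) + (((J + ((T - 1 : ℕ) : ℤ)).toNat : ℕ) : ℤ) = J := by omega
    rw [e] at this
    exact this
  have hN : (T - 1) + T = 2 * (T - 1) + 1 := by omega
  let e : Fin (T - 1) ⊕ Fin T ≃ Fin (2 * (T - 1) + 1) := finSumFinEquiv.trans (finCongr hN)
  have el : ∀ i : Fin (T - 1), ((e (Sum.inl i) : Fin (2 * (T - 1) + 1)) : ℕ) = i := by
    intro i
    simp [e]
  have er : ∀ i : Fin T, ((e (Sum.inr i) : Fin (2 * (T - 1) + 1)) : ℕ) = T - 1 + i := by
    intro i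
    simp [e]
  let sc : Fin (T - 1) ⊕ Fin T → ℝ := Sum.elim (fun _ => 1) (fun _ => u ^ 3)
  have hsc : ∀ s, sc s ≠ 0 := by
    rintro (i | i)
    · simp [sc]
    · simp [sc, hu0]
  let col : Fin (T - 1) ⊕ Fin T → ℕ → ℝ := Sum.elim
    (fun j K => u * (A K ((j : ℕ) + 1) - A K ((j : ℕ) + 1 - T)))
    (fun j K => A K ((m0 : ℤ) - T + (j : ℕ)))
  let B : Matrix (Fin (T - 1) ⊕ Fin T) (Fin (T - 1) ⊕ Fin T) ℝ :=
    Matrix.of fun s c => sc s * col c ((e s : ℕ) + 1)
  let G : Matrix (Fin (T - 1) ⊕ Fin T) (Fin (T - 1) ⊕ Fin T) F :=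
    Matrix.fromBlocks
      (Matrix.of fun i j : Fin (T - 1) =>
        (1 : F) * ((if m0 ≤ (j : ℕ) + 1 then ρ else -ρ') *
          P ^ (((1 + (i : ℕ) : ℕ) : ℤ) * ((1 - (m0 : ℤ)) + ((j : ℕ) : ℤ)))))
      (Matrix.of fun (i : Fin (T - 1)) (j : Fin T) => f ((i : ℕ) + 1) ((m0 : ℤ) - T + (j : ℕ)))
      0
      (Matrix.of fun i j : Fin T =>
        b (T + (i : ℕ)) * ((1 : F) *
          P ^ (((T + (i : ℕ) : ℕ) : ℤ) * (((m0 : ℤ) - T) + ((j : ℕ) : ℤ)))))
  have hG : G.det ≠ 0 := by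
    rw [Matrix.det_fromBlocks_zero₂₁]
    refine mul_ne_zero ?_ ?_
    · apply P_NV4.det_block hPT hT0 hord 1 (T - 1) (by omega) (1 - (m0 : ℤ))
        (fun _ => (1 : F)) (fun j : Fin (T - 1) => if m0 ≤ (j : ℕ) + 1 then ρ else -ρ')
      · intro i
        exact one_ne_zero
      · intro j
        split_ifs
        · exact hρ
        · exact neg_ne_zero.2 hρ'
    · apply P_NV4.det_block hPT hT0 hord T T le_rfl ((m0 : ℤ) - T)
        (fun i : Fin T => b (T + (i : ℕ))) (fun _ => (1 : F))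
      · intro i
        have := i.isLt
        exact hb _ (by omega) (by omega)
      · intro i
        exact one_ne_zero
  have hBG : ∀ s c, Rl a ε g (B s c) (G s c) := by
    rintro (i | i) (j | j)
    · -- K < T, J outside
      have hi := i.isLt
      have hj := j.isLt
      have eB : B (Sum.inl i) (Sum.inl j) =
          u * A ((i : ℕ) + 1) ((j : ℕ) + 1) - u * A ((i : ℕ) + 1) ((j : ℕ) + 1 - T) := by
        simp only [B, sc, col, Matrix.of_apply, Sum.elim_inl, el]
        ring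
      rw [eB]
      by_cases hc : m0 ≤ (j : ℕ) + 1
      · have eG : G (Sum.inl i) (Sum.inl j) =
            P ^ ((((i : ℕ) + 1 : ℕ) : ℤ) * ((((j : ℕ) : ℤ) + 1) - m0)) * ρ -
              0 * f ((i : ℕ) + 1) ((j : ℕ) + 1 - T) := by
          simp only [G, Matrix.fromBlocks_apply₁₁, Matrix.of_apply, if_pos hc]
          rw [one_mul, zero_mul, sub_zero, mul_comm, add_comm 1 (i : ℕ)]
          congr 3
          ring
        rw [eG]
        apply rSub
        · exact h2 _ (by omega) (by omega) _ (by omega) (by omega)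
        · apply rMul _ _ _ _ hu
          exact h1 _ (by omega) (by omega) _ (by omega) (by omega)
      · have eG : G (Sum.inl i) (Sum.inl j) =
            0 * f ((i : ℕ) + 1) ((j : ℕ) + 1) -
            P ^ ((((i : ℕ) + 1 : ℕ) : ℤ) * ((((j : ℕ) : ℤ) + 1 - T) - m0 + T)) * ρ' := by
          simp only [G, Matrix.fromBlocks_apply₁₁, Matrix.of_apply, if_neg hc]
          rw [one_mul, zero_mul, zero_sub, neg_mul, mul_comm, add_comm 1 (i : ℕ)]
          congr 4
          ring
        rw [eG]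
        apply rSub
        · apply rMul _ _ _ _ hu
          exact h1 _ (by omega) (by omega) _ (by omega) (by omega)
        · exact h3 _ (by omega) (by omega) _ (by omega) (by omega)
    · have hi := i.isLt
      have hj := j.isLt
      have eB : B (Sum.inl i) (Sum.inr j) = A ((i : ℕ) + 1) ((m0 : ℤ) - T + (j : ℕ)) := by
        simp only [B, sc, col, Matrix.of_apply, Sum.elim_inl, Sum.elim_inr, el]
        ring
      have eG : G (Sum.inl i) (Sum.inr j) = f ((i : ℕ) + 1) ((m0 : ℤ) - T + (j : ℕ)) := by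
        simp only [G, Matrix.fromBlocks_apply₁₂, Matrix.of_apply]
      rw [eB, eG]
      exact h1 _ (by omega) (by omega) _ (by omega) (by omega)
    · have hi := i.isLt
      have hj := j.isLt
      have eK : ((e (Sum.inr i) : Fin (2 * (T - 1) + 1)) : ℕ) + 1 = T + i := by
        rw [er]
        omega
      have eB : B (Sum.inr i) (Sum.inl j) =
          u * (u ^ 3 * A (T + i) ((j : ℕ) + 1) - u ^ 3 * A (T + i) ((j : ℕ) + 1 - T)) := by
        simp only [B, sc, col, Matrix.of_apply, Sum.elim_inl, Sum.elim_inr, eK]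
        ring
      have eG : G (Sum.inr i) (Sum.inl j) =
          0 * (P ^ (((T + (i : ℕ) : ℕ) : ℤ) * (((j : ℕ) : ℤ) + 1)) * b (T + i) -
            P ^ (((T + (i : ℕ) : ℕ) : ℤ) * (((j : ℕ) : ℤ) + 1 - T)) * b (T + i)) := by
        simp only [G, Matrix.fromBlocks_apply₂₁, Matrix.zero_apply, zero_mul]
      rw [eB, eG]
      apply rMul _ _ _ _ hu
      apply rSub
      · exact h4 _ (by omega) (by omega) _ (by omega) (by omega)
      · exact h4 _ (by omega) (by omega) _ (by omega) (by omega)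
    · have hi := i.isLt
      have hj := j.isLt
      have eK : ((e (Sum.inr i) : Fin (2 * (T - 1) + 1)) : ℕ) + 1 = T + i := by
        rw [er]
        omega
      have eB : B (Sum.inr i) (Sum.inr j) = u ^ 3 * A (T + i) ((m0 : ℤ) - T + (j : ℕ)) := by
        simp only [B, sc, col, Matrix.of_apply, Sum.elim_inr, eK]
      have eG : G (Sum.inr i) (Sum.inr j) =
          P ^ (((T + (i : ℕ) : ℕ) : ℤ) * (((m0 : ℤ) - T + (j : ℕ)))) * b (T + i) := by
        simp only [G, Matrix.fromBlocks_apply₂₂, Matrix.of_apply]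
        rw [one_mul, mul_comm]
      rw [eB, eG]
      exact h4 _ (by omega) (by omega) _ (by omega) (by omega)
  have hB : B.det ≠ 0 := rDet _ B G hBG hG
  apply hB
  refine Matrix.exists_vecMul_eq_zero_iff.1 ⟨fun s => w (e s) / sc s, ?_, ?_⟩
  · intro h0
    apply hw0
    funext k
    have := congrFun h0 (e.symm k)
    simp only [Equiv.apply_symm_apply, Pi.zero_apply, div_eq_zero_iff, hsc, or_false] at this
    exact this
  · have key : ∀ J : ℤ, -(T : ℤ) < J → J < T →
        ∑ s : Fin (T - 1) ⊕ Fin T, w (e s) * A ((e s : ℕ) + 1) J = 0 := by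
      intro J hJ1 hJ2
      rw [← hrel J hJ1 hJ2]
      exact Equiv.sum_comp e (fun k : Fin (2 * (T - 1) + 1) => w k * A ((k : ℕ) + 1) J)
    funext c
    simp only [Matrix.vecMul, dotProduct, Pi.zero_apply]
    have e1 : ∀ s, w (e s) / sc s * B s c = w (e s) * col c ((e s : ℕ) + 1) := by
      intro s
      simp only [B, Matrix.of_apply]
      rw [← mul_assoc, div_mul_cancel₀ _ (hsc s)]
    rw [Finset.sum_congr rfl fun s _ => e1 s]
    rcases c with j | j
    · have hj := j.isLt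
      simp only [col, Sum.elim_inl]
      have e2 : ∀ s, w (e s) * (u * (A ((e s : ℕ) + 1) ((j : ℕ) + 1) -
          A ((e s : ℕ) + 1) ((j : ℕ) + 1 - T))) =
          u * (w (e s) * A ((e s : ℕ) + 1) ((j : ℕ) + 1)) -
            u * (w (e s) * A ((e s : ℕ) + 1) ((j : ℕ) + 1 - T)) := by
        intro s
        ring
      rw [Finset.sum_congr rfl fun s _ => e2 s, Finset.sum_sub_distrib, ← Finset.mul_sum,
        ← Finset.mul_sum, key _ (by omega) (by omega), key _ (by omega) (by omega)]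
      ring
    · have hj := j.isLt
      simp only [col, Sum.elim_inr]
      exact key _ (by omega) (by omega)

end Pool.Agent.H410.FC
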