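import Pool.Agent.H410.FC.Stm

/-! PHI (helper686): `|Φ_n(y)| ≤ 16 |y|^φ(n)` for `|y| ≥ 3/2`, `|Φ_n(y)| ≤ 16` for `|y| ≤ 2/3`. -/

set_option autoImplicit false

namespace Pool.Agent.H410.FC

open Finset Polynomial

namespace P_PHI

open ArithmeticFunction in
open scoped ArithmeticFunction.Moebius in
/-- the factors -/
theorem fac_le {x y : ℝ} (hy0 : 0 ≤ y) (hy1 : y < 1) (hxy : |x| ≤ y) (m : ℕ) :
    |(1 - x) ^ (μ m)| ≤ (1 - y)⁻¹ := by
  have h1 : 0 < 1 - y := by linarith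
  obtain ⟨hx1, hx2⟩ := abs_le.1 hxy
  have h2 : 1 ≤ (1 - y)⁻¹ := one_le_inv₀ h1 |>.2 (by linarith)
  have hpos : 0 < 1 - x := by linarith
  rcases moebius_eq_or m with h | h | h
  · rw [h, zpow_zero, abs_one]
    exact h2
  · rw [h, zpow_one, abs_of_pos hpos, le_inv_comm₀ hpos h1]
    rw [← one_div, le_div_iff₀ hpos]
    nlinarith
  · rw [h, zpow_neg_one, abs_of_pos (inv_pos.2 hpos)]
    exact inv_anti₀ h1 (by linarith)

/-- the product of the factors -/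
theorem prod_ge (n : ℕ) : (1 / 16 : ℝ) ≤ ∏ e ∈ Icc 1 n, (1 - (2 / 3 : ℝ) ^ e) := by
  have h : ∀ n : ℕ, 4 ≤ n →
      (6175 / 59049 : ℝ) * (1 - 3 * (2 / 3) ^ 5 + 3 * (2 / 3) ^ (n + 1)) ≤
        ∏ e ∈ Icc 1 n, (1 - (2 / 3 : ℝ) ^ e) := by
    intro n hn
    induction n, hn using Nat.le_induction with
    | base =>
      rw [prod_Icc_succ_top (by omega), prod_Icc_succ_top (by omega),
        prod_Icc_succ_top (by omega), Icc_self, prod_singleton]
      norm_num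
    | succ n hn ih =>
      rw [prod_Icc_succ_top (by omega)]
      have h1 : (0 : ℝ) < (2 / 3) ^ (n + 1) := by positivity
      have h2 : (2 / 3 : ℝ) ^ (n + 1) ≤ (2 / 3) ^ 5 :=
        pow_le_pow_of_le_one (by norm_num) (by norm_num) (by omega)
      have h3 : (2 / 3 : ℝ) ^ (n + 1 + 1) = (2 / 3) * (2 / 3) ^ (n + 1) := by ring
      rw [h3]
      generalize (2 / 3 : ℝ) ^ (n + 1) = s at ih h1 h2 ⊢
      have h5 : (2 / 3 : ℝ) ^ 5 = 32 / 243 := by norm_num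
      rw [h5] at ih h2 ⊢
      have h4 : (0 : ℝ) ≤ 1 - s := by linarith
      refine le_trans ?_ (mul_le_mul_of_nonneg_right ih h4)
      have h6 : 0 ≤ s * (32 / 243 - s) := mul_nonneg h1.le (by linarith)
      nlinarith
  rcases le_or_gt 4 n with hn | hn
  · have h1 := h n hn
    have h2 : (0 : ℝ) < (2 / 3) ^ (n + 1) := by positivity
    refine le_trans ?_ h1
    have h3 : (6175 / 59049 : ℝ) * (1 - 3 * (2 / 3) ^ 5) ≤
        (6175 / 59049 : ℝ) * (1 - 3 * (2 / 3) ^ 5 + 3 * (2 / 3) ^ (n + 1)) :=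
      mul_le_mul_of_nonneg_left (by linarith) (by norm_num)
    refine le_trans ?_ h3
    norm_num
  · have h0 : Icc 1 0 = (∅ : Finset ℕ) := rfl
    interval_cases n
    · norm_num
    · rw [Icc_self, prod_singleton]
      norm_num
    · rw [prod_Icc_succ_top (by omega), Icc_self, prod_singleton]
      norm_num
    · rw [prod_Icc_succ_top (by omega), prod_Icc_succ_top (by omega), Icc_self, prod_singleton]
      norm_num

theorem one_sub_pos {z : ℝ} (hz : |z| ≤ 2 / 3) {m : ℕ} (hm : 0 < m) : 0 < 1 - z ^ m := by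
  have h1 : |z ^ m| ≤ (2 / 3 : ℝ) ^ m := by
    rw [abs_pow]
    exact pow_le_pow_left₀ (abs_nonneg _) hz m
  have h2 : (2 / 3 : ℝ) ^ m < 1 := pow_lt_one₀ (by norm_num) (by norm_num) hm.ne'
  have h3 := (abs_le.1 h1).2
  linarith

open ArithmeticFunction in
open scoped ArithmeticFunction.Moebius in
/-- the bound from the Moebius inversion -/
theorem gen {z : ℝ} (hz : |z| ≤ 2 / 3) {f : ℕ → ℝ}
    (hfg : ∀ m : ℕ, 0 < m → ∏ d ∈ m.divisors, f d = 1 - z ^ m) {n : ℕ} (hn : 1 ≤ n) :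
    |f n| ≤ 16 := by
  have hq : ∀ m : ℕ, |z ^ m| ≤ (2 / 3 : ℝ) ^ m := by
    intro m
    rw [abs_pow]
    exact pow_le_pow_left₀ (abs_nonneg _) hz m
  have hlt : ∀ m : ℕ, 0 < m → (2 / 3 : ℝ) ^ m < 1 := fun m hm =>
    pow_lt_one₀ (by norm_num) (by norm_num) hm.ne'
  have hg0 : ∀ m : ℕ, 0 < m → 1 - z ^ m ≠ 0 := fun m hm => (one_sub_pos hz hm).ne'
  have hf0 : ∀ m : ℕ, 0 < m → f m ≠ 0 := by
    intro m hm h
    apply hg0 m hm
    rw [← hfg m hm]
    exact prod_eq_zero (Nat.mem_divisors_self m hm.ne') h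
  have hinv := (prod_eq_iff_prod_pow_moebius_eq_of_nonzero hf0 hg0).1 hfg n hn
  rw [← hinv, abs_prod]
  have h1 : ∏ x ∈ n.divisorsAntidiagonal, |(1 - z ^ x.2) ^ μ x.1| ≤
      ∏ x ∈ n.divisorsAntidiagonal, (1 - (2 / 3 : ℝ) ^ x.2)⁻¹ := by
    refine prod_le_prod (fun _ _ => abs_nonneg _) fun x hx => ?_
    have hx2 : 0 < x.2 := by
      have := Nat.mem_divisorsAntidiagonal.1 hx
      rcases Nat.eq_zero_or_pos x.2 with h | h
      · rw [h, mul_zero] at this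
        omega
      · exact h
    exact fac_le (by positivity) (hlt _ hx2) (hq _) _
  refine h1.trans ?_
  have h2 : ∏ x ∈ n.divisorsAntidiagonal, (1 - (2 / 3 : ℝ) ^ x.2)⁻¹ =
      ∏ e ∈ n.divisors, (1 - (2 / 3 : ℝ) ^ e)⁻¹ :=
    Nat.prod_divisorsAntidiagonal' (fun _ e => (1 - (2 / 3 : ℝ) ^ e)⁻¹)
  rw [h2]
  have h3 : ∏ e ∈ n.divisors, (1 - (2 / 3 : ℝ) ^ e)⁻¹ ≤
      ∏ e ∈ Icc 1 n, (1 - (2 / 3 : ℝ) ^ e)⁻¹ := by
    have hone : ∀ e : ℕ, 0 < e → 1 ≤ (1 - (2 / 3 : ℝ) ^ e)⁻¹ := by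
      intro e he
      have h4 := hlt e he
      have h5 : (0 : ℝ) < (2 / 3) ^ e := by positivity
      exact (one_le_inv₀ (by linarith)).2 (by linarith)
    refine prod_le_prod_of_subset_of_one_le ?_ ?_ ?_
    · intro e he
      rw [Nat.mem_divisors] at he
      exact mem_Icc.2 ⟨Nat.pos_of_dvd_of_pos he.1 hn, Nat.le_of_dvd hn he.1⟩
    · intro e he
      exact zero_le_one.trans (hone e (Nat.pos_of_mem_divisors he))
    · intro e he _
      exact hone e (mem_Icc.1 he).1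
  refine h3.trans ?_
  rw [prod_inv_distrib]
  have h4 := prod_ge n
  calc (∏ e ∈ Icc 1 n, (1 - (2 / 3 : ℝ) ^ e))⁻¹ ≤ (1 / 16 : ℝ)⁻¹ := inv_anti₀ (by norm_num) h4
    _ = 16 := by norm_num

/-- the product of the values of the cyclotomic polynomials -/
theorem prod_cyc (y : ℝ) {m : ℕ} (hm : 0 < m) :
    ∏ d ∈ m.divisors, (cyclotomic d ℝ).eval y = y ^ m - 1 := by
  have h1 := congrArg (fun P : ℝ[X] => P.eval y) (prod_cyclotomic_eq_X_pow_sub_one hm ℝ)
  simpa only [eval_prod, eval_sub, eval_pow, eval_X, eval_one] using h1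

end P_PHI

theorem t_PHI : S_PHI := by
  intro y n hn
  refine ⟨fun hy => ?_, fun hy => ?_⟩
  · have hy0 : y ≠ 0 := by
      intro h
      rw [h, abs_zero] at hy
      norm_num at hy
    have hz : |y⁻¹| ≤ 2 / 3 := by
      rw [abs_inv]
      calc |y|⁻¹ ≤ (3 / 2 : ℝ)⁻¹ := inv_anti₀ (by norm_num) hy
        _ = 2 / 3 := by norm_num
    have h := P_PHI.gen hz (f := fun d => |(cyclotomic d ℝ).eval y / y ^ Nat.totient d|) ?_ hn
    · rw [abs_abs, abs_div, abs_pow, div_le_iff₀ (by positivity)] at h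
      exact h
    · intro m hm
      rw [← abs_prod, prod_div_distrib, P_PHI.prod_cyc y hm, prod_pow_eq_pow_sum,
        Nat.sum_totient, sub_div, div_self (pow_ne_zero _ hy0), one_div, ← inv_pow]
      exact abs_of_pos (P_PHI.one_sub_pos hz hm)
  · have h := P_PHI.gen hy (f := fun d => |(cyclotomic d ℝ).eval y|) ?_ hn
    · rw [abs_abs] at h
      exact h
    · intro m hm
      rw [← abs_prod, P_PHI.prod_cyc y hm, abs_sub_comm]
      exact abs_of_pos (P_PHI.one_sub_pos hy hm)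

end Pool.Agent.H410.FC
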