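import Pool.Agent.H410.FC.Stm

/-!
The reduction of `LW` to `LL` (S_RED).
-/

set_option autoImplicit false

namespace Pool.Agent.H410.FC

open Finset Polynomial
open Pool.Agent.H475.QZ (nu)

namespace P_RED

/-- the iterated recurrence -/
lemma iter_rec (hREC : S_REC) {p x : ℝ} (h : Hpx p x) {K : ℕ} (hK : 1 ≤ K) (J : ℤ) (m : ℕ) :
    (p ^ K) ^ m * ac p x K J = ac p x K (J + m) +
      ∑ i ∈ range m, (p ^ K) ^ (m - 1 - i) * cc p x (J + i + 1) := by
  induction m with
  | zero => simp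
  | succ m ih =>
    rw [pow_succ', mul_assoc, ih, sum_range_succ]
    have h1 := hREC p x h K hK (J + m)
    have h2 : (J + ((m + 1 : ℕ) : ℤ)) = J + m + 1 := by push_cast; ring
    rw [h2, h1, mul_add, mul_sum]
    have h3 : ∑ i ∈ range m, p ^ K * ((p ^ K) ^ (m - 1 - i) * cc p x (J + i + 1)) =
        ∑ i ∈ range m, (p ^ K) ^ (m + 1 - 1 - i) * cc p x (J + i + 1) := by
      refine sum_congr rfl fun i hi => ?_
      rw [mem_range] at hi
      rw [← mul_assoc, ← pow_succ']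
      congr 2
      omega
    rw [h3]
    have h4 : m + 1 - 1 - m = 0 := by omega
    rw [h4, pow_zero, one_mul]
    ring

lemma red_one (hREC : S_REC) (hDIV : S_DIV) {p x : ℝ} (h : Hpx p x) (N n0 : ℕ)
    (F1 G : Polynomial ℝ) (hF : F1.natDegree + n0 < N) :
    LW p x N n0 (X ^ n0 * F1) G = LL p x N F1 G := by
  unfold LW LL
  have h1 : ∀ k ∈ range N, ∀ j ∈ range N,
      (X ^ n0 * F1).eval (p ^ (k + 1)) / pik p N k * ac p x (k + 1) (-(n0 : ℤ) + (j : ℤ)) *
        G.coeff j =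
      F1.eval (p ^ (k + 1)) / pik p N k * ac p x (k + 1) (j : ℤ) * G.coeff j +
      ∑ i ∈ range n0, (F1 * X ^ (n0 - 1 - i)).eval (p ^ (k + 1)) / pik p N k *
        (cc p x (-(n0 : ℤ) + (j : ℤ) + i + 1) * G.coeff j) := by
    intro k _ j _
    have h2 := iter_rec hREC h (Nat.le_add_left 1 k) (-(n0 : ℤ) + (j : ℤ)) n0
    have h3 : -(n0 : ℤ) + (j : ℤ) + (n0 : ℤ) = j := by ring
    rw [h3] at h2
    rw [eval_mul, eval_pow, eval_X]
    calc (p ^ (k + 1)) ^ n0 * F1.eval (p ^ (k + 1)) / pik p N k *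
          ac p x (k + 1) (-(n0 : ℤ) + (j : ℤ)) * G.coeff j
        = F1.eval (p ^ (k + 1)) / pik p N k *
          ((p ^ (k + 1)) ^ n0 * ac p x (k + 1) (-(n0 : ℤ) + (j : ℤ))) * G.coeff j := by ring
      _ = _ := by
        rw [h2, mul_add, add_mul, mul_sum, sum_mul]
        congr 1
        refine sum_congr rfl fun i _ => ?_
        rw [eval_mul, eval_pow, eval_X]
        ring
  rw [sum_congr rfl fun k hk => sum_congr rfl fun j hj => h1 k hk j hj]
  simp_rw [sum_add_distrib]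
  rw [add_eq_left]
  have h2 : ∀ i ∈ range n0, ∑ k ∈ range N,
      (F1 * X ^ (n0 - 1 - i)).eval (p ^ (k + 1)) / pik p N k = 0 := by
    intro i hi
    rw [mem_range] at hi
    apply (hDIV p h.1 N (by omega)).1
    have h3 : (F1 * X ^ (n0 - 1 - i)).natDegree ≤ F1.natDegree + (n0 - 1 - i) := by
      refine natDegree_mul_le.trans ?_
      rw [natDegree_X_pow]
    omega
  rw [sum_comm]
  apply sum_eq_zero
  intro j _
  rw [sum_comm]
  apply sum_eq_zero
  intro i hi
  rw [← sum_mul, h2 i hi, zero_mul]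

lemma red_two {p x : ℝ} (N n0 : ℕ) (F G1 : Polynomial ℝ) (hG : G1.natDegree + n0 < N) :
    LW p x N n0 F (X ^ n0 * G1) = LL p x N F G1 := by
  unfold LW LL
  refine sum_congr rfl fun k _ => ?_
  obtain ⟨M, rfl⟩ : ∃ M, N = n0 + M := ⟨N - n0, by omega⟩
  rw [sum_range_add]
  have h1 : ∑ j ∈ range n0, F.eval (p ^ (k + 1)) / pik p (n0 + M) k *
      ac p x (k + 1) (-(n0 : ℤ) + (j : ℤ)) * (X ^ n0 * G1).coeff j = 0 := by
    apply sum_eq_zero
    intro j hj
    rw [mem_range] at hj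
    rw [coeff_X_pow_mul', if_neg (by omega), mul_zero]
  rw [h1, zero_add]
  have h2 : ∑ j ∈ range (n0 + M), F.eval (p ^ (k + 1)) / pik p (n0 + M) k *
      ac p x (k + 1) (j : ℤ) * G1.coeff j =
      ∑ j ∈ range M, F.eval (p ^ (k + 1)) / pik p (n0 + M) k *
      ac p x (k + 1) (j : ℤ) * G1.coeff j := by
    rw [show range (n0 + M) = range (M + n0) by rw [add_comm], sum_range_add, add_eq_left]
    apply sum_eq_zero
    intro j _
    rw [coeff_eq_zero_of_natDegree_lt (by omega), mul_zero]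
  rw [h2]
  refine sum_congr rfl fun j _ => ?_
  have h3 : -(n0 : ℤ) + ((n0 + j : ℕ) : ℤ) = j := by push_cast; ring
  rw [h3, coeff_X_pow_mul', if_pos (by omega), Nat.add_sub_cancel_left]

end P_RED

theorem t_RED (hREC : S_REC) (hDIV : S_DIV) : S_RED := fun _ _ h N n0 =>
  ⟨fun F1 G hF _ => P_RED.red_one hREC hDIV h N n0 F1 G hF,
    fun F G1 _ hG => P_RED.red_two N n0 F G1 hG⟩

end Pool.Agent.H410.FC
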