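import Pool.Agent.H410.FC.Stm

namespace Pool.Agent.H410.FC

open Finset Polynomial

namespace P_RL

variable {a ε : ℤ} {F : Type} [Field F] {g : F}

/-- The minimal polynomial `X² - a X + ε`. -/
noncomputable def mp (a ε : ℤ) : Polynomial ℤ := X ^ 2 + (C (-a) * X + C ε)

theorem mp_deg_aux (a ε : ℤ) : (C (-a) * X + C ε : Polynomial ℤ).degree < 2 := by
  refine lt_of_le_of_lt (degree_linear_le) ?_
  norm_num

theorem mp_monic (a ε : ℤ) : (mp a ε).Monic := by
  unfold mp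
  exact monic_X_pow_add (n := 2) (by simpa using mp_deg_aux a ε)

theorem mp_natDegree (a ε : ℤ) : (mp a ε).natDegree = 2 := by
  have h : (mp a ε).degree = 2 := by
    unfold mp
    rw [degree_add_eq_left_of_degree_lt]
    · simp
    · rw [degree_X_pow]
      exact mp_deg_aux a ε
  exact natDegree_eq_of_degree_eq_some h

theorem exists_lin (a ε : ℤ) (y : Polynomial ℤ) :
    ∃ (c d : ℤ) (q : Polynomial ℤ), y = (C d * X + C c) + mp a ε * q := by
  have hm := mp_monic a ε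
  have h1 : (y %ₘ mp a ε).natDegree < 2 := by
    have := natDegree_modByMonic_lt y hm (by
      intro h
      have := mp_natDegree a ε
      rw [h] at this
      simp at this)
    rwa [mp_natDegree] at this
  refine ⟨(y %ₘ mp a ε).coeff 0, (y %ₘ mp a ε).coeff 1, y /ₘ mp a ε, ?_⟩
  rw [← eq_X_add_C_of_natDegree_le_one (by omega : (y %ₘ mp a ε).natDegree ≤ 1)]
  exact (modByMonic_add_div y (mp a ε)).symm

theorem aeval_mp_al (h : OK a ε) : aeval (al a ε) (mp a ε) = 0 := by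
  unfold mp
  have := al_sq h
  simp only [map_add, map_mul, map_pow, aeval_X, map_neg, aeval_C, eq_intCast, Int.cast_neg,
    neg_mul]
  rw [this]
  simp

theorem aeval_mp_g (hg : g ^ 2 = (a : F) * g - (ε : F)) : aeval g (mp a ε) = 0 := by
  unfold mp
  simp only [map_add, map_mul, map_pow, aeval_X, map_neg, aeval_C, eq_intCast, Int.cast_neg,
    neg_mul]
  rw [hg]
  simp

theorem key (h : OK a ε) (hg : g ^ 2 = (a : F) * g - (ε : F)) (y : Polynomial ℤ)
    (hy : aeval (al a ε) y = 0) : aeval g y = 0 := by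
  obtain ⟨c, d, q, rfl⟩ := exists_lin a ε y
  have h1 : (d : ℝ) * al a ε + c = 0 := by
    simpa [aeval_mp_al h] using hy
  have hd : d = 0 := by
    by_contra hd
    apply al_irr h
    refine ⟨-(c : ℚ) / d, ?_⟩
    have hd' : (d : ℝ) ≠ 0 := by exact_mod_cast hd
    push_cast
    rw [div_eq_iff hd']
    linarith
  have hc : c = 0 := by
    rw [hd] at h1
    simpa using h1
  rw [hd, hc]
  simp [aeval_mp_g hg]

theorem ne_of (h : OK a ε) (hg : g ^ 2 = (a : F) * g - (ε : F)) (y : Polynomial ℤ)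
    (hy : aeval g y ≠ 0) : aeval (al a ε) y ≠ 0 := fun h0 => hy (key h hg y h0)

theorem rint (n : ℤ) : Rl a ε g (n : ℝ) (n : F) :=
  ⟨C n, 1, by simp, by simp, by simp⟩

theorem ral : Rl a ε g (al a ε) g :=
  ⟨X, 1, by simp, by simp, by simp⟩

theorem radd {z w : ℝ} {f k : F} (h1 : Rl a ε g z f) (h2 : Rl a ε g w k) :
    Rl a ε g (z + w) (f + k) := by
  obtain ⟨y1, s1, a1, b1, c1⟩ := h1
  obtain ⟨y2, s2, a2, b2, c2⟩ := h2
  refine ⟨y1 * s2 + y2 * s1, s1 * s2, ?_, ?_, ?_⟩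
  · rw [map_mul]
    exact mul_ne_zero a1 a2
  · rw [map_mul, map_add, map_mul, map_mul, ← b1, ← b2]
    ring
  · rw [map_mul, map_add, map_mul, map_mul, ← c1, ← c2]
    ring

theorem rmul {z w : ℝ} {f k : F} (h1 : Rl a ε g z f) (h2 : Rl a ε g w k) :
    Rl a ε g (z * w) (f * k) := by
  obtain ⟨y1, s1, a1, b1, c1⟩ := h1
  obtain ⟨y2, s2, a2, b2, c2⟩ := h2
  refine ⟨y1 * y2, s1 * s2, ?_, ?_, ?_⟩
  · rw [map_mul]
    exact mul_ne_zero a1 a2
  · rw [map_mul, map_mul, ← b1, ← b2]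
    ring
  · rw [map_mul, map_mul, ← c1, ← c2]
    ring

theorem rneg {z : ℝ} {f : F} (h1 : Rl a ε g z f) : Rl a ε g (-z) (-f) := by
  obtain ⟨y1, s1, a1, b1, c1⟩ := h1
  refine ⟨-y1, s1, a1, ?_, ?_⟩
  · rw [map_neg, ← b1]
    ring
  · rw [map_neg, ← c1]
    ring

theorem rinv (h : OK a ε) (hg : g ^ 2 = (a : F) * g - (ε : F)) {z : ℝ} {f : F}
    (h1 : Rl a ε g z f) (hf : f ≠ 0) : z ≠ 0 ∧ Rl a ε g z⁻¹ f⁻¹ := by
  obtain ⟨y, s, a1, b1, c1⟩ := h1
  have hy : aeval g y ≠ 0 := by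
    rw [← c1]
    exact mul_ne_zero a1 hf
  have hy' := ne_of h hg y hy
  have hz : z ≠ 0 := by
    intro hz
    apply hy'
    rw [← b1, hz, mul_zero]
  refine ⟨hz, s, y, hy, ?_, ?_⟩
  · rw [← b1, mul_assoc, mul_inv_cancel₀ hz, mul_one]
  · rw [← c1, mul_assoc, mul_inv_cancel₀ hf, mul_one]

theorem rpow {z : ℝ} {f : F} (h1 : Rl a ε g z f) (n : ℕ) : Rl a ε g (z ^ n) (f ^ n) := by
  induction n with
  | zero => simpa using rint (a := a) (ε := ε) (g := g) 1
  | succ n ih =>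
    rw [pow_succ, pow_succ]
    exact rmul ih h1

theorem rzpow (h : OK a ε) (hg : g ^ 2 = (a : F) * g - (ε : F)) {z : ℝ} {f : F}
    (h1 : Rl a ε g z f) (hf : f ≠ 0) (n : ℤ) : Rl a ε g (z ^ n) (f ^ n) := by
  obtain ⟨m, hm | hm⟩ := Int.eq_nat_or_neg n
  · subst hm
    rw [zpow_natCast, zpow_natCast]
    exact rpow h1 m
  · subst hm
    rw [zpow_neg, zpow_neg, zpow_natCast, zpow_natCast]
    exact (rinv h hg (rpow h1 m) (pow_ne_zero _ hf)).2

theorem rsum {ι : Type} (s : Finset ι) (z : ι → ℝ) (f : ι → F)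
    (hs : ∀ i ∈ s, Rl a ε g (z i) (f i)) : Rl a ε g (∑ i ∈ s, z i) (∑ i ∈ s, f i) := by
  induction s using Finset.cons_induction with
  | empty => simpa using rint (a := a) (ε := ε) (g := g) 0
  | cons i s hi ih =>
    rw [sum_cons, sum_cons]
    exact radd (hs i (mem_cons_self i s)) (ih fun j hj => hs j (mem_cons_of_mem hj))

theorem rprod {ι : Type} (s : Finset ι) (z : ι → ℝ) (f : ι → F)
    (hs : ∀ i ∈ s, Rl a ε g (z i) (f i)) : Rl a ε g (∏ i ∈ s, z i) (∏ i ∈ s, f i) := by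
  induction s using Finset.cons_induction with
  | empty => simpa using rint (a := a) (ε := ε) (g := g) 1
  | cons i s hi ih =>
    rw [prod_cons, prod_cons]
    exact rmul (hs i (mem_cons_self i s)) (ih fun j hj => hs j (mem_cons_of_mem hj))

theorem rdet {ι : Type} [Fintype ι] [DecidableEq ι] (A : Matrix ι ι ℝ) (B : Matrix ι ι F)
    (hAB : ∀ i j, Rl a ε g (A i j) (B i j)) : Rl a ε g A.det B.det := by
  rw [Matrix.det_apply', Matrix.det_apply']
  refine rsum _ _ _ fun σ _ => rmul ?_ (rprod _ _ _ fun i _ => hAB _ _)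
  exact rint _

end P_RL

theorem t_RL : S_RL := by
  intro a ε h F _ g hg
  refine ⟨fun n => P_RL.rint n, P_RL.ral, fun z w f k h1 h2 => P_RL.radd h1 h2,
    fun z w f k h1 h2 => P_RL.rmul h1 h2, fun z f h1 => P_RL.rneg h1,
    fun z f h1 hf => P_RL.rinv h hg h1 hf, fun z f h1 hf n => P_RL.rzpow h hg h1 hf n,
    fun ι s z f hs => P_RL.rsum s z f hs, fun ι s z f hs => P_RL.rprod s z f hs, ?_⟩
  intro ι _ _ A B hAB hB
  exact (P_RL.rinv h hg (P_RL.rdet A B hAB) hB).1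

end Pool.Agent.H410.FC
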