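import Pool.Agent.H410.FC.Stm

namespace Pool.Agent.H410.FC

namespace P_SUM

theorem summ_aux (c : ℝ) : Summable (fun e : ℕ => ((1 / 2 : ℝ) ^ (e + 1)) * (2 * ((e : ℝ) + c) ^ 2)) := by
  have h2 := summable_pow_mul_geometric_of_norm_lt_one (R := ℝ) 2
    (show ‖(1 / 2 : ℝ)‖ < 1 by rw [Real.norm_eq_abs, abs_of_pos (by norm_num)]; norm_num)
  have h1 := summable_pow_mul_geometric_of_norm_lt_one (R := ℝ) 1
    (show ‖(1 / 2 : ℝ)‖ < 1 by rw [Real.norm_eq_abs, abs_of_pos (by norm_num)]; norm_num)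
  have h0 := summable_pow_mul_geometric_of_norm_lt_one (R := ℝ) 0
    (show ‖(1 / 2 : ℝ)‖ < 1 by rw [Real.norm_eq_abs, abs_of_pos (by norm_num)]; norm_num)
  refine ((h2.add (h1.mul_left (2 * c))).add (h0.mul_left (c ^ 2))).congr fun e => ?_
  rw [pow_succ]
  ring

end P_SUM

theorem t_SUM (hCB : S_CB) : S_SUM := by
  intro p x h K hK J
  have hp := h.1
  refine Summable.of_norm_bounded (P_SUM.summ_aux (|(J : ℝ)| + 2)) fun e => ?_
  rw [Real.norm_eq_abs, abs_mul, abs_inv, abs_pow]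
  have h1 : (|p| ^ (K * (e + 1)))⁻¹ ≤ (1 / 2 : ℝ) ^ (e + 1) := by
    rw [one_div, inv_pow]
    apply inv_anti₀ (by positivity)
    calc (2 : ℝ) ^ (e + 1) ≤ |p| ^ (e + 1) := pow_le_pow_left₀ (by norm_num) hp _
      _ ≤ |p| ^ (K * (e + 1)) := pow_le_pow_right₀ (by linarith)
          (Nat.le_mul_of_pos_left _ (by omega))
  have h2 := hCB p x h ((e : ℤ) + 1 + J)
  have h3 : |((((e : ℤ) + 1 + J : ℤ)) : ℝ)| + 1 ≤ (e : ℝ) + (|(J : ℝ)| + 2) := by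
    push_cast
    have a1 := abs_add_le ((e : ℝ) + 1) (J : ℝ)
    have a2 : |(e : ℝ) + 1| = (e : ℝ) + 1 := abs_of_nonneg (by positivity)
    linarith
  have h4 : |cc p x ((e : ℤ) + 1 + J)| ≤ 2 * ((e : ℝ) + (|(J : ℝ)| + 2)) ^ 2 := by
    refine h2.trans ?_
    have h5 : (0 : ℝ) ≤ |((((e : ℤ) + 1 + J : ℤ)) : ℝ)| + 1 := by positivity
    gcongr
  gcongr

end Pool.Agent.H410.FC
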