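import Pool.Agent.H410.FC.Stm

set_option autoImplicit false

/-!
`S_TOT2`: the sum of the totients of the odd numbers (helper17, after `Pool/Agent/H475/QZ/P_TOT.lean`).
-/

namespace Pool.Agent.H410.FC

open Finset

namespace P_TOT2

/-- The ratio bound for the totient. -/
theorem tot_le {i g : ℕ} (hi : i ≠ 0) (hg : g ∣ i) :
    Nat.totient i * g ≤ i * Nat.totient g := by
  have hg0 : g ≠ 0 := fun h => hi (by rw [h] at hg; exact Nat.eq_zero_of_zero_dvd hg)
  have h1 := Nat.totient_eq_mul_prod_factors i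
  have h2 := Nat.totient_eq_mul_prod_factors g
  have hsub : g.primeFactors ⊆ i.primeFactors := Nat.primeFactors_mono hg hi
  have hfac : ∀ p ∈ i.primeFactors, (0 : ℚ) ≤ 1 - (p : ℚ)⁻¹ ∧ 1 - (p : ℚ)⁻¹ ≤ 1 := by
    intro p hp
    have hp1 : 1 ≤ p := (Nat.prime_of_mem_primeFactors hp).one_lt.le
    have hp2 : (1 : ℚ) ≤ p := by exact_mod_cast hp1
    have h3 : (p : ℚ)⁻¹ ≤ 1 := inv_le_one_of_one_le₀ hp2
    have h4 : (0 : ℚ) ≤ (p : ℚ)⁻¹ := by positivity
    exact ⟨by linarith, by linarith⟩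
  have h5 : ∏ p ∈ i.primeFactors, (1 - (p : ℚ)⁻¹) ≤ ∏ p ∈ g.primeFactors, (1 - (p : ℚ)⁻¹) := by
    rw [← Finset.prod_sdiff hsub]
    have h6 : ∏ p ∈ i.primeFactors \ g.primeFactors, (1 - (p : ℚ)⁻¹) ≤ 1 :=
      Finset.prod_le_one (fun p hp => (hfac p (Finset.mem_sdiff.mp hp).1).1)
        (fun p hp => (hfac p (Finset.mem_sdiff.mp hp).1).2)
    have h7 : 0 ≤ ∏ p ∈ g.primeFactors, (1 - (p : ℚ)⁻¹) :=
      Finset.prod_nonneg fun p hp => (hfac p (hsub hp)).1
    calc _ ≤ 1 * ∏ p ∈ g.primeFactors, (1 - (p : ℚ)⁻¹) := mul_le_mul_of_nonneg_right h6 h7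
      _ = _ := one_mul _
  have h8 : ((Nat.totient i * g : ℕ) : ℚ) ≤ ((i * Nat.totient g : ℕ) : ℚ) := by
    push_cast
    rw [h1, h2]
    have h9 : (0 : ℚ) ≤ (i : ℚ) * g := by positivity
    calc (i : ℚ) * (∏ p ∈ i.primeFactors, (1 - (p : ℚ)⁻¹)) * g
        = (i * g) * ∏ p ∈ i.primeFactors, (1 - (p : ℚ)⁻¹) := by ring
      _ ≤ (i * g) * ∏ p ∈ g.primeFactors, (1 - (p : ℚ)⁻¹) := mul_le_mul_of_nonneg_left h5 h9
      _ = _ := by ring
  exact_mod_cast h8

/-- The weights. -/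
def W (r : ℕ) : ℕ := 30 / Nat.gcd r 30 * Nat.totient (Nat.gcd r 30)

theorem thirty {i : ℕ} (hi : i ≠ 0) : 30 * Nat.totient i ≤ i * W (i % 30) := by
  have hg : Nat.gcd (i % 30) 30 = Nat.gcd i 30 := by
    rw [← Nat.gcd_rec, Nat.gcd_comm]
  unfold W
  rw [hg]
  have h1 := tot_le hi (Nat.gcd_dvd_left i 30)
  have hgpos : 0 < Nat.gcd i 30 := Nat.gcd_pos_of_pos_right _ (by norm_num)
  obtain ⟨m, hm⟩ := Nat.gcd_dvd_right i 30
  have h2 : 30 / Nat.gcd i 30 = m := Nat.div_eq_of_eq_mul_right hgpos hm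
  rw [h2]
  calc 30 * Nat.totient i = m * (Nat.totient i * Nat.gcd i 30) := by
        conv_lhs => rw [hm]
        ring
    _ ≤ m * (i * Nat.totient (Nat.gcd i 30)) := Nat.mul_le_mul_left m h1
    _ = _ := by ring

/-- The totient on the odd numbers. -/
def g (i : ℕ) : ℕ := if i % 2 = 1 then Nat.totient i else 0

/-- The weights on the odd residues. -/
def W2 (r : ℕ) : ℕ := if r % 2 = 1 then W r else 0

theorem thirty2 {i : ℕ} (hi : i ≠ 0) : 30 * g i ≤ i * W2 (i % 30) := by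
  have h : i % 30 % 2 = i % 2 := by omega
  unfold g W2
  rw [h]
  split_ifs
  · exact thirty hi
  · simp

theorem W2_period (k : ℕ) : ∑ j ∈ range 30, W2 ((k + 1 + j) % 30) = 384 := by
  have h : ∀ c < 30, ∑ j ∈ range 30, W2 ((c + 1 + j) % 30) = 384 := by
    decide +kernel
  rw [← h (k % 30) (Nat.mod_lt _ (by norm_num))]
  refine Finset.sum_congr rfl fun j _ => ?_
  congr 1
  omega

theorem block (k : ℕ) : 30 * ∑ j ∈ range 30, g (k + 1 + j) ≤ (k + 30) * 384 := by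
  rw [← W2_period k, Finset.mul_sum, Finset.mul_sum]
  refine Finset.sum_le_sum fun j hj => ?_
  have hj' := Finset.mem_range.mp hj
  refine le_trans (thirty2 (by omega)) ?_
  exact Nat.mul_le_mul_right _ (by omega)

theorem T_add (k : ℕ) : ∑ i ∈ Icc 1 (k + 30), g i =
    ∑ i ∈ Icc 1 k, g i + ∑ j ∈ range 30, g (k + 1 + j) := by
  have h : ∀ n, ∑ i ∈ Icc 1 (k + n), g i =
      ∑ i ∈ Icc 1 k, g i + ∑ j ∈ range n, g (k + 1 + j) := by
    intro n
    induction n with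
    | zero => simp
    | succ n ih =>
      rw [← add_assoc, Finset.sum_Icc_succ_top (by omega), ih, Finset.sum_range_succ,
        add_assoc, show k + n + 1 = k + 1 + n by omega]
  exact h 30

theorem small (k : ℕ) (hk : k < 30) : ∑ i ∈ Icc 1 k, g i ≤ 225 := by
  calc ∑ i ∈ Icc 1 k, g i ≤ ∑ i ∈ Icc 1 29, g i :=
        Finset.sum_le_sum_of_subset (Finset.Icc_subset_Icc_right (by omega))
    _ ≤ ∑ i ∈ Icc 1 29, (if i % 2 = 1 then i else 0) := Finset.sum_le_sum fun i _ => by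
        unfold g
        split_ifs
        · exact Nat.totient_le i
        · exact le_rfl
    _ = 225 := by decide

end P_TOT2

open P_TOT2

theorem t_TOT2 : S_TOT2 := by
  intro k
  have e : ∀ k, ∑ i ∈ (Icc 1 k).filter (fun i => i % 2 = 1), Nat.totient i =
      ∑ i ∈ Icc 1 k, g i := fun k => Finset.sum_filter _ _
  rw [e]
  induction k using Nat.strong_induction_on with
  | _ k ih =>
    by_cases hk : k < 30
    · have := small k hk
      nlinarith
    · obtain ⟨m, rfl⟩ : ∃ m, k = m + 30 := ⟨k - 30, by omega⟩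
      have h1 := ih m (by omega)
      have h2 := block m
      rw [T_add]
      nlinarith

end Pool.Agent.H410.FC
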