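import Pool.Agent.H410.FC.Stm

set_option autoImplicit false

namespace Pool.Agent.H410.FC

open Finset Polynomial
open Pool.Agent.H475.QZ (nu)

namespace P_UP

theorem LW_eq (p x : ℝ) (n0 N : ℕ) (F G : Polynomial ℝ) :
    ∑ k : Fin N, ∑ l : Fin N, F.eval (p ^ ((k : ℕ) + 1)) / pik p N k *
      AM p x (-(n0 : ℤ)) N k l * G.coeff l = LW p x N n0 F G := by
  unfold LW
  rw [← Fin.sum_univ_eq_sum_range (fun k => ∑ j ∈ range N,
    F.eval (p ^ (k + 1)) / pik p N k * ac p x (k + 1) (-(n0 : ℤ) + (j : ℤ)) * G.coeff j) N]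
  refine Finset.sum_congr rfl fun k _ => ?_
  rw [← Fin.sum_univ_eq_sum_range (fun j =>
    F.eval (p ^ ((k : ℕ) + 1)) / pik p N k * ac p x ((k : ℕ) + 1) (-(n0 : ℤ) + (j : ℤ)) *
      G.coeff j) N]
  rfl

theorem ww_pow (p : ℝ) (hp : 2 ≤ |p|) (N : ℕ) :
    ww p N ^ (18 * N) * |p| ^ (9 * N ^ 2 * (N + 1)) = 1 := by
  have hP0 : (0 : ℝ) < |p| := by linarith
  unfold ww
  rw [inv_pow, ← pow_mul]
  have h1 : N * (N + 1) / 2 * (18 * N) = 9 * N ^ 2 * (N + 1) := by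
    obtain ⟨m, hm⟩ := (Nat.even_mul_succ_self N).two_dvd
    have hm' : N * (N + 1) = 2 * m := hm
    rw [hm', Nat.mul_div_cancel_left _ (by norm_num)]
    calc m * (18 * N) = 9 * N * (2 * m) := by ring
      _ = 9 * N * (N * (N + 1)) := by rw [hm']
      _ = 9 * N ^ 2 * (N + 1) := by ring
  rw [h1]
  exact inv_mul_cancel₀ (pow_pos hP0 _).ne'

theorem fac_le (P : ℝ) (hP : 2 ≤ P) (N : ℕ) : (N.factorial : ℝ) ≤ P ^ (N ^ 2) := by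
  have h1 : (N.factorial : ℝ) ≤ (N : ℝ) ^ N := by
    exact_mod_cast Nat.factorial_le_pow N
  have h2 : (N : ℝ) ≤ P ^ N := by
    have h3 : (N : ℝ) ≤ 2 ^ N := by exact_mod_cast (Nat.lt_two_pow_self).le
    exact h3.trans (pow_le_pow_left₀ (by norm_num) hP _)
  calc (N.factorial : ℝ) ≤ (N : ℝ) ^ N := h1
    _ ≤ (P ^ N) ^ N := pow_le_pow_left₀ (Nat.cast_nonneg _) h2 _
    _ = P ^ (N ^ 2) := by rw [← pow_mul]; congr 1; ring

theorem fin_ineq (P D V f B0 w R : ℝ) (N h C' : ℕ) (hP : 2 ≤ P) (hN : 1 ≤ N) (hh : h ≤ N)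
    (hD0 : 0 ≤ D) (hV0 : 0 ≤ V) (hf0 : 0 ≤ f) (hB00 : 0 ≤ B0) (hw0 : 0 ≤ w) (hR0 : 0 ≤ R)
    (hD : D ≤ V * (f * (B0 * w) ^ N * R)) (hV : V ^ 6 ≤ P ^ (2 * N ^ 3 + 3 * N ^ 2))
    (hf : f ≤ P ^ (N ^ 2)) (hB : B0 ≤ P ^ (C' + 2 * N + 2))
    (hw : w ^ (18 * N) * P ^ (9 * N ^ 2 * (N + 1)) = 1)
    (hR : R ^ 9 * P ^ (h ^ 3) ≤ P ^ (7 * h ^ 2)) :
    D ^ 18 * P ^ (3 * N ^ 3 + 2 * h ^ 3) ≤ P ^ ((104 + 18 * C') * N ^ 2) := by
  have hP0 : 0 < P := by linarith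
  have hP1 : 1 ≤ P := by linarith
  have hX : 0 < P ^ (9 * N ^ 2 * (N + 1)) := pow_pos hP0 _
  refine le_of_mul_le_mul_right ?_ hX
  have hD' : D ^ 18 ≤ (V * (f * (B0 * w) ^ N * R)) ^ 18 := pow_le_pow_left₀ hD0 hD 18
  calc D ^ 18 * P ^ (3 * N ^ 3 + 2 * h ^ 3) * P ^ (9 * N ^ 2 * (N + 1))
      ≤ (V * (f * (B0 * w) ^ N * R)) ^ 18 * P ^ (3 * N ^ 3 + 2 * h ^ 3) *
          P ^ (9 * N ^ 2 * (N + 1)) :=
        mul_le_mul_of_nonneg_right (mul_le_mul_of_nonneg_right hD' (by positivity)) hX.le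
    _ = (V ^ 6) ^ 3 * f ^ 18 * B0 ^ (18 * N) * (w ^ (18 * N) * P ^ (9 * N ^ 2 * (N + 1))) *
          (R ^ 9 * P ^ (h ^ 3)) ^ 2 * P ^ (3 * N ^ 3) := by
        have e1 : w ^ (18 * N) = (w ^ N) ^ 18 := by rw [← pow_mul]; congr 1; ring
        have e2 : B0 ^ (18 * N) = (B0 ^ N) ^ 18 := by rw [← pow_mul]; congr 1; ring
        have e3 : P ^ (3 * N ^ 3 + 2 * h ^ 3) = P ^ (3 * N ^ 3) * (P ^ (h ^ 3)) ^ 2 := by
          rw [← pow_mul, ← pow_add]; congr 1; ring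
        rw [e1, e2, e3, mul_pow B0 w]
        ring
    _ ≤ (P ^ (2 * N ^ 3 + 3 * N ^ 2)) ^ 3 * (P ^ (N ^ 2)) ^ 18 *
          (P ^ (C' + 2 * N + 2)) ^ (18 * N) * 1 * (P ^ (7 * h ^ 2)) ^ 2 * P ^ (3 * N ^ 3) := by
        rw [hw]
        gcongr
    _ = P ^ (3 * (2 * N ^ 3 + 3 * N ^ 2) + 18 * N ^ 2 + (C' + 2 * N + 2) * (18 * N) +
          14 * h ^ 2 + 3 * N ^ 3) := by
        rw [mul_one, ← pow_mul, ← pow_mul, ← pow_mul, ← pow_mul, ← pow_add, ← pow_add, ← pow_add,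
          ← pow_add]
        congr 1
        ring
    _ ≤ P ^ ((104 + 18 * C') * N ^ 2 + 9 * N ^ 2 * (N + 1)) := by
        refine pow_le_pow_right₀ hP1 ?_
        have h1 : h ^ 2 ≤ N ^ 2 := Nat.pow_le_pow_left hh 2
        have h2 : N ≤ N ^ 2 := by nlinarith
        have h3 : C' * N ≤ C' * N ^ 2 := Nat.mul_le_mul_left _ h2
        nlinarith
    _ = P ^ ((104 + 18 * C') * N ^ 2) * P ^ (9 * N ^ 2 * (N + 1)) := by rw [pow_add]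

end P_UP

open P_UP in
theorem t_UP (hDET : S_DET) (hENB : S_ENB) (hDEG : S_DEG) (hVB : S_VB)
    (hDU : Pool.Agent.H475.QZ.S_DU) : S_UP := by
  intro p x hpx
  have hp : 2 ≤ |p| := hpx.1
  obtain ⟨C', hC'⟩ := pow_unbounded_of_one_lt C3 (by norm_num : (1 : ℝ) < 2)
  refine ⟨104 + 18 * C', fun n0 h hN => ?_⟩
  obtain ⟨hV1, hV2⟩ := hVB p hp
  have hC30 : (0 : ℝ) ≤ C3 := by unfold C3; positivity
  have hww : 0 ≤ ww p (n0 + h) := by unfold ww; positivity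
  have hea : ∀ a, 0 ≤ ea p a := fun a => by unfold ea; positivity
  have hrr : ∀ i, 0 ≤ rr p n0 i := by
    intro i
    unfold rr
    split_ifs
    · exact zero_le_one
    · exact pow_nonneg (hea _) _
  have hdet := hDET p hp (n0 + h) (AM p x (-(n0 : ℤ)) (n0 + h)) (fun i => BF p n0 i)
    (fun i => BF p n0 i) (fun i => (hDEG p).2 n0 i) (fun i => (hDEG p).2 n0 i)
  obtain ⟨T, hT⟩ : ∃ T : Matrix (Fin (n0 + h)) (Fin (n0 + h)) ℝ,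
      T = Matrix.of fun i j : Fin (n0 + h) => ∑ k : Fin (n0 + h), ∑ l : Fin (n0 + h),
      (BF p n0 i).eval (p ^ ((k : ℕ) + 1)) / pik p (n0 + h) k *
        AM p x (-(n0 : ℤ)) (n0 + h) k l * (BF p n0 j).coeff l := ⟨_, rfl⟩
  rw [← hT] at hdet
  have hTb : ∀ i j, |T i j| ≤ (C3 * (((n0 + h : ℕ) : ℝ) + 2) ^ 2 * ww p (n0 + h)) *
      rr p n0 i * rr p n0 j := by
    intro i j
    have e : T i j = LW p x (n0 + h) n0 (BF p n0 i) (BF p n0 j) := by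
      rw [hT]
      exact LW_eq p x n0 (n0 + h) _ _
    rw [e]
    exact hENB p x hpx (n0 + h) n0 i j (Nat.le_add_right _ _) i.2 j.2
  have hdu := hDU (n0 + h) T (C3 * (((n0 + h : ℕ) : ℝ) + 2) ^ 2 * ww p (n0 + h))
    (fun i => rr p n0 i) (by positivity) (fun i => hrr i) hTb
  refine fin_ineq |p| _ |VV p (n0 + h)| ((n0 + h).factorial : ℝ)
    (C3 * (((n0 + h : ℕ) : ℝ) + 2) ^ 2) (ww p (n0 + h))
    (∏ i : Fin (n0 + h), rr p n0 (i : ℕ) ^ 2) (n0 + h) h C' hp hN (Nat.le_add_left _ _)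
    (abs_nonneg _) (abs_nonneg _) (Nat.cast_nonneg _) (by positivity) hww
    (Finset.prod_nonneg fun i _ => sq_nonneg _) ?_ (hV1 _) (fac_le _ hp _) ?_ (ww_pow p hp _)
    (hV2 n0 h)
  · rw [hdet]
    exact mul_le_mul_of_nonneg_left hdu (abs_nonneg _)
  · have h1 : ((n0 + h : ℕ) : ℝ) + 2 ≤ 2 ^ (n0 + h + 1) := by
      have h2 : n0 + h + 1 + 1 ≤ 2 ^ (n0 + h + 1) := Nat.lt_two_pow_self
      have h3 : ((n0 + h + 1 + 1 : ℕ) : ℝ) ≤ ((2 ^ (n0 + h + 1) : ℕ) : ℝ) := by exact_mod_cast h2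
      push_cast at h3 ⊢
      linarith
    calc C3 * (((n0 + h : ℕ) : ℝ) + 2) ^ 2 ≤ 2 ^ C' * (2 ^ (n0 + h + 1)) ^ 2 :=
          mul_le_mul hC'.le (pow_le_pow_left₀ (by positivity) h1 2) (by positivity) (by positivity)
      _ = 2 ^ (C' + 2 * (n0 + h) + 2) := by
          rw [← pow_mul, ← pow_add]
          congr 1
          ring
      _ ≤ |p| ^ (C' + 2 * (n0 + h) + 2) := pow_le_pow_left₀ (by norm_num) hp _

end Pool.Agent.H410.FC
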