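import Pool.Agent.H410.FC.Stm

/-! Task FC UP1 (helper113), after the model `Pool.Agent.H475.QZ.P_UP1`. -/

namespace Pool.Agent.H410.FC

open Finset Polynomial

namespace P_UP1

theorem xt_abs {p : ℝ} (hp : 2 ≤ |p|) (t : ℕ) : |xt p t| ≤ (1 / 2) ^ t := by
  unfold xt
  rw [abs_inv, abs_pow, one_div, inv_pow]
  exact inv_anti₀ (by positivity) (pow_le_pow_left₀ (by norm_num) hp t)

theorem van (hVAN : S_VAN) (hDVD : S_DVD) (p x : ℝ) (N a a' c c' j t : ℕ) (ht : 1 ≤ t)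
    (h : t ≤ a ∨ t ≤ a') : kap p x N t (X ^ j * (FF p a c * FF p a' c')) = 0 := by
  apply hVAN
  rcases h with h | h
  · exact ((hDVD p a c t ht h).mul_right _).mul_left _
  · exact ((hDVD p a' c' t ht h).mul_left _).mul_left _

end P_UP1

theorem t_UP1 (hHLL : S_HLL) (hVAN : S_VAN) (hKB : S_KB) (hDVD : S_DVD) : S_UP1 := by
  intro p x h N F G a a' c c' j hc hc' h1 h2 hFG
  have e0 : (0 : ℝ) ≤ ea p a := by unfold ea; positivity
  have e0' : (0 : ℝ) ≤ ea p a' := by unfold ea; positivity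
  have w0 : (0 : ℝ) ≤ ww p N := by unfold ww; positivity
  have C0 : (0 : ℝ) ≤ C3 := by unfold C3; positivity
  set K : ℝ := C3 * ((j : ℝ) + 2) ^ 2 * ea p a ^ 3 * ea p a' ^ 3 * ww p N with hK
  have K0 : 0 ≤ K := by rw [hK]; positivity
  have hs := hHLL p x h N F G h1 h2
  rw [hFG] at hs
  have hg : HasSum (fun t : ℕ => K / 2 * (1 / 2 : ℝ) ^ t) (K / 2 * 2) :=
    hasSum_geometric_two.mul_left _
  have hb : ∀ t : ℕ, ‖kap p x N (t + 1) (X ^ j * (FF p a c * FF p a' c'))‖ ≤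
      K / 2 * (1 / 2 : ℝ) ^ t := by
    intro t
    by_cases ht : t + 1 ≤ a ∨ t + 1 ≤ a'
    · rw [P_UP1.van hVAN hDVD p x N a a' c c' j (t + 1) (by omega) ht, norm_zero]
      positivity
    · rw [Real.norm_eq_abs]
      push Not at ht
      refine (hKB p x h N (t + 1) a a' c c' j ht.1 ht.2 hc hc').trans ?_
      calc C3 * ((j : ℝ) + 2) ^ 2 * |xt p (t + 1)| * ea p a ^ 3 * ea p a' ^ 3 * ww p N
          = K * |xt p (t + 1)| := by
            rw [hK]; ring
        _ ≤ K * (1 / 2) ^ (t + 1) :=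
            mul_le_mul_of_nonneg_left (P_UP1.xt_abs h.1 _) K0
        _ = K / 2 * (1 / 2 : ℝ) ^ t := by rw [pow_succ]; ring
  have := hs.norm_le_of_bounded hg hb
  rw [Real.norm_eq_abs] at this
  calc |LL p x N F G| ≤ K / 2 * 2 := this
    _ = K := by ring

end Pool.Agent.H410.FC
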