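import Pool.Agent.H410.FC.Stm

/-! Size of the Vandermonde product and of the product of the `r_i²` (`S_VB`). -/

set_option autoImplicit false

namespace Pool.Agent.H410.FC

open Finset

namespace P_VB

theorem sum_sq (N : ℕ) : 6 * ∑ l ∈ range N, l * (l + 2) + 5 * N = 2 * N ^ 3 + 3 * N ^ 2 := by
  induction N with
  | zero => simp
  | succ N ih =>
    rw [Finset.sum_range_succ, mul_add]
    have h : 2 * (N + 1) ^ 3 + 3 * (N + 1) ^ 2 = (2 * N ^ 3 + 3 * N ^ 2) + 6 * (N * (N + 2)) + 5 := by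
      ring
    rw [h, ← ih]
    ring

theorem cube_le (h : ℕ) :
    h ^ 3 ≤ 7 * h ^ 2 + ∑ i ∈ range h, 27 * ((i / 3) * (i / 3 + 1)) := by
  induction h with
  | zero => simp
  | succ h ih =>
    rw [Finset.sum_range_succ]
    have key : 3 * h ^ 2 ≤ 27 * ((h / 3) * (h / 3 + 1)) + 3 * h + 6 := by
      obtain ⟨b, r, hr, hb, e⟩ : ∃ b r : ℕ, r ≤ 2 ∧ h / 3 = b ∧ h = 3 * b + r :=
        ⟨h / 3, h % 3, by omega, rfl, by omega⟩
      rw [hb]
      interval_cases r
      · rw [e]; ring_nf; nlinarith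
      · rw [e]; ring_nf; nlinarith
      · rw [e]; ring_nf; nlinarith
    have e1 : (h + 1) ^ 3 = h ^ 3 + 3 * h ^ 2 + 3 * h + 1 := by ring
    have e2 : 7 * (h + 1) ^ 2 = 7 * h ^ 2 + 14 * h + 7 := by ring
    rw [e1, e2]
    linarith

theorem prod_rr (p : ℝ) (n0 h : ℕ) :
    ∏ i : Fin (n0 + h), rr p n0 (i : ℕ) ^ 2 = ∏ i ∈ range h, (ea p (i / 3) ^ 3) ^ 2 := by
  rw [Fin.prod_univ_eq_prod_range (fun i => rr p n0 i ^ 2) (n0 + h), Finset.prod_range_add]
  have e1 : ∏ i ∈ range n0, rr p n0 i ^ 2 = 1 := by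
    apply Finset.prod_eq_one
    intro i hi
    have : i < n0 := Finset.mem_range.1 hi
    simp [rr, this]
  rw [e1, one_mul]
  refine Finset.prod_congr rfl fun i _ => ?_
  have h2 : ¬ (n0 + i < n0) := by omega
  have h3 : n0 + i - n0 = i := by omega
  simp only [rr, h2, if_false, h3]

end P_VB

open P_VB

theorem t_VB : S_VB := by
  intro p hp2
  have hp1 : (1 : ℝ) ≤ |p| := by linarith
  have hp0 : (0 : ℝ) < |p| := by linarith
  constructor
  · intro N
    have h1 : ∀ l i : ℕ, i < l → |p ^ (l + 1) - p ^ (i + 1)| ≤ |p| ^ (l + 2) := by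
      intro l i hil
      have h2 : |p ^ (l + 1) - p ^ (i + 1)| ≤ |p| ^ (l + 1) + |p| ^ (i + 1) := by
        refine (abs_sub _ _).trans ?_
        rw [abs_pow, abs_pow]
      have h3 : |p| ^ (i + 1) ≤ |p| ^ (l + 1) := pow_le_pow_right₀ hp1 (by omega)
      have h4 : 0 ≤ |p| ^ (l + 1) := (pow_pos hp0 _).le
      have h5 : 2 * |p| ^ (l + 1) ≤ |p| * |p| ^ (l + 1) := mul_le_mul_of_nonneg_right hp2 h4
      have h6 : |p| ^ (l + 2) = |p| * |p| ^ (l + 1) := by ring
      rw [h6]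
      linarith
    have h2 : |VV p N| ≤ ∏ l ∈ range N, |p| ^ (l * (l + 2)) := by
      unfold VV
      rw [Finset.abs_prod]
      refine Finset.prod_le_prod (fun l _ => abs_nonneg _) fun l _ => ?_
      rw [Finset.abs_prod]
      have h3 : ∏ i ∈ range l, |p ^ (l + 1) - p ^ (i + 1)| ≤ ∏ i ∈ range l, |p| ^ (l + 2) :=
        Finset.prod_le_prod (fun i _ => abs_nonneg _) fun i hi => h1 l i (mem_range.1 hi)
      refine h3.trans (le_of_eq ?_)
      rw [Finset.prod_const, card_range, ← pow_mul, mul_comm]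
    rw [Finset.prod_pow_eq_pow_sum] at h2
    refine (pow_le_pow_left₀ (abs_nonneg _) h2 6).trans ?_
    rw [← pow_mul]
    refine pow_le_pow_right₀ hp1 ?_
    have h3 := sum_sq N
    omega
  · intro n0 h
    have h2 : ∀ a : ℕ, ((ea p a ^ 3) ^ 2) ^ 9 = (|p| ^ (27 * (a * (a + 1))))⁻¹ := by
      intro a
      unfold ea
      rw [inv_pow, inv_pow, inv_pow, ← pow_mul, ← pow_mul, ← pow_mul]
      have h3 : a * (a + 1) / 2 * 2 = a * (a + 1) :=
        Nat.div_mul_cancel (Nat.even_mul_succ_self a).two_dvd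
      have h4 : a * (a + 1) / 2 * (3 * (2 * 9)) = 27 * (a * (a + 1)) := by
        omega
      rw [h4]
    have h3 : (∏ i ∈ range h, (ea p (i / 3) ^ 3) ^ 2) ^ 9 =
        (|p| ^ (∑ i ∈ range h, 27 * ((i / 3) * (i / 3 + 1))))⁻¹ := by
      rw [← Finset.prod_pow_eq_pow_sum, ← Finset.prod_inv_distrib, ← Finset.prod_pow]
      exact Finset.prod_congr rfl fun a _ => h2 (a / 3)
    rw [prod_rr, h3, inv_mul_le_iff₀ (pow_pos hp0 _), ← pow_add]
    refine pow_le_pow_right₀ hp1 ?_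
    have := cube_le h
    linarith

end Pool.Agent.H410.FC
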