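import Pool.Agent.H410.FC.P_CB
import Pool.Agent.H410.FC.P_SUM
import Pool.Agent.H410.FC.P_REC
import Pool.Agent.H410.FC.P_CF
import Pool.Agent.H410.FC.P_CJ
import Pool.Agent.H410.FC.P_DIVR
import Pool.Agent.H410.FC.P_DIVC
import Pool.Agent.H410.FC.P_DLS
import Pool.Agent.H410.FC.P_ENT
import Pool.Agent.H410.FC.P_NRM
import Pool.Agent.H410.FC.P_PHI
import Pool.Agent.H410.FC.P_TOT2
import Pool.Agent.H410.FC.P_DKB
import Pool.Agent.H410.FC.P_DLB
import Pool.Agent.H410.FC.P_DDB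
import Pool.Agent.H410.FC.P_KER
import Pool.Agent.H410.FC.P_ASER
import Pool.Agent.H410.FC.P_LAG
import Pool.Agent.H410.FC.P_HLL
import Pool.Agent.H410.FC.P_VAN
import Pool.Agent.H410.FC.P_NUX
import Pool.Agent.H410.FC.P_NUQ
import Pool.Agent.H410.FC.P_NUE
import Pool.Agent.H410.FC.P_KB
import Pool.Agent.H410.FC.P_DEG
import Pool.Agent.H410.FC.P_DVD
import Pool.Agent.H410.FC.P_UP1
import Pool.Agent.H410.FC.P_DIV
import Pool.Agent.H410.FC.P_RED
import Pool.Agent.H410.FC.P_AA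
import Pool.Agent.H410.FC.P_ENB
import Pool.Agent.H410.FC.P_DET
import Pool.Agent.H410.FC.P_VB
import Pool.Agent.H410.FC.P_UP
import Pool.Agent.H410.FC.P_RL
import Pool.Agent.H410.FC.P_EX1
import Pool.Agent.H410.FC.P_EX2
import Pool.Agent.H410.FC.P_NV1
import Pool.Agent.H410.FC.P_NV2
import Pool.Agent.H410.FC.P_NV3
import Pool.Agent.H410.FC.P_NV4
import Pool.Agent.H410.FC.P_NV
import Pool.Agent.H410.FC.P_FIN
import Pool.Agent.H410.FC.P_FIB
import Pool.Agent.H475.QZ.P_NU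
import Pool.Agent.H475.QZ.P_TOT
import Pool.Agent.H475.QZ.P_DU

/-!
Assembly (helper410).
-/

namespace Pool.Agent.H410.FC

theorem fin : S_FIN := by
  have hCB := t_CB
  have hSUM := t_SUM hCB
  have hREC := t_REC hSUM
  have hCF := t_CF
  have hCJ := t_CJ
  have hDIVR := t_DIVR hCJ
  have hDIVC := t_DIVC hCJ
  have hDLS := t_DLS hCJ
  have hENT := t_ENT hCF hREC hCJ hDIVR hDIVC hDLS
  have hNRM := t_NRM hENT hCJ hDLS
  have hPHI := t_PHI
  have hDDB := t_DDB (t_DKB hPHI Pool.Agent.H475.QZ.t_TOT) (t_DLB hPHI t_TOT2)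
  have hHLL := t_HLL (t_ASER hCB t_KER) t_LAG
  have hNU := Pool.Agent.H475.QZ.t_NU
  have hNUX := t_NUX hNU
  have hNUQ := t_NUQ hNU
  have hNUE := t_NUE hNU hNUX
  have hKB := t_KB hNU hNUX hNUQ hNUE
  have hUP1 := t_UP1 hHLL t_VAN hKB t_DVD
  have hDIV := t_DIV
  have hRED := t_RED hREC hDIV
  have hAA := t_AA hCB hSUM hDIV
  have hDEG := t_DEG
  have hENB := t_ENB hAA hRED hUP1 hDEG
  have hUP := t_UP t_DET hENB hDEG t_VB Pool.Agent.H475.QZ.t_DU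
  have hRL := t_RL
  have hNV1 := t_NV1 hRL
  have hNV2 := t_NV2 hRL hCF hNV1
  have hNV3 := t_NV3 hRL hREC hNV1 hNV2
  have hNV4 := t_NV4 hRL
  have hNV := t_NV t_EX1 t_EX2 hNV1 hNV3 hNV4
  exact t_FIN hNV hNRM hDDB hUP

theorem fib : S_FIB := t_FIB fin

end Pool.Agent.H410.FC
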