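import Pool.Agent.H410.FC.Stm

/-!
Assembly from the statements (helper410): checks that the dependencies are right.
-/

namespace Pool.Agent.H410.FC

theorem assembly
    (tCB : S_CB) (tSUM : S_CB → S_SUM) (tREC : S_SUM → S_REC) (tCF : S_CF) (tCJ : S_CJ)
    (tDIVR : S_CJ → S_DIVR) (tDIVC : S_CJ → S_DIVC) (tDLS : S_CJ → S_DLS)
    (tENT : S_CF → S_REC → S_CJ → S_DIVR → S_DIVC → S_DLS → S_ENT)
    (tNRM : S_ENT → S_CJ → S_DLS → S_NRM)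
    (tPHI : S_PHI) (tTOT2 : S_TOT2) (tTOT : Pool.Agent.H475.QZ.S_TOT)
    (tDKB : S_PHI → Pool.Agent.H475.QZ.S_TOT → S_DKB) (tDLB : S_PHI → S_TOT2 → S_DLB)
    (tDDB : S_DKB → S_DLB → S_DDB)
    (tKER : S_KER) (tASER : S_CB → S_KER → S_ASER) (tLAG : S_LAG) (tHLL : S_ASER → S_LAG → S_HLL)
    (tVAN : S_VAN) (tNU : Pool.Agent.H475.QZ.S_NU) (tNUX : Pool.Agent.H475.QZ.S_NU → S_NUX)
    (tNUQ : Pool.Agent.H475.QZ.S_NU → S_NUQ) (tNUE : Pool.Agent.H475.QZ.S_NU → S_NUX → S_NUE)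
    (tKB : Pool.Agent.H475.QZ.S_NU → S_NUX → S_NUQ → S_NUE → S_KB)
    (tDEG : S_DEG) (tDVD : S_DVD) (tUP1 : S_HLL → S_VAN → S_KB → S_DVD → S_UP1)
    (tDIV : S_DIV) (tRED : S_REC → S_DIV → S_RED) (tAA : S_CB → S_SUM → S_DIV → S_AA)
    (tENB : S_AA → S_RED → S_UP1 → S_DEG → S_ENB)
    (tDET : S_DET) (tVB : S_VB) (tDU : Pool.Agent.H475.QZ.S_DU)
    (tUP : S_DET → S_ENB → S_DEG → S_VB → Pool.Agent.H475.QZ.S_DU → S_UP)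
    (tRL : S_RL) (tEX1 : S_EX1) (tEX2 : S_EX2) (tNV1 : S_RL → S_NV1)
    (tNV2 : S_RL → S_CF → S_NV1 → S_NV2) (tNV3 : S_RL → S_REC → S_NV1 → S_NV2 → S_NV3)
    (tNV4 : S_RL → S_NV4) (tNV : S_EX1 → S_EX2 → S_NV1 → S_NV3 → S_NV4 → S_NV)
    (tFIN : S_NV → S_NRM → S_DDB → S_UP → S_FIN) (tFIB : S_FIN → S_FIB) :
    S_FIN ∧ S_FIB := by
  have hSUM := tSUM tCB
  have hREC := tREC hSUM
  have hDIVR := tDIVR tCJ
  have hDIVC := tDIVC tCJ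
  have hDLS := tDLS tCJ
  have hENT := tENT tCF hREC tCJ hDIVR hDIVC hDLS
  have hNRM := tNRM hENT tCJ hDLS
  have hDDB := tDDB (tDKB tPHI tTOT) (tDLB tPHI tTOT2)
  have hHLL := tHLL (tASER tCB tKER) tLAG
  have hNUX := tNUX tNU
  have hNUQ := tNUQ tNU
  have hNUE := tNUE tNU hNUX
  have hKB := tKB tNU hNUX hNUQ hNUE
  have hUP1 := tUP1 hHLL tVAN hKB tDVD
  have hRED := tRED hREC tDIV
  have hAA := tAA tCB hSUM tDIV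
  have hENB := tENB hAA hRED hUP1 tDEG
  have hUP := tUP tDET hENB tDEG tVB tDU
  have hNV1 := tNV1 tRL
  have hNV2 := tNV2 tRL tCF hNV1
  have hNV3 := tNV3 tRL hREC hNV1 hNV2
  have hNV4 := tNV4 tRL
  have hNV := tNV tEX1 tEX2 hNV1 hNV3 hNV4
  have hFIN := tFIN hNV hNRM hDDB hUP
  exact ⟨hFIN, tFIB hFIN⟩

end Pool.Agent.H410.FC
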