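import Pool.Agent.H410.FC.Stm

/-! Proof of `S_CB` (project FC of helper410), written by helper740. -/

namespace Pool.Agent.H410.FC

namespace P_CB

theorem main (p x : ℝ) (m : ℤ) (h : 1 / 2 ≤ |1 + x * p ^ m|) :
    |cc p x m| ≤ 2 * (|(m : ℝ)| + 1) ^ 2 := by
  unfold cc
  rw [abs_div, abs_mul, div_le_iff₀ (by linarith)]
  have h1 : |(m : ℝ) + 1| ≤ |(m : ℝ)| + 1 := by
    have := abs_add_le (m : ℝ) 1
    rwa [abs_one] at this
  have h0 := abs_nonneg (m : ℝ)
  have h2 : |(m : ℝ)| * |(m : ℝ) + 1| ≤ (|(m : ℝ)| + 1) ^ 2 := by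
    have h3 := mul_le_mul_of_nonneg_left h1 h0
    nlinarith
  have h4 : 0 ≤ (|(m : ℝ)| + 1) ^ 2 := by positivity
  nlinarith

theorem pos_case (p x : ℝ) (h : Hpx p x) (n : ℕ) (hn : 1 ≤ n) : 1 / 2 ≤ |1 + x * p ^ (n : ℤ)| := by
  obtain ⟨h1, h2, -⟩ := h
  have h3 : (2 : ℝ) ≤ |p| ^ n := by
    calc (2 : ℝ) ≤ |p| := h1
      _ = |p| ^ 1 := (pow_one _).symm
      _ ≤ |p| ^ n := pow_le_pow_right₀ (by linarith) hn
  have h4 : (2 : ℝ) ≤ |x * p ^ (n : ℤ)| := by
    rw [abs_mul, zpow_natCast, abs_pow]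
    nlinarith
  have h5 : |x * p ^ (n : ℤ)| ≤ |1 + x * p ^ (n : ℤ)| + 1 := by
    have h6 := abs_sub (1 + x * p ^ (n : ℤ)) 1
    rw [abs_one, add_sub_cancel_left] at h6
    exact h6
  linarith

theorem neg_case (p x : ℝ) (h : Hpx p x) (n : ℕ) (hn : 2 ≤ n) :
    1 / 2 ≤ |1 + x * p ^ (-(n : ℤ))| := by
  obtain ⟨h1, h2, h3⟩ := h
  have hp : 0 < |p| := by linarith
  have h4 : |x * p ^ (-(n : ℤ))| ≤ 1 / 2 := by
    rw [abs_mul, zpow_neg, zpow_natCast, abs_inv, abs_pow, ← div_eq_mul_inv,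
      div_le_div_iff₀ (by positivity) (by norm_num)]
    have h5 : |p| ^ 2 ≤ |p| ^ n := pow_le_pow_right₀ (by linarith) hn
    nlinarith
  have h5 : (1 : ℝ) ≤ |1 + x * p ^ (-(n : ℤ))| + |x * p ^ (-(n : ℤ))| := by
    have h6 := abs_sub (1 + x * p ^ (-(n : ℤ))) (x * p ^ (-(n : ℤ)))
    rw [add_sub_cancel_right, abs_one] at h6
    exact h6
  linarith

end P_CB

open P_CB in
theorem t_CB : S_CB := by
  intro p x h m
  rcases le_or_gt 1 m with h1 | h1
  · obtain ⟨n, rfl⟩ := Int.eq_ofNat_of_zero_le (by omega : 0 ≤ m)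
    exact main p x _ (pos_case p x h n (by omega))
  · rcases le_or_gt m (-2) with h2 | h2
    · obtain ⟨n, hn⟩ := Int.eq_ofNat_of_zero_le (by omega : 0 ≤ -m)
      have e : m = -(n : ℤ) := by omega
      subst e
      exact main p x _ (neg_case p x h n (by omega))
    · have h3 : cc p x m = 0 := by
        unfold cc
        have h4 : m = 0 ∨ m = -1 := by omega
        rcases h4 with h4 | h4
        · subst h4
          simp
        · subst h4
          simp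
      rw [h3, abs_zero]
      positivity

end Pool.Agent.H410.FC
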