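import Pool.Agent.H410.FC.Bas
import Pool.Agent.H475.QZ.Stm

/-!
Statements (with complete paper proofs in the docstrings) for the theorem:
`∑ 1/F_n^3` is irrational (more generally `∑ 1/U_n^3` for the Lucas sequences
`U_{n+2} = a U_{n+1} - ε U_n`, `ε = ±1`, with real roots). Definitions in `Defs.lean`, basic
facts about `α = al a ε`, `β = be a ε`, `p = pp a ε = ε α²`, `x = x0 a ε = -ε α` in `Bas.lean`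
(please look at the list there first). Many statements of parts A and D are versions for real
`p` of lemmas of `Pool.Agent.H475.QZ` (statement file `Pool/Agent/H475/QZ/Stm.lean`, proofs in
`Pool/Agent/H475/QZ/P_*.lean`), the name of the model is given as [QZ: name].
-/

namespace Pool.Agent.H410.FC

open Finset Polynomial
open Pool.Agent.H475.QZ (nu)

/-! ## A. series -/

/-- Bound for `c_m`.
Proof. `m = 0, -1`: `c_m = 0`. `m ≥ 1`: `|1 + x p^m| ≥ |x||p|^m - 1 ≥ 2 - 1 = 1`, so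
`|c_m| ≤ m(m+1)`. `m ≤ -2`: `|x p^m| ≤ |p|^(m+1) ≤ 1/2`, so `|1 + x p^m| ≥ 1/2` and
`|c_m| ≤ 2 |m| |m+1| ≤ 2 m²`. -/
def S_CB : Prop := ∀ p x : ℝ, Hpx p x → ∀ m : ℤ, |cc p x m| ≤ 2 * (|(m : ℝ)| + 1) ^ 2

/-- Summability (`K ≥ 1`). [QZ: SUM]
Proof. By `S_CB` the absolute value of the term is at most
`2^(-(e+1)) · 2 (e + 1 + |J| + 1)^2`. -/
def S_SUM : Prop := ∀ p x : ℝ, Hpx p x → ∀ K : ℕ, 1 ≤ K → ∀ J : ℤ,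
  Summable (fun e : ℕ => (p ^ (K * (e + 1)))⁻¹ * cc p x ((e : ℤ) + 1 + J))

/-- The recurrence in `J`.
Proof. `a(K,J) = p^{-K} c_{J+1} + ∑_{e ≥ 1} p^{-K(e+1)} c_{e+1+J} = p^{-K}(c_{J+1} + a(K,J+1))`
(`Summable.tsum_eq_zero_add`, `tsum_mul_left`). -/
def S_REC : Prop := ∀ p x : ℝ, Hpx p x → ∀ K : ℕ, 1 ≤ K → ∀ J : ℤ,
  ac p x K (J + 1) = p ^ K * ac p x K J - cc p x (J + 1)

/-- Closed form of `a(K,0)`.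
Proof. Write `α, β, √D = sD`, `z_l = (β/α)^l = ε^l α^{-2l}`. For `l ≥ 1`
`1/U_l^3 = D^{3/2} α^{-3l} (1-z_l)^{-3} = D^{3/2} ∑_{m ≥ 1} (m(m+1)/2) α^{-3l} z_l^{m-1}`
(`tsum_choose_mul_geometric_of_norm_lt_one` with `(m+1 choose 2)`, i.e. `(n+2 choose 2)`,
`n = m-1`), and `α^{-3l} z_l^{m-1} = R_m^l`, `R_m = ε^{m-1} α^{-(2m+1)}`, i.e.
`R_m⁻¹ = ε^{m+1} α^{2m+1} = -x p^m`. Summing over `l > K` (absolutely convergent double series,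
`|R_m^l| ≤ α^{-(2m+1) l}`): `∑_{l > K} R_m^l = R_m^K/(R_m⁻¹ - 1) = -(-x p^m)^{-K}/(1 + x p^m)`.
So `SS - ∑_{l ≤ K} 1/U_l^3 = ∑_{l>K} 1/U_l^3 = -(D^{3/2}/2) (-x)^{-K} ∑_m p^{-Km} c_m
= -(D^{3/2}/2) (-x)^{-K} a(K,0)`, and `-x = ε α`. (Also the series `SS` converges.) -/
def S_CF : Prop := ∀ a ε : ℤ, OK a ε → ∀ K : ℕ, 1 ≤ K →
  ac (pp a ε) (x0 a ε) K 0 =
    (ε * al a ε) ^ K * (-2 / sD a ε ^ 3) *
      (SS a ε - ∑ l ∈ Icc 1 K, 1 / (U a ε l : ℝ) ^ 3)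

/-! ## B. integrality (conjugate pairs) -/

/-- Rules for conjugate pairs.
Proof. Polynomial witnesses: `f + g`, `f g`, `-f`, `C n`; swap: `f.comp (C a - X)` (as
`a - α = β`); `α`: `X`, `p = ε α²`: `C ε * X^2` gives `(p, ε β²) = (p, p⁻¹)` (`pp_inv`), and
`p⁻¹`: swap; `sD = 2α - a`: `2X - C a` gives `(sD, 2β - a) = (sD, -sD)`; `ε α`. Norm: divide
`f` by the monic polynomial `X² - a X + ε` (`Polynomial.modByMonic`): `f = c + d X` modulo it, so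
`z = c + d α`, `z' = c + d β`, `z z' = c² + a c d + ε d²` (an integer), and `z' = 0` would give
`d = 0` (`β = a - α` irrational) and then `c = 0`, `z = 0`. So `z z'` is a nonzero integer. -/
def S_CJ : Prop := ∀ a ε : ℤ, OK a ε →
  (∀ n : ℤ, Cj a ε n n) ∧
  (∀ z z' w w' : ℝ, Cj a ε z z' → Cj a ε w w' → Cj a ε (z + w) (z' + w')) ∧
  (∀ z z' w w' : ℝ, Cj a ε z z' → Cj a ε w w' → Cj a ε (z * w) (z' * w')) ∧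
  (∀ z z' : ℝ, Cj a ε z z' → Cj a ε (-z) (-z')) ∧
  (∀ z z' : ℝ, Cj a ε z z' → Cj a ε z' z) ∧
  (Cj a ε (al a ε) (be a ε)) ∧
  (Cj a ε (pp a ε) (pp a ε)⁻¹) ∧
  (Cj a ε (sD a ε) (-sD a ε)) ∧
  (∀ (s : Finset ℕ) (f f' : ℕ → ℝ), (∀ i ∈ s, Cj a ε (f i) (f' i)) →
    Cj a ε (∑ i ∈ s, f i) (∑ i ∈ s, f' i)) ∧
  (∀ (s : Finset ℕ) (f f' : ℕ → ℝ), (∀ i ∈ s, Cj a ε (f i) (f' i)) →
    Cj a ε (∏ i ∈ s, f i) (∏ i ∈ s, f' i)) ∧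
  (∀ (N : ℕ) (A A' : Matrix (Fin N) (Fin N) ℝ), (∀ i j, Cj a ε (A i j) (A' i j)) →
    Cj a ε A.det A'.det) ∧
  (∀ (g : Polynomial ℤ) (z z' : ℝ), Cj a ε z z' → Cj a ε (aeval z g) (aeval z' g)) ∧
  (∀ z z' : ℝ, Cj a ε z z' → z ≠ 0 → 1 ≤ |z * z'|)

/-- Row denominators: `U_l ∣ D_K` for `1 ≤ l ≤ K`.
Proof. `pp_pow_sub` for `l` and for `1`: `p^l - 1 = (εα)^l √D U_l`, `p - 1 = ε α √D`, and
`p^l - 1 = ∏_{d ∣ l} Φ_d(p) = (p-1) ∏_{d ∣ l, d ≥ 2} Φ_d(p)`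
(`Polynomial.prod_cyclotomic_eq_X_pow_sub_one`). So `U_l = (εα)^{1-l} ∏_{2 ≤ d ∣ l} Φ_d(p)` and
`D_K/U_l = (εα)^{l-1} ∏_{2 ≤ d ≤ K, d ∤ l} Φ_d(p)`. The same computation with `α, β` exchanged
(`p` becomes `p⁻¹ = ε β²`, `√D` becomes `-√D`, `U_l` stays) gives
`D_K(p⁻¹)/U_l = (εβ)^{l-1} ∏_{2 ≤ d ≤ K, d ∤ l} Φ_d(p⁻¹)`. The cyclotomic polynomials have
integer coefficients, so the two numbers are a conjugate pair. -/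
def S_DIVR : Prop := ∀ a ε : ℤ, OK a ε → ∀ K l : ℕ, 1 ≤ l → l ≤ K →
  Cj a ε (DK (pp a ε) K / U a ε l) (DK (pp a ε)⁻¹ K / U a ε l)

/-- Column denominators: `1 + x p^m ∣ Δ_J(α)` for `0 ≤ m ≤ J`.
Proof. Let `e = 2m+1`, `η = ε^(m+1) = eta ε e`, `η = ±1`. Then `x p^m = -ε^{m+1} α^{2m+1} =
-(η α)^e` (as `η^e = η`), so `1 + x p^m = 1 - (ηα)^e = -∏_{d ∣ e} Φ_d(η α)`. If `d ∣ e` then `d`
is odd, `d ≤ 2J+1`, `eta ε d = ±1`, so `η = eta ε d` or `η = -eta ε d`; in the second case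
`d ≠ e`, so `e ≥ 3d` (`e/d` odd) and `d ≤ (2J+1)/3`. So the factors `Φ_d(ηα)`, `d ∣ e`, are
factors of `Δ_J(α)` for different `d` (in the first or second product), and
`Δ_J(α)/(1+x p^m)` is minus the product of the remaining factors (all of the form
`Φ_d(± α)`). The same with `β`: `1 + x p^{-1-m} = 1 - (ηβ)^e` because
`x p^{-1-m} = -εα (εβ²)^{m+1} = -ε^{m+2} α β β^{2m+1} = -ε^{m+1} β^{2m+1}` (`αβ = ε`,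
`ε² = 1`). -/
def S_DIVC : Prop := ∀ a ε : ℤ, OK a ε → ∀ J m : ℕ, m ≤ J →
  Cj a ε (Dl ε (al a ε) J / (1 + x0 a ε * pp a ε ^ (m : ℤ)))
    (Dl ε (be a ε) J / (1 + x0 a ε * pp a ε ^ (-1 - (m : ℤ))))

/-- `Δ_J ∣ Δ_{J+1}` (as conjugate pairs: the quotient is a conjugate pair), and `Δ_J ≠ 0`.
Proof. The index sets grow; the quotient is the product of the new factors `Φ_d(±α)`, resp.
`Φ_d(±β)`. Nonvanishing: `Φ_d(y) ≠ 0` for real `y` with `|y| ≠ 1`, as it divides `y^d - 1`. -/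
def S_DLS : Prop := ∀ a ε : ℤ, OK a ε → ∀ J : ℕ,
  Dl ε (al a ε) J ≠ 0 ∧ Dl ε (be a ε) J ≠ 0 ∧
  Cj a ε (Dl ε (al a ε) (J + 1) / Dl ε (al a ε) J) (Dl ε (be a ε) (J + 1) / Dl ε (be a ε) J)

/-- The entries, if `SS = s/v`. Write `a(J) = a(K,J)`, `a'(J) = -p^K a(K,-2-J)`,
`M = v √D³ D_K(p)³`, `M' = v (-√D)³ D_K(p⁻¹)³`.
Proof. (0) By `S_CF`, `M a(0) = -2 (εα)^K D_K(p)^3 (s - ∑_{l≤K} v/U_l^3)`. By `S_REC` (with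
`c_0 = c_{-1} = 0`) `a(-1) = p^{-K} a(0)`, `a(-2) = p^{-2K} a(0)`, so
`a'(0) = -p^{-K} a(0) = -(εβ)^K (-2/√D³) (SS - ...)`, as
`p^{-K}(εα)^K = (ε β² ε α)^K = (εβ)^K` (`ε² = 1`, `αβ = ε`). So
`M' a'(0) = v (-√D³) D_K(p⁻¹)³ · (-(εβ)^K)(-2/√D³)(SS-…) = -2 (εβ)^K D_K(p⁻¹)^3 (s - ∑ v/U_l^3)`.
By `S_DIVR` (cubes) `(M a(0), M' a'(0))` is a conjugate pair.
(i) `J ≥ 0`: induction on `J`: `(M Δ_J(α) a(J), M' Δ_J(β) a'(J))` is a conjugate pair. By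
`S_REC`: `a(J+1) = p^K a(J) - c_{J+1}` and `a'(J+1) = -p^K a(-3-J) = -(a(-2-J) + c_{-2-J})
= p^{-K} a'(J) - c_{-2-J}`. Multiply by `M Δ_{J+1}(α)` resp. `M' Δ_{J+1}(β)`; use `S_DLS`, and
`S_DIVC` with `m = J+1` for `Δ_{J+1}(α) c_{J+1} = (J+1)(J+2) Δ_{J+1}(α)/(1+x p^{J+1})` and
`Δ_{J+1}(β) c_{-2-J} = (J+2)(J+1) Δ_{J+1}(β)/(1+x p^{-1-(J+1)})`. `M`, `M'` are a conjugate
pair (`D_K(p)`, `D_K(p⁻¹)` are, and `√D, -√D`).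
(ii) `J = -1`: `a(-1) = p^{-K} a(0)`, `a'(-1) = -p^K a(-1) = -a(0) = p^K a'(0)`.
(iii) `J = -2-j`, `j ≥ 0`: `(M Δ_j(β) a(-2-j), M' Δ_j(α) a'(-2-j))`, `a'(-2-j) = -p^K a(j)`, by
induction on `j`: `j = 0`: `a(-2) = p^{-2K} a(0)`, `-p^K a(0) = p^{2K} a'(0)`. Step:
`a(-3-j) = p^{-K}(a(-2-j) + c_{-2-j})` and `-p^K a(j+1) = p^K (-p^K a(j)) + p^K c_{j+1}`, and
`(Δ_{j+1}(β) c_{-2-j}, Δ_{j+1}(α) c_{j+1})` is a conjugate pair (swap of the above). -/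
def S_ENT : Prop := ∀ a ε : ℤ, OK a ε → ∀ s v : ℤ, v ≠ 0 → SS a ε * v = s →
  ∀ K : ℕ, 1 ≤ K → ∀ J : ℤ,
  Cj a ε
    (v * sD a ε ^ 3 * DK (pp a ε) K ^ 3 * Dc ε (al a ε) (be a ε) J *
      ac (pp a ε) (x0 a ε) K J)
    (v * (-sD a ε) ^ 3 * DK (pp a ε)⁻¹ K ^ 3 * Dc ε (be a ε) (al a ε) J *
      (-(pp a ε ^ K * ac (pp a ε) (x0 a ε) K (-2 - J))))

/-- The norm inequality. With `N = 2n+1`.
Proof. Let `A_kj = v √D³ D_{k+1}(p)³ · Dc(α,β)(-n+j) · a(k+1,-n+j)` and `A'_kj` the second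
components in `S_ENT`, `K = k+1`, `J = -n+j`. By `S_ENT` and `S_CJ` `(det A, det A')` is a
conjugate pair. `det A = ∏_k (v √D³ D_{k+1}³) ∏_j Dc(-n+j) · det AM(-n)` (`Matrix.det_mul_row`,
`Matrix.det_mul_column`), nonzero: `D_K(p) ≠ 0` and `Dc ≠ 0` because `Φ_d(y)` divides
`y^d - 1 ≠ 0` for real `|y| ≠ 1`. `A'_kj = (v (-√D)³ D_{k+1}(p⁻¹)³) (-p^{k+1}) Dc(β,α)(-n+j)
a(k+1, n-2-j)`, and `n - 2 - j = -(n+2) + (2n - j)`, so up to the reversal of the columns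
(`Fin.revPerm`, `Matrix.det_permute'`, sign `±1`) the matrix `(a(k+1,n-2-j))` is `AM(-(n+2))`.
`|∏_k (-p^{k+1})| = |p|^{∑_{k<N}(k+1)} = |p|^{(2n+1)(n+1)}`. Now `1 ≤ |det A det A'|`. -/
def S_NRM : Prop := ∀ a ε : ℤ, OK a ε → ∀ s v : ℤ, v ≠ 0 → SS a ε * v = s → ∀ n : ℕ,
  (AM (pp a ε) (x0 a ε) (-(n : ℤ)) (2 * n + 1)).det ≠ 0 →
  1 ≤ (|(v : ℝ)| * sD a ε ^ 3) ^ (2 * (2 * n + 1)) *
    (DD ε (pp a ε) (al a ε) (be a ε) n * DD ε (pp a ε)⁻¹ (be a ε) (al a ε) n) *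
    |pp a ε| ^ ((2 * n + 1) * (n + 1)) *
    (|(AM (pp a ε) (x0 a ε) (-(n : ℤ)) (2 * n + 1)).det| *
      |(AM (pp a ε) (x0 a ε) (-((n + 2 : ℕ) : ℤ)) (2 * n + 1)).det|)

/-! ## C. size of the denominators -/

/-- Size of `Φ_n(y)`. [QZ: PHI]
Proof. First part: `q = 1/y`, `|q| ≤ 2/3`, `f(n) = Φ_n(y)/y^φ(n)`,
`∏_{d∣n} f(d) = 1 - q^n =: g(n) ≠ 0`. Moebius inversion
(`ArithmeticFunction.prod_eq_iff_prod_pow_moebius_eq_of_nonzero`):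
`|f(n)| ≤ ∏_{e ∣ n} max(|g(e)|, |g(e)|⁻¹) ≤ ∏_{e=1}^n (1-(2/3)^e)⁻¹ ≤ 16` because
`∏_{e=1}^4 (1-(2/3)^e) ≥ 0.1045` and `∏_{e=5}^n (1-(2/3)^e) ≥ 1 - ∑_{e≥5} (2/3)^e
= 1 - 3 (2/3)^5 ≥ 0.604`. Second part: `g(n) = 1 - y^n` (with sign: `∏_{d ∣ n} Φ_d(y) = y^n - 1`,
`|y^n-1|` lies between `1-(2/3)^n` and `(1-(2/3)^n)⁻¹`), the same inversion for `Φ_n(y)`. -/
def S_PHI : Prop := ∀ (y : ℝ) (n : ℕ), 1 ≤ n →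
  (3 / 2 ≤ |y| → |(Polynomial.cyclotomic n ℝ).eval y| ≤ 16 * |y| ^ (Nat.totient n)) ∧
  (|y| ≤ 2 / 3 → |(Polynomial.cyclotomic n ℝ).eval y| ≤ 16)

/-- `75 ∑_{i ≤ k, i odd} φ(i) ≤ 16 (k+30)(k+60)`. [QZ: TOT, the pointwise bound is there]
Proof. `30 φ(i) ≤ i W(i mod 30)`, `W(r) = 30 φ(gcd(r,30))/gcd(r,30)`, and
`∑_{r odd, 1 ≤ r ≤ 30} W(r) = 384`. With `K' = ⌈k/30⌉`:
`30 ∑ φ(i) ≤ ∑_{m<K'} 30 (m+1) 384`, so `∑ φ(i) ≤ 192 K'(K'+1)`, `30K' ≤ k+30`,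
`30(K'+1) ≤ k+60`, and `75 · 192/900 = 16`. -/
def S_TOT2 : Prop := ∀ k : ℕ,
  75 * ∑ i ∈ (Icc 1 k).filter (fun i => i % 2 = 1), Nat.totient i ≤ 16 * (k + 30) * (k + 60)

/-- Bound for `D_K(p) D_K(p⁻¹)` (power 25). `hTOT` is `Pool.Agent.H475.QZ.S_TOT`
(`25 ∑_{i ≤ k} φ(i) ≤ 8 (k+30)(k+60)`).
Proof. `|p| = α² ≥ 2.56`, `|p⁻¹| ≤ 0.4`; by `S_PHI` each factor is at most
`16 · 16 · |p|^φ(d) ≤ α^12 α^{2φ(d)}` (`16 ≤ α^6`: `1.6^6 = 16.77`), so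
`|D_K(p)||D_K(p⁻¹)| ≤ α^{12K + 2∑φ(d)}`. -/
def S_DKB : Prop := ∀ a ε : ℤ, OK a ε → ∀ K : ℕ,
  (|DK (pp a ε) K| * |DK (pp a ε)⁻¹ K|) ^ 25 ≤ al a ε ^ (300 * K + 16 * (K + 30) * (K + 60))

/-- Bound for `Δ_J(α) Δ_J(β)` (power 75).
Proof. `|±α| ≥ 1.6`, `|±β| ≤ 0.625`, `eta = ±1`; by `S_PHI` each `d` contributes at most
`16 · 16 · α^φ(d) ≤ α^{12+φ(d)}`; the number of odd `d ≤ 2J+1` is `J+1`, the second product has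
at most `J+1` factors: `≤ α^{24(J+1) + ∑_{odd d ≤ 2J+1} φ(d) + ∑_{odd d ≤ (2J+1)/3} φ(d)}`, and
`S_TOT2` for `k = 2J+1` and `k = (2J+1)/3` (floor). -/
def S_DLB : Prop := ∀ a ε : ℤ, OK a ε → ∀ J : ℕ,
  (|Dl ε (al a ε) J| * |Dl ε (be a ε) J|) ^ 75 ≤
    al a ε ^ (1800 * (J + 1) + 16 * (2 * J + 31) * (2 * J + 61) +
      16 * ((2 * J + 1) / 3 + 30) * ((2 * J + 1) / 3 + 60))

/-- Bound for all denominators, power 2025 = 25·81 = 75·27.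
Proof. `DD DD' = ∏_{K=1}^{2n+1} (|D_K(p)||D_K(p⁻¹)|)^3 ∏_{J=-n}^{n} |Dc(α,β)(J) Dc(β,α)(J)|`. The
rows (power `2025 = 81·25`, cube): exponent
`∑_{K=1}^{2n+1} 243 (300K + 16(K+30)(K+60))`, leading term `243·16·(2n)³/3 = 10368 n³`. The
columns: `J ≥ 0`: `Δ_J(α)Δ_J(β)`, `0 ≤ J ≤ n`; `J ≤ -2`: the same for `-2-J ∈ [0, n-2]`; `J = -1`:
`1`. Power `2025 = 27·75`: exponent `27(1800(J+1) + 16(2J+31)(2J+61) + 16((2J+1)/3+30)(...))`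
with leading term `27 (64 + 64/9) J²`, summed over both signs: `2·27·(640/9) n³/3 = 1280 n³`.
Total `11648 n³`, the rest is `O(n²)` (for `n ≥ 1`; e.g. replace the floor `(2J+1)/3` by the
bound `3·⌊·⌋ ≤ 2J+1`, multiply by 9, and prove polynomial bounds by induction on `n`). -/
def S_DDB : Prop := ∀ a ε : ℤ, OK a ε → ∃ C : ℕ, ∀ n : ℕ, 1 ≤ n →
  (DD ε (pp a ε) (al a ε) (be a ε) n * DD ε (pp a ε)⁻¹ (be a ε) (al a ε) n) ^ 2025 ≤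
    al a ε ^ (11648 * n ^ 3 + C * n ^ 2)

/-! ## D. analytic upper bound for the determinants -/

/-- The kernel identity. [QZ: KER, which is the part `2 coeff_2`]
Proof. Put `E = exp`, `y = u/P`, `|y| ≤ 1/2`, `r = 1/(1-y)`. `E^m` has the coefficients
`1, m, m²/2`, `(C P - C u E)⁻¹ = C P⁻¹ (1 - C y E)⁻¹` and `(1 - C y E)⁻¹` has the coefficients
`r, y r², y r²/2 + y² r³`. So the left side is
`P⁻¹ u^m (m² r + 2 m y r² + y(1+y) r³ + m r + y r²)`; the right side is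
`P⁻¹ u^m ∑_{e ≥ 0} y^e ((e+m)² + (e+m))` with `∑ y^e = r`, `∑ e y^e = y r²`,
`∑ e² y^e = y(1+y) r³`. -/
def S_KER : Prop := ∀ u P : ℝ, |u| ≤ 1 / 2 → 1 ≤ |P| → ∀ m : ℕ, 1 ≤ m →
  Dg ((PowerSeries.C u * PowerSeries.exp ℝ) ^ m *
    (PowerSeries.C P - PowerSeries.C u * PowerSeries.exp ℝ)⁻¹) =
  ∑' e : ℕ, (P ^ (e + 1))⁻¹ * (((e + m : ℕ) : ℝ) * ((e + m : ℕ) + 1)) * u ^ (e + m)

/-- Series for `a(K,J)`, `K ≥ 1`, `J ≥ 0`. [QZ: ASER]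
Proof. For `n ≥ 1`, `|x p^n| ≥ 2`: `c_n = n(n+1)/(1+x p^n) = ∑_{t ≥ 1} w_t n(n+1) (p^{-t})^n`,
`w_t = -(-x)^{-t}`. So `a(K,J) = ∑_e ∑_{t≥0} f(e,t)`,
`f(e,t) = (p^(K(e+1)))⁻¹ w_{t+1} n(n+1) (xt p (t+1))^n`, `n = e+1+J`, and
`|f(e,t)| ≤ n(n+1) 2^(-(t+1)n) ≤ n(n+1) 2^{-n} 2^{-t}`; exchange the sums and use `S_KER` with
`u = xt p (t+1)`, `P = p^K`, `m = J+1`. -/
def S_ASER : Prop := ∀ p x : ℝ, Hpx p x → ∀ K J : ℕ, 1 ≤ K →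
  HasSum (fun t : ℕ => wt x (t + 1) * Dg (XX p (t + 1) ^ (J + 1) *
    (PowerSeries.C (p ^ K) - XX p (t + 1))⁻¹)) (ac p x K J)

/-- Lagrange interpolation at the power series `X_t`. [QZ: LAG] -/
def S_LAG : Prop := ∀ p : ℝ, 2 ≤ |p| → ∀ N t : ℕ, 1 ≤ t → ∀ F : Polynomial ℝ,
  F.natDegree < N →
  ∑ k ∈ range N, PowerSeries.C (F.eval (p ^ (k + 1)) / pik p N k) *
    (PowerSeries.C (p ^ (k + 1)) - XX p t)⁻¹ = Polynomial.aeval (XX p t) F * (QQ p N t)⁻¹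

/-- Series for `L(F,G)`. [QZ: HLL] -/
def S_HLL : Prop := ∀ p x : ℝ, Hpx p x → ∀ (N : ℕ) (F G : Polynomial ℝ),
  F.natDegree < N → G.natDegree < N →
  HasSum (fun t : ℕ => kap p x N (t + 1) (F * G)) (LL p x N F G)

/-- Vanishing. [QZ: VAN] `Dg` of a multiple of `X^3` is `0`. -/
def S_VAN : Prop := ∀ (p x : ℝ) (N t : ℕ) (F : Polynomial ℝ),
  (Polynomial.X - Polynomial.C (xt p t)) ^ 3 ∣ F → kap p x N t F = 0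

/-- Bounds for `X_t - x_s` and `X_t^m`. [QZ: NUX] -/
def S_NUX : Prop := ∀ p : ℝ, 2 ≤ |p| →
  (∀ s t : ℕ, s ≤ t →
    nu (XX p t - PowerSeries.C (xt p s)) ≤ |xt p s| * (1 + 5 / 2 * (1 / 2) ^ (t - s))) ∧
  (∀ t m : ℕ, nu (XX p t ^ m) ≤ |xt p t| ^ m * ((m : ℝ) + 1) ^ 2)

/-- Bound for `Q(X_t)⁻¹`. [QZ: NUQ] (now with `p^(k+1)`, `k < N`, and
`w = ∏_{k<N} |p|^{-(k+1)} = |p|^{-N(N+1)/2}`) -/
def S_NUQ : Prop := ∀ p : ℝ, 2 ≤ |p| → ∀ N t : ℕ, 1 ≤ t →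
  nu ((QQ p N t)⁻¹) ≤ 3 ^ 12 * ww p N

/-- Bound for `E_a(X_t)`, `t > a`. [QZ: NUE] -/
def S_NUE : Prop := ∀ p : ℝ, 2 ≤ |p| → ∀ a t : ℕ, a < t →
  nu (Polynomial.aeval (XX p t) (EE p a)) ≤ 13 * ea p a

/-- Bound for `κ_t`, `t > max(a,a')`. [QZ: KB]
Proof. `|Dg f| ≤ 2 ν(f)`, `|w_t| ≤ 1`, and submultiplicativity:
`ν(X_t^{j+1}) ≤ |x_t|^{j+1} (j+2)² ≤ |x_t| (j+2)²`, `ν(E_a)^3 ≤ 13³ e_a³`,
`ν(X_t - x_{a+1})^c ≤ ((7/2)|x_{a+1}|)^c ≤ (7/2)^2` (as `a+1 ≤ t`), `ν(Q⁻¹) ≤ 3^12 w`. -/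
def S_KB : Prop := ∀ p x : ℝ, Hpx p x → ∀ N t a a' c c' j : ℕ, a < t → a' < t → c ≤ 2 →
  c' ≤ 2 →
  |kap p x N t (X ^ j * (FF p a c * FF p a' c'))| ≤
    C3 * ((j : ℝ) + 2) ^ 2 * |xt p t| * ea p a ^ 3 * ea p a' ^ 3 * ww p N

/-- Degrees of the `FF` and `BF`: monic of degree `3a+c` resp. `i`. [QZ: DEG]
(`BF`: `X^i`, or `X^n0 * FF ..` of degree `n0 + 3⌊i'/3⌋ + i' mod 3 = i`.) -/
def S_DEG : Prop := ∀ p : ℝ, (∀ a c : ℕ, (FF p a c).Monic ∧ (FF p a c).natDegree = 3 * a + c) ∧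
  (∀ n0 i : ℕ, (BF p n0 i).Monic ∧ (BF p n0 i).natDegree = i)

/-- Divisibility. [QZ: DVD] -/
def S_DVD : Prop := ∀ (p : ℝ) (a c t : ℕ), 1 ≤ t → t ≤ a →
  (Polynomial.X - Polynomial.C (xt p t)) ^ 3 ∣ FF p a c

/-- Upper bound for `L(F,G)` when `F G = X^j FF FF`. [QZ: UP1]
Proof. `L = ∑_{t≥1} κ_t` (`S_HLL`). If `1 ≤ t ≤ max(a,a')`, `κ_t = 0` by `S_VAN`, `S_DVD`. If
`t > max(a,a')` use `S_KB` and `|x_t| ≤ 2^{-t}`, `∑_{t≥1} 2^{-t} = 1`. -/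
def S_UP1 : Prop := ∀ p x : ℝ, Hpx p x → ∀ (N : ℕ) (F G : Polynomial ℝ) (a a' c c' j : ℕ),
  c ≤ 2 → c' ≤ 2 → F.natDegree < N → G.natDegree < N →
  F * G = X ^ j * (FF p a c * FF p a' c') →
  |LL p x N F G| ≤ C3 * ((j : ℝ) + 2) ^ 2 * ea p a ^ 3 * ea p a' ^ 3 * ww p N

/-- Divided differences.
Proof. (i) Lagrange interpolation: for `deg f < N` the coefficient of `X^{N-1}` of `f` is
`∑_k f(p^{k+1})/∏_{l≠k}(p^{k+1}-p^{l+1})` (see [QZ: HR]), `= ± ∑_k f(p^{k+1})/π_k`; it is `0` if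
`deg f + 1 < N`. (ii) `∑_k p^{-(k+1) f}/π_k`, `f ≥ 1`: apply the partial fraction identity
`∑_k 1/(π_k (p^{k+1} - z)) = ∏_k (p^{k+1}-z)⁻¹` as power series in `z`
(`1/(P - z) = ∑_f P^{-f} z^{f-1}`): the number is the coefficient of `z^{f-1}` of
`∏_{k<N} (p^{k+1}-z)⁻¹ = ∏_k p^{-(k+1)} ∏_k ∑_i (z p^{-(k+1)})^i`, whose absolute value is at most
`w h_{f-1}`, `h_j` = the coefficient of `z^j` in `∏_{k<N} (1 - z 2^{-(k+1)})⁻¹`. Here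
`h_j ≤ 20 (2/3)^j`: by induction on `N` (`h^{(N+1)}_j = ∑_{i ≤ j} 2^{-(N+1)i} h^{(N)}_{j-i}`)
`h^{(N)}_j ≤ (2/3)^j ∏_{k<N} (1 - (3/2) 2^{-(k+1)})⁻¹` and
`∏_{k≥0} (1-(3/2)2^{-(k+1)}) = 1/4 · 5/8 · 13/16 · 29/32 · ... ≥ 1/20`
(`∏_{k ≥ 4}(1 - (3/2) 2^{-(k+1)}) ≥ 1 - (3/2)·2^{-4} ≥ 0.9`; the first four factors give
`0.1150...`, so the product is `≥ 0.103`). -/
def S_DIV : Prop := ∀ p : ℝ, 2 ≤ |p| → ∀ N : ℕ, 1 ≤ N →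
  (∀ f : Polynomial ℝ, f.natDegree + 1 < N →
    ∑ k ∈ range N, f.eval (p ^ (k + 1)) / pik p N k = 0) ∧
  (∀ f : ℕ, 1 ≤ f →
    |∑ k ∈ range N, ((p ^ (k + 1)) ^ f)⁻¹ / pik p N k| ≤ 20 * (2 / 3) ^ (f - 1) * ww p N)

/-- Reduction of `LW` to `LL`.
Proof. (i) `F = X^n0 F1`: iterate `S_REC`: `p^{K n0} a(K,J) = a(K,J+n0) +
∑_{i=1}^{n0} p^{K(n0-i)} c_{J+i}`, `K = k+1`, `J = j - n0`. So `LW(X^n0 F1, G) =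
∑_k∑_j F1(p^K)/π_k (a(K,j) + ∑_i p^{K(n0-i)} c_{J+i}) G_j` and for each `i, j` the sum over `k`
of `F1(p^K) p^{K(n0-i)}/π_k` vanishes by `S_DIV` (i): the polynomial `F1 X^{n0-i}` has degree
`≤ deg F1 + n0 - 1`, and `deg F1 + n0 < N`. (ii) `G = X^n0 G1`: shift of the index `j`
(`coeff (X^n0 G1) j = 0` for `j < n0`, `= coeff G1 (j-n0)` else; `coeff G1 j = 0` for
`j ≥ N - n0`). -/
def S_RED : Prop := ∀ p x : ℝ, Hpx p x → ∀ (N n0 : ℕ),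
  (∀ F1 G : Polynomial ℝ, F1.natDegree + n0 < N → G.natDegree < N →
    LW p x N n0 (X ^ n0 * F1) G = LL p x N F1 G) ∧
  (∀ F G1 : Polynomial ℝ, F.natDegree < N → G1.natDegree + n0 < N →
    LW p x N n0 F (X ^ n0 * G1) = LL p x N F G1)

/-- The block of the negative columns.
Proof. `LW(X^i,X^j) = ∑_k p^{(k+1)i}/π_k a(k+1,J)`, `J = j - n0`,
`= ∑_{e ≥ 1} (∑_k p^{(k+1)(i-e)}/π_k) c_{e+J}` (finite sum of convergent series). For `e ≤ i` the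
inner sum is `0` by `S_DIV` (i) (degree `i - e ≤ i - 1`, `i - e + 1 ≤ i < n0 ≤ N`). For
`e = i + f`, `f ≥ 1` it is at most `20 (2/3)^{f-1} w`, and
`|c_{e+J}| ≤ 2 (|i+f+j-n0| + 1)^2 ≤ 2 (N + f + 1)^2 ≤ 2 (N+2)^2 f^2` (`|i + j - n0| ≤ N`). So
the sum is at most `40 w (N+2)^2 ∑_{f≥1} f^2 (2/3)^{f-1} = 40·45 w (N+2)^2` (`∑_{f≥1} f² y^{f-1} =
(1+y)/(1-y)^3 = 45` at `y = 2/3`). -/
def S_AA : Prop := ∀ p x : ℝ, Hpx p x → ∀ (N n0 i j : ℕ), n0 ≤ N → i < n0 → j < n0 →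
  |LW p x N n0 (X ^ i) (X ^ j)| ≤ 1800 * ((N : ℝ) + 2) ^ 2 * ww p N

/-- Bound for all entries in the basis `BF`.
Proof. Cases. `i, j < n0`: `S_AA`. `i ≥ n0`, any `j`: `F = X^n0 FF(..)`, so
`LW(F,G) = LL(FF(..),G)` by `S_RED` (i), and `FF(a,c) G` is `X^j (FF(a,c) FF(0,0))`
(`FF(0,0) = 1`, `e_0 = 1`) or `X^n0 (FF FF)`: `S_UP1`. `i < n0`, `j ≥ n0`: `S_RED` (ii),
`X^i FF(a',c') = X^i (FF(0,0) FF(a',c'))`, `S_UP1`. All exponents of `X` are `≤ N` (indeed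
`< N`). `C3 ≥ 1800`. -/
def S_ENB : Prop := ∀ p x : ℝ, Hpx p x → ∀ (N n0 i j : ℕ), n0 ≤ N → i < N → j < N →
  |LW p x N n0 (BF p n0 i) (BF p n0 j)| ≤
    (C3 * ((N : ℝ) + 2) ^ 2 * ww p N) * rr p n0 i * rr p n0 j

/-- The determinant identity. [QZ: DET] -/
def S_DET : Prop := ∀ (p : ℝ), 2 ≤ |p| →
  ∀ (N : ℕ) (B : Matrix (Fin N) (Fin N) ℝ) (F G : Fin N → Polynomial ℝ),
  (∀ i, (F i).Monic ∧ (F i).natDegree = i) → (∀ i, (G i).Monic ∧ (G i).natDegree = i) →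
  |B.det| = |VV p N| *
    |(Matrix.of fun i j : Fin N => ∑ k : Fin N, ∑ l : Fin N,
      (F i).eval (p ^ ((k : ℕ) + 1)) / pik p N k * B k l * (G j).coeff l).det|

/-- Sizes of the Vandermonde product and of `∏ r_i²`. [QZ: VB]
Proof. `|p^{l+1} - p^{i+1}| ≤ 2 |p|^{l+1} ≤ |p|^{l+2}` (`i < l`), so
`|V| ≤ |p|^{∑_{l<N} l(l+2)}`, `6 ∑_{l<N} l(l+2) = N(N-1)(2N-1) + 6N(N-1) ≤ 2N³+3N²`. Second:
`∏_{i<n0+h} r_i² = ∏_{i'<h} e_{⌊i'/3⌋}^6`, `e_b^6 = |p|^{-3b(b+1)}` (`b(b+1)/2` is an exact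
division), `3b ≥ i'-2`, so `27 b(b+1) ≥ 3(i'-2)(i'+1)`, and
`9 ∑_{i'<h} 3b(b+1) ≥ 3∑_{i'<h} (i'^2 - i' - 2) = h³ - 3h² - 4h ≥ h³ - 7h²`. -/
def S_VB : Prop := ∀ p : ℝ, 2 ≤ |p| →
  (∀ N : ℕ, |VV p N| ^ 6 ≤ |p| ^ (2 * N ^ 3 + 3 * N ^ 2)) ∧
  (∀ n0 h : ℕ, (∏ i : Fin (n0 + h), rr p n0 (i : ℕ) ^ 2) ^ 9 * |p| ^ (h ^ 3) ≤ |p| ^ (7 * h ^ 2))

/-- Upper bound for the determinant of the window `J ≥ -n0`, `N = n0 + h`. [QZ: UP]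
Proof. `S_DET` with `F_i = G_i = BF p n0 i` (`S_DEG`), `B = AM p x (-n0) N`:
`|det B| = |V| |det T|`, `T_ij = LW(BF i, BF j)` (the sums over `Fin N` are the sums over
`range N`). By `S_ENB` and `Pool.Agent.H475.QZ.S_DU` with `B = C3 (N+2)² w`:
`|det T| ≤ N! (C3 (N+2)² w)^N ∏ r_i²`. Power 18, with `S_VB`: `|V|^18 ≤ |p|^{6N³+9N²}`,
`w^{18N} = |p|^{-9N²(N+1)}` (`N(N+1)/2` exact), `(∏ r²)^18 ≤ |p|^{14h² - 2h³}`. So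
`|det B|^18 |p|^{3N³+2h³} ≤ |p|^{6N³+9N²-9N³-9N²+3N³+14h²} (N!)^18 (C3 (N+2)²)^{18N}
≤ |p|^{14N²} ...` and `N! ≤ N^N ≤ 2^{N²}`, `C3 ≤ 2^{C'}`, `N + 2 ≤ 2^{N+1}`. -/
def S_UP : Prop := ∀ p x : ℝ, Hpx p x → ∃ C : ℕ, ∀ n0 h : ℕ, 1 ≤ n0 + h →
  |(AM p x (-(n0 : ℤ)) (n0 + h)).det| ^ 18 * |p| ^ (3 * (n0 + h) ^ 3 + 2 * h ^ 3) ≤
    |p| ^ (C * (n0 + h) ^ 2)

/-! ## E. nonvanishing -/

/-- Rules for the reduction `Rl`, `g² = a g - ε`.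
Proof. Witnesses `(y,s)`: sum `(y1 s2 + y2 s1, s1 s2)`, product `(y1 y2, s1 s2)`, integers
`(C n, 1)`, `α`: `(X, 1)`, inverse: `(s, y)` (`f ≠ 0` gives `aeval g y ≠ 0`; and `z = 0` is
impossible by uniqueness, so `z⁻¹` is fine; in the formula `aeval α y * z⁻¹ = aeval α s` one needs
`z ≠ 0`). Uniqueness: if `Rl 0 f`, then `aeval α y = 0`; dividing by the monic polynomial
`X² - aX + ε`: `y = c + dX` modulo it, `c + dα = 0`, `α` irrational, `c = d = 0`, so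
`aeval g y = 0` (`g² - a g + ε = 0`) and `f = 0`. Integer powers: from product and inverse
(`g ≠ 0` because `ε ≠ 0` in `F`: `ε = ±1`). Determinants: Leibniz formula (finite sums and
products, or `Subring` of `ℝ × F`). -/
def S_RL : Prop := ∀ a ε : ℤ, OK a ε → ∀ (F : Type) (_ : Field F) (g : F),
  g ^ 2 = (a : F) * g - (ε : F) →
  (∀ n : ℤ, Rl a ε g n n) ∧ Rl a ε g (al a ε) g ∧
  (∀ z w f h, Rl a ε g z f → Rl a ε g w h → Rl a ε g (z + w) (f + h)) ∧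
  (∀ z w f h, Rl a ε g z f → Rl a ε g w h → Rl a ε g (z * w) (f * h)) ∧
  (∀ z f, Rl a ε g z f → Rl a ε g (-z) (-f)) ∧
  (∀ z f, Rl a ε g z f → f ≠ 0 → z ≠ 0 ∧ Rl a ε g z⁻¹ f⁻¹) ∧
  (∀ z f, Rl a ε g z f → f ≠ 0 → ∀ n : ℤ, Rl a ε g (z ^ n) (f ^ n)) ∧
  (∀ (ι : Type) (s : Finset ι) (z : ι → ℝ) (f : ι → F), (∀ i ∈ s, Rl a ε g (z i) (f i)) →
    Rl a ε g (∑ i ∈ s, z i) (∑ i ∈ s, f i)) ∧
  (∀ (ι : Type) (s : Finset ι) (z : ι → ℝ) (f : ι → F), (∀ i ∈ s, Rl a ε g (z i) (f i)) →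
    Rl a ε g (∏ i ∈ s, z i) (∏ i ∈ s, f i)) ∧
  (∀ (ι : Type) [Fintype ι] [DecidableEq ι] (A : Matrix ι ι ℝ) (B : Matrix ι ι F),
    (∀ i j, Rl a ε g (A i j) (B i j)) → B.det ≠ 0 → A.det ≠ 0)

/-- Existence of the residue field, `ε = -1`.
Proof. Let `ℓ = 2 m0 + 1` be a prime with `ℓ > max(a, |v|, 2B+1, 7)`. Let `V_0 = 2`, `V_1 = a`,
`V_{n+2} = a V_{n+1} + V_n`. In a field where `X² - aX - 1` has the roots `g, g'`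
(`g + g' = a`, `g g' = -1`), `V_n = g^n + g'^n`. As `ℓ` is odd `V_ℓ = a W` with an integer `W`,
`W ≡ ±ℓ (mod a)` (by induction: for odd `n`, `V_n ≡ n a (mod a²)`; for even `n`,
`V_n ≡ 2 (mod a²)`). So `gcd(W, a)` divides `ℓ`, and `= 1` as `ℓ > a` is prime. `W > 1`. Let `r`
be a prime factor of `W`; `r ∤ a`. `F` = algebraic closure of `ZMod r`, `g, g'` the roots.
`g^ℓ + g'^ℓ = 0` and `g^ℓ g'^ℓ = -1` give `g^{2ℓ} = 1`, so `g^ℓ = ±1`, `g'^ℓ = ∓1`; exchange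
them so that `g^ℓ = (-1)^{m0+1}`: this is `hw` (`ε g (ε g²)^{m0} = (-1)^{m0+1} g^ℓ`).
`r ≠ 2`: otherwise `a` is odd, `g³ = 1 ≠ g`, but `g^{2ℓ} = 1` and `3 ∤ 2ℓ`. `P = -g²`:
`P^ℓ = -g^{2ℓ} = -1`, `P^{2ℓ} = 1`. The order of `P` divides `2ℓ`, not `ℓ`: it is `2` or `2ℓ`; if
`2`: `g⁴ = 1`, with `g^{2ℓ} = 1` (`ℓ` odd) `g² = 1`, so `a g = g² - 1 = 0`, `r ∣ a`,
contradiction. So `hord`. `hD`: `(g - g')² = a² + 4`, and `g = g'` would give `2 g^ℓ = 0`.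
Size of `r`: `g^r` is a root of the same polynomial (Frobenius), so `g^{r²} = g`,
`P^{r²-1} = 1`, `2ℓ ∣ r² - 1`, `ℓ ∣ r - 1` or `ℓ ∣ r + 1`; `r ± 1` is even, so `2ℓ ∣ r ± 1` and
`r ≥ 2ℓ - 1 = 4 m0 + 1 > 3 m0 + 2`. So the numbers `2, 3, v, m0, m0+1, 3m0+1, 3m0+2` are not `0`
in `F`. -/
def S_EX1 : Prop := ∀ a : ℤ, 1 ≤ a → ∀ v : ℤ, v ≠ 0 → ∀ B : ℕ,
  ∃ m0 : ℕ, B ≤ m0 ∧ ∃ (F : Type) (_ : Field F) (g : F), Dat a (-1) v m0 F g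

/-- Existence of the residue field, `ε = 1`.
Proof. Let `ℓ = 2 m0 + 1` be a prime with `ℓ > max(a, |v|, 2B+1, 7)`. `U_n = U a 1 n`,
`W = U_{m0+1} + U_{m0} > 1`, `r` a prime factor of `W`, `F` = algebraic closure of `ZMod r`, `g` a
root of `X² - aX + 1`, `g' = g⁻¹` the other one. `(g - g') U_n = g^n - g'^n`. If `g = g'`, then
`g = ±1`: if `g = 1` (`a = 2` in `F`), `U_n = n`, `W = 2 m0 + 1 = ℓ = 0` so `r = ℓ` and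
`ℓ ∣ a - 2`, impossible as `0 < a - 2 < ℓ`; if `g = -1`, `U_n = (-1)^{n-1} n` and `W = ±1 ≠ 0`
in `F`, contradiction. So `g ≠ g'`, and
`0 = (g - g') W = g^{m0+1} - g^{-m0-1} + g^{m0} - g^{-m0} = g^{-(m0+1)} (g+1)(g^ℓ - 1)`, so
`g^ℓ = 1`, `g ≠ 1`: the order of `g` is `ℓ`. `hw`: `g (g²)^{m0} = g^ℓ = 1`. `hord`:
`(g²)^k = 1` gives `ℓ ∣ 2k`. `r ≠ 2`: otherwise `a` even gives `g = 1`, `a` odd gives
`g³ = 1`, `ℓ = 3`. `hD`: `a² - 4 = (g-g')²`. Size of `r`: `g^{r²-1} = 1`, `ℓ ∣ r² - 1`, and as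
for `S_EX1` `r ≥ 2ℓ - 1`. -/
def S_EX2 : Prop := ∀ a : ℤ, 3 ≤ a → ∀ v : ℤ, v ≠ 0 → ∀ B : ℕ,
  ∃ m0 : ℕ, B ≤ m0 ∧ ∃ (F : Type) (_ : Field F) (g : F), Dat a 1 v m0 F g

/-- Reductions of the `c_m`. Notation: `P = ε g²`, `T = Tt ε m0`, `u = 1 + x p^{m0}`,
`xF = -ε g` (the reduction of `x`).
Proof. `p = ε α²` reduces to `P`, `x` to `-ε g`, `u` to `1 - ε g P^{m0} = 0` (`hw`). `P^T = 1`: let
`w = x p^{m0}` (reduction `-1`); `w² = x² p^{2m0} = ε p^{2m0+1}` (`x0_sq`), so `p^{2m0+1} = ε w²`,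
`p^T = w²` if `ε = 1` and `p^T = w⁴` if `ε = -1`, whose reduction is `1`. (i) For
`|m| < T`, `m ≠ m0, m0 - T`: `1 + xF P^m ≠ 0`, otherwise `P^m = P^{m0}`, `T ∣ m - m0` (`hord`
and `P^T = 1`), but `-2T < m - m0 < T`, `m - m0 ≠ 0, -T`. So `1 + x p^m` reduces to a nonzero
element, and `c_m` to `m(m+1)/(1 + xF P^m)`. (ii) `u c_{m0} = m0(m0+1)`, nonzero by `hm`, `hm1`.
(iii) `1 + x p^{m0-T} = 1 + w p^{-T}`: `ε = 1`: `= 1 + w⁻¹ = u/w`; `ε = -1`: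
`= 1 + w⁻³ = u (w² - w + 1)/w³`. So `u c_{m0-T} = (m0-T)(m0-T+1) w` resp.
`(m0-T)(m0-T+1) w³/(w²-w+1)`, with reduction `(m0-T)(m0-T+1)(-1)` resp.
`(m0-T)(m0-T+1)(-1)/3`; here `(m0-T)(m0-T+1) = (m0+1) m0` if `ε = 1`, and
`= (3m0+2)(3m0+1)` if `ε = -1`. (iv) `p^T - 1 = u (w-1)` (`ε = 1`) or `u (w-1)(w²+1)`
(`ε = -1`), so `(p^T-1)/u` reduces to `-2` resp. `-4`. For `u ≠ 0`: `u = 0` would give
`|x p^m0| = 1`, but `|x p^m0| > 1`. -/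
def S_NV1 : Prop := ∀ a ε v : ℤ, OK a ε → ∀ (m0 : ℕ) (F : Type) (_ : Field F) (g : F),
  Dat a ε v m0 F g →
  Rl a ε g (1 + x0 a ε * pp a ε ^ m0) 0 ∧ (1 + x0 a ε * pp a ε ^ m0 ≠ 0) ∧
  Rl a ε g (pp a ε) ((ε : F) * g ^ 2) ∧ ((ε : F) * g ^ 2 ≠ 0) ∧
  ((ε : F) * g ^ 2) ^ Tt ε m0 = 1 ∧
  (∀ m : ℤ, -(Tt ε m0 : ℤ) < m → m < Tt ε m0 → m ≠ m0 → m ≠ m0 - Tt ε m0 →
    ∃ f : F, Rl a ε g (cc (pp a ε) (x0 a ε) m) f) ∧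
  (∃ f : F, f ≠ 0 ∧ Rl a ε g ((1 + x0 a ε * pp a ε ^ m0) * cc (pp a ε) (x0 a ε) m0) f) ∧
  (∃ f : F, f ≠ 0 ∧
    Rl a ε g ((1 + x0 a ε * pp a ε ^ m0) * cc (pp a ε) (x0 a ε) (m0 - Tt ε m0)) f) ∧
  (∃ f : F, f ≠ 0 ∧
    Rl a ε g ((pp a ε ^ Tt ε m0 - 1) / (1 + x0 a ε * pp a ε ^ m0)) f)

/-- Reductions of `a(K,0)`. Notation as in `S_NV1`.
Proof. `S_CF` and `SS = s/v` (`v ≠ 0` in `F`): `a(K,0) = (εα)^K (-2/√D³)(s/v - ∑_{l≤K} 1/U_l³)`.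
`√D = 2α - a` reduces to `2g - a`, `(2g-a)² = a² - 4ε ≠ 0` (`hD`). By `pp_pow_sub`,
`U_l = (p^l-1)/((εα)^l √D)`. For `1 ≤ l < 2T`, `l ≠ T`: `P^l ≠ 1`, so `U_l` reduces to a nonzero
element, `1/U_l³` has a reduction. For `K < T` this gives a reduction of `a(K,0)`. For
`T ≤ K < 2T`: `u³ a(K,0)`: all the terms reduce to `0` (`u` reduces to `0`) except
`(εα)^K (-2/√D³)(-(u/U_T)³)` and `u/U_T = (εα)^T √D · u/(p^T-1)` has a nonzero reduction by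
`S_NV1`. -/
def S_NV2 : Prop := ∀ a ε s v : ℤ, OK a ε → SS a ε * v = s →
  ∀ (m0 : ℕ) (F : Type) (_ : Field F) (g : F), Dat a ε v m0 F g →
  (∀ K : ℕ, 1 ≤ K → K < Tt ε m0 → ∃ f : F, Rl a ε g (ac (pp a ε) (x0 a ε) K 0) f) ∧
  (∀ K : ℕ, Tt ε m0 ≤ K → K < 2 * Tt ε m0 →
    ∃ f : F, f ≠ 0 ∧
      Rl a ε g ((1 + x0 a ε * pp a ε ^ m0) ^ 3 * ac (pp a ε) (x0 a ε) K 0) f)

/-- Reductions of the `a(K,J)`. Notation as in `S_NV1`.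
Proof. `S_REC` in both directions: `a(J+1) = p^K a(J) - c_{J+1}`,
`a(J-1) = p^{-K}(a(J) + c_J)`. (i) `K < T`, `m0 - T ≤ J ≤ m0 - 1`: start at `J = 0`
(`S_NV2`; `m0 - T < 0 ≤ m0 - 1`), only `c_m` with `m0 - T < m ≤ m0 - 1` are needed, which have
reductions by `S_NV1`. (ii) `K < T`, `J ≥ m0`: `u a(J)`: `u a(m0) = u p^K a(m0-1) - u c_{m0}`
reduces to `-ρ₊`, `ρ₊` the reduction of `u c_{m0}`, and inductively `u a(J)` reduces to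
`-P^{K(J-m0)} ρ₊` for `m0 ≤ J ≤ T-1` (the `c_m` with `m0 < m ≤ T-1` have reductions, times `u`
reduces to `0`). (iii) `J ≤ m0 - T - 1`: `u a(m0-T-1) = p^{-K}(u a(m0-T) + u c_{m0-T})` reduces
to `P^{-K} ρ₋` and inductively `u a(J)` reduces to `P^{K(J - m0 + T)} ρ₋` for
`-(T-1) ≤ J ≤ m0-T-1`. (iv) `T ≤ K < 2T`: `u³ a(0)` reduces to `b_K ≠ 0` and all
`u³ c_m` reduce to `0`, so `u³ a(J)` reduces to `P^{KJ} b_K`. -/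
def S_NV3 : Prop := ∀ a ε s v : ℤ, OK a ε → SS a ε * v = s →
  ∀ (m0 : ℕ) (F : Type) (_ : Field F) (g : F), Dat a ε v m0 F g →
  (∀ K : ℕ, 1 ≤ K → K < Tt ε m0 → ∀ J : ℤ, (m0 : ℤ) - Tt ε m0 ≤ J → J < m0 →
    ∃ f : F, Rl a ε g (ac (pp a ε) (x0 a ε) K J) f) ∧
  (∃ ρ : F, ρ ≠ 0 ∧ ∀ K : ℕ, 1 ≤ K → K < Tt ε m0 → ∀ J : ℤ, (m0 : ℤ) ≤ J → J < Tt ε m0 →
    Rl a ε g ((1 + x0 a ε * pp a ε ^ m0) * ac (pp a ε) (x0 a ε) K J)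
      (((ε : F) * g ^ 2) ^ ((K : ℤ) * (J - m0)) * ρ)) ∧
  (∃ ρ : F, ρ ≠ 0 ∧ ∀ K : ℕ, 1 ≤ K → K < Tt ε m0 → ∀ J : ℤ, -(Tt ε m0 : ℤ) < J →
    J < (m0 : ℤ) - Tt ε m0 →
    Rl a ε g ((1 + x0 a ε * pp a ε ^ m0) * ac (pp a ε) (x0 a ε) K J)
      (((ε : F) * g ^ 2) ^ ((K : ℤ) * (J - m0 + Tt ε m0)) * ρ)) ∧
  (∀ K : ℕ, Tt ε m0 ≤ K → K < 2 * Tt ε m0 → ∃ b : F, b ≠ 0 ∧ ∀ J : ℤ,
    -(Tt ε m0 : ℤ) < J → J < Tt ε m0 →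
    Rl a ε g ((1 + x0 a ε * pp a ε ^ m0) ^ 3 * ac (pp a ε) (x0 a ε) K J)
      (((ε : F) * g ^ 2) ^ ((K : ℤ) * J) * b))

/-- The linear algebra of the nonvanishing, abstract form. `A K J` real numbers, `u` real, `P` an
element of order exactly `T` of a field `F`, `R z f` a relation between real numbers and
elements of `F` with the rules of `S_RL` (here only: `Rl a ε g`).
Proof. Suppose the determinant is `0`. Index the rows by `K < T` (`T-1` of them) and `K ≥ T` (`T`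
of them), the columns by the others `J ∉ C₀` (`T-1`) and `C₀ = [m0-T, m0-1]` (`T`). For `J ∉ C₀`
let `J' ∈ C₀` with `J' ≡ J (mod T)` (`J' = J - T` if `J ≥ m0`, `J' = J + T` if
`J < m0 - T`). Let `B` be the matrix with the entries `s_K u (A(K,J) - A(K,J'))`, `J ∉ C₀`, and
`s_K A(K,J)`, `J ∈ C₀`, where `s_K = 1` for `K < T` and `s_K = u³` for `K ≥ T`. `B` is
`diag(s) · A · E` for a matrix `E` (block form `[[u I, 0],[-u Π, I]]`), so `det B = 0`. The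
entries have reductions: `K < T`, `J ∉ C₀`: `u A(K,J)` reduces to `P^{K i} ρ±` with
`i = J - m0 ∈ [0, T-1-m0]` resp. `i = J - m0 + T ∈ [1-m0, -1]`, and `u A(K,J')` to `0`;
`K < T`, `J ∈ C₀`: some `f`; `K ≥ T`, `J ∉ C₀`: `u (u³ A(K,J) - u³ A(K,J'))` reduces to `0`;
`K ≥ T`, `J ∈ C₀`: `P^{KJ} b_K`. The reduced matrix is block triangular, with the diagonal blocks
`(P^{K i} ρ±)`, `K = 1..T-1`, `i` in `T-1` consecutive integers: the product of the `ρ` and of a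
Vandermonde determinant in the `T-1` different numbers `P^i` (or `P^K`) up to a factor `∏ P^..`,
nonzero; and `(b_K P^{KJ})`, `K = T..2T-1`, `J` in `T` consecutive integers: `∏ b_K` times a
Vandermonde determinant in the different numbers `P^K`, nonzero. By the last rule of `S_RL`
`det B ≠ 0`, contradiction. -/
def S_NV4 : Prop := ∀ a ε : ℤ, OK a ε → ∀ (F : Type) (_ : Field F) (g : F),
  g ^ 2 = (a : F) * g - (ε : F) →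
  ∀ (T m0 : ℕ) (u : ℝ) (P : F) (A : ℕ → ℤ → ℝ) (ρ ρ' : F) (b : ℕ → F) (f : ℕ → ℤ → F),
  1 ≤ m0 → m0 < T → Rl a ε g u 0 → P ^ T = 1 → (∀ k : ℕ, 0 < k → k < T → P ^ k ≠ 1) →
  ρ ≠ 0 → ρ' ≠ 0 → (∀ K, T ≤ K → K < 2 * T → b K ≠ 0) →
  (∀ K : ℕ, 1 ≤ K → K < T → ∀ J : ℤ, (m0 : ℤ) - T ≤ J → J < m0 → Rl a ε g (A K J) (f K J)) →
  (∀ K : ℕ, 1 ≤ K → K < T → ∀ J : ℤ, (m0 : ℤ) ≤ J → J < T →
    Rl a ε g (u * A K J) (P ^ ((K : ℤ) * (J - m0)) * ρ)) →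
  (∀ K : ℕ, 1 ≤ K → K < T → ∀ J : ℤ, -(T : ℤ) < J → J < (m0 : ℤ) - T →
    Rl a ε g (u * A K J) (P ^ ((K : ℤ) * (J - m0 + T)) * ρ')) →
  (∀ K : ℕ, T ≤ K → K < 2 * T → ∀ J : ℤ, -(T : ℤ) < J → J < T →
    Rl a ε g (u ^ 3 * A K J) (P ^ ((K : ℤ) * J) * b K)) →
  (Matrix.of fun k j : Fin (2 * (T - 1) + 1) =>
    A ((k : ℕ) + 1) (-((T - 1 : ℕ) : ℤ) + ((j : ℕ) : ℤ))).det ≠ 0

/-- Nonvanishing for infinitely many `n` (if `SS` is rational).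
Proof. `S_EX1` (`ε = -1`) or `S_EX2` (`ε = 1`) with the bound `B`, then `S_NV1`, `S_NV3` and
`S_NV4` with `T = Tt ε m0`, `n = T - 1 ≥ m0 ≥ B`. -/
def S_NV : Prop := ∀ a ε : ℤ, OK a ε → ∀ s v : ℤ, v ≠ 0 → SS a ε * v = s → ∀ B : ℕ,
  ∃ n : ℕ, B ≤ n ∧ (AM (pp a ε) (x0 a ε) (-(n : ℤ)) (2 * n + 1)).det ≠ 0

/-! ## F. conclusion -/

/-- Final theorem.
Proof. Suppose `SS = s/v`. For `n ≥ 1` with `det ≠ 0` (`S_NV`, `n` arbitrarily large) take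
`S_NRM` to the power `4050 = 2·2025 = 225·18`. `S_DDB`: `(DD DD')^4050 ≤ α^{23296 n³ + 2C n²}`.
`S_UP` with `(n0,h) = (n, n+1)` and `(n+2, n-1)`, `|p| = α²`, product of the two:
`(|det||det'|)^18 α^{2(6(2n+1)³ + 2(n+1)³ + 2(n-1)³)} ≤ α^{4C'(2n+1)²}`, and
`6(2n+1)³ + 2(n+1)³ + 2(n-1)³ ≥ 52 n³`; to the power 225:
`(|det||det'|)^4050 α^{23400 n³} ≤ α^{C'' n²}`. The other factors are at most `α^{C''' n²}`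
(`|v| √D³ ≤ α^{c}` for some `c`; `|p|^{(2n+1)(n+1)} = α^{2(2n+1)(n+1)}`). So
`α^{23400 n³} ≤ α^{23296 n³ + C n²}`, i.e. `104 n³ ≤ C n²`, `n ≤ C`: contradiction for large
`n`. -/
def S_FIN : Prop := ∀ a ε : ℤ, OK a ε → Irrational (SS a ε)

/-- The Fibonacci numbers `F_{k n}`.
Proof. `F_{k(n+2)} = L_k F_{k(n+1)} - (-1)^k F_{kn}`, `L_k = F_{k-1} + F_{k+1}`, so
`F_{kn} = F_k U(L_k, (-1)^k)_n` (induction on `n`); `OK (L_k) ((-1)^k)`: `L_k ≥ 1`, and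
`L_k ≥ 3` for even `k ≥ 2`. So `∑ 1/F_{kn}³ = F_k^{-3} SS`. The identity
`F_{m+2k} + (-1)^k F_m = L_k F_{m+k}`: e.g. by strong induction on `m` from `m = 0`
(`F_{2k} = L_k F_k`) and `m = 1`, or from `U_mul` (Binet) for `a = 1, ε = -1`. -/
def S_FIB : Prop := ∀ k : ℕ, 1 ≤ k →
  Irrational (∑' n : ℕ, 1 / (Nat.fib (k * (n + 1)) : ℝ) ^ 3)

end Pool.Agent.H410.FC
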