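import Pool.Agent.H410.FC.Main

/-!
Every `k`-th term of a Lucas sequence (helper410).
-/

set_option autoImplicit false

namespace Pool.Agent.H410.FC

namespace Sub

variable (a ε : ℤ)

theorem step (n : ℕ) : U a ε (n + 2) = a * U a ε (n + 1) - ε * U a ε n := rfl

/-- d'Ocagne's identity -/
theorem ocagne (m j : ℕ) :
    U a ε (m + j) * U a ε (j + 1) - U a ε (m + j + 1) * U a ε j = ε ^ j * U a ε m := by
  induction j with
  | zero =>
    have h0 : U a ε 0 = 0 := rfl
    have h1 : U a ε (0 + 1) = 1 := rfl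
    rw [h0, h1]
    simp
  | succ j ih =>
    have h1 := step a ε j
    have h2 := step a ε (m + j)
    have h3 : U a ε (m + (j + 1)) = U a ε (m + j + 1) := rfl
    have h4 : U a ε (m + (j + 1) + 1) = U a ε (m + j + 2) := rfl
    have h5 : U a ε (j + 1 + 1) = U a ε (j + 2) := rfl
    rw [h3, h4, h5, h1, h2, pow_succ]
    linear_combination ε * ih

theorem add (n : ℕ) : ∀ m : ℕ,
    U a ε (m + n + 1) = U a ε (m + 1) * U a ε (n + 1) - ε * (U a ε m * U a ε n) := by
  induction n with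
  | zero =>
    intro m
    have h0 : U a ε 0 = 0 := rfl
    have h1 : U a ε (0 + 1) = 1 := rfl
    rw [h0, h1]
    simp
  | succ n ih =>
    intro m
    have h1 := ih (m + 1)
    have h2 := step a ε n
    have h3 := step a ε m
    have h4 : m + (n + 1) + 1 = m + 1 + n + 1 := by ring
    have h5 : U a ε (n + 1 + 1) = U a ε (n + 2) := rfl
    have h6 : U a ε (m + 1 + 1) = U a ε (m + 2) := rfl
    rw [h4, h1, h5, h6, h2, h3]
    ring

theorem rec (m j : ℕ) :
    U a ε (m + (j + 1) + (j + 1)) =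
      (U a ε (j + 2) - ε * U a ε j) * U a ε (m + (j + 1)) - ε ^ (j + 1) * U a ε m := by
  have h1 := add a ε (j + 1) (m + j)
  have h2 : m + (j + 1) + (j + 1) = m + j + (j + 1) + 1 := by ring
  have h3 := ocagne a ε m j
  have h4 : U a ε (m + (j + 1)) = U a ε (m + j + 1) := rfl
  have h5 : U a ε (j + 1 + 1) = U a ε (j + 2) := rfl
  rw [h2, h1, h4, h5, pow_succ]
  linear_combination (-ε) * h3

theorem eq (j n : ℕ) :
    U a ε ((j + 1) * n) =
      U a ε (j + 1) * U (U a ε (j + 2) - ε * U a ε j) (ε ^ (j + 1)) n := by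
  induction n using Nat.strong_induction_on with
  | _ n ih =>
    match n with
    | 0 => simp [U]
    | 1 => simp [U]
    | (n + 2) =>
      have h1 := ih n (by omega)
      have h2 := ih (n + 1) (by omega)
      have h3 := rec a ε ((j + 1) * n) j
      have h4 : (j + 1) * (n + 2) = (j + 1) * n + (j + 1) + (j + 1) := by ring
      have h5 : (j + 1) * n + (j + 1) = (j + 1) * (n + 1) := by ring
      rw [h4, h3, h5, h2, h1, step (U a ε (j + 2) - ε * U a ε j) (ε ^ (j + 1)) n]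
      ring

/-- growth if `ε = 1`, `a ≥ 3` -/
theorem gr1 (ha : 3 ≤ a) (n : ℕ) : 0 ≤ U a 1 n ∧ 2 * U a 1 n + 1 ≤ U a 1 (n + 1) := by
  induction n with
  | zero =>
    have h0 : U a 1 0 = 0 := rfl
    have h1 : U a 1 (0 + 1) = 1 := rfl
    rw [h0, h1]
    norm_num
  | succ n ih =>
    have h1 := step a 1 n
    have h2 : U a 1 (n + 1 + 1) = U a 1 (n + 2) := rfl
    rw [h2, h1]
    constructor
    · linarith [ih.1, ih.2]
    · nlinarith [ih.1, ih.2]

/-- growth if `ε = -1`, `a ≥ 1` -/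
theorem gr2 (ha : 1 ≤ a) (n : ℕ) : 0 ≤ U a (-1) n ∧ 1 ≤ U a (-1) (n + 1) := by
  induction n with
  | zero =>
    have h0 : U a (-1) 0 = 0 := rfl
    have h1 : U a (-1) (0 + 1) = 1 := rfl
    rw [h0, h1]
    norm_num
  | succ n ih =>
    have h1 := step a (-1) n
    have h2 : U a (-1) (n + 1 + 1) = U a (-1) (n + 2) := rfl
    rw [h2, h1]
    constructor
    · linarith [ih.2]
    · nlinarith [ih.1, ih.2]

theorem pos (h : OK a ε) (n : ℕ) : 1 ≤ U a ε (n + 1) := by
  rcases h with ⟨rfl, ha⟩ | ⟨rfl, ha⟩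
  · exact (gr2 a ha n).2
  · linarith [(gr1 a ha n).1, (gr1 a ha n).2]

theorem ok (h : OK a ε) (j : ℕ) : OK (U a ε (j + 2) - ε * U a ε j) (ε ^ (j + 1)) := by
  rcases h with ⟨rfl, ha⟩ | ⟨rfl, ha⟩
  · rcases Nat.even_or_odd (j + 1) with h | h
    · right
      refine ⟨h.neg_one_pow, ?_⟩
      obtain ⟨i, rfl⟩ : ∃ i, j = i + 1 := by
        rcases h with ⟨r, hr⟩
        exact ⟨j - 1, by omega⟩
      have h1 := (gr2 a ha i).2
      have h2 := (gr2 a ha (i + 1)).2
      have h3 := step a (-1) (i + 1)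
      rw [h3]
      have h4 : U a (-1) (i + 1 + 1) = U a (-1) (i + 2) := rfl
      rw [h4] at h2 ⊢
      nlinarith
    · left
      refine ⟨h.neg_one_pow, ?_⟩
      have h1 := (gr2 a ha j).1
      have h2 := (gr2 a ha (j + 1)).2
      have h4 : U a (-1) (j + 1 + 1) = U a (-1) (j + 2) := rfl
      rw [h4] at h2
      linarith
  · right
    refine ⟨one_pow _, ?_⟩
    have h1 := gr1 a ha j
    have h2 := gr1 a ha (j + 1)
    have h4 : U a 1 (j + 1 + 1) = U a 1 (j + 2) := rfl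
    rw [h4] at h2
    linarith [h1.1, h1.2, h2.2]

end Sub

theorem sub (a ε : ℤ) (h : OK a ε) (k : ℕ) (hk : 1 ≤ k) :
    Irrational (∑' n : ℕ, 1 / (U a ε (k * (n + 1)) : ℝ) ^ 3) := by
  obtain ⟨j, rfl⟩ : ∃ j, k = j + 1 := ⟨k - 1, by omega⟩
  have h1 := fin _ _ (Sub.ok a ε h j)
  have hf : U a ε (j + 1) ≠ 0 := by
    have := Sub.pos a ε h j
    omega
  have hfq : (1 / (U a ε (j + 1) : ℚ) ^ 3) ≠ 0 := by
    apply div_ne_zero one_ne_zero
    apply pow_ne_zero
    exact_mod_cast hf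
  have h2 := h1.ratCast_mul hfq
  have h3 : (∑' n : ℕ, 1 / (U a ε ((j + 1) * (n + 1)) : ℝ) ^ 3) =
      ((1 / (U a ε (j + 1) : ℚ) ^ 3 : ℚ) : ℝ) *
        SS (U a ε (j + 2) - ε * U a ε j) (ε ^ (j + 1)) := by
    unfold SS
    rw [← tsum_mul_left]
    refine tsum_congr fun n => ?_
    have h4 : (U a ε ((j + 1) * (n + 1)) : ℝ) = (U a ε (j + 1) : ℝ) *
        (U (U a ε (j + 2) - ε * U a ε j) (ε ^ (j + 1)) (n + 1) : ℝ) := by
      exact_mod_cast Sub.eq a ε j (n + 1)
    rw [h4, mul_pow]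
    push_cast
    rw [one_div_mul_one_div]
  rw [h3]
  exact h2

end Pool.Agent.H410.FC
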